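import Pool.Agent.N312.KK.Stm

/-! Assembly. -/

set_option autoImplicit false
set_option synthInstance.maxHeartbeats 400000

namespace Pool.Agent.N312.KK

noncomputable section

theorem exists_rat_functional : ∃ p : ℝ →ₗ[ℚ] ℚ, p 1 = 1 := by
  obtain ⟨p, hp⟩ := LinearMap.exists_leftInverse_of_injective (Algebra.linearMap ℚ ℝ)
    (LinearMap.ker_eq_bot.2 (algebraMap ℚ ℝ).injective)
  refine ⟨p, ?_⟩
  have := LinearMap.congr_fun hp 1
  simpa using this

theorem cob_lin {X : Type} [TopologicalSpace X] (p : ℝ →ₗ[ℚ] ℚ) (n : ℕ) (ψ : Sing X n → ℝ)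
    (σ : Sing X (n + 1)) : cob ℚ X n (fun τ => p (ψ τ)) σ = p (cob ℝ X n ψ σ) := by
  change ∑ i : Fin (n + 2), (-1 : ℚ) ^ (i : ℕ) * p (ψ (face n i σ)) =
    p (∑ i : Fin (n + 2), (-1 : ℝ) ^ (i : ℕ) * ψ (face n i σ))
  rw [map_sum]
  refine Finset.sum_congr rfl fun i _ => ?_
  have h : (-1 : ℝ) ^ (i : ℕ) * ψ (face n i σ) = ((-1 : ℚ) ^ (i : ℕ)) • ψ (face n i σ) := by
    rw [Rat.smul_def]; norm_num
  rw [h, map_smul, smul_eq_mul]

/-- The class of a cocycle. -/
def cls {X : Type} [TopologicalSpace X] {n : ℕ} (φ : Sing X n → ℚ) (h : φ ∈ Coc X n) : Coh X n :=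
  Submodule.Quotient.mk ⟨φ, h⟩

theorem map_cls_eq_zero {X Y : Type} [TopologicalSpace X] [TopologicalSpace Y] (f : C(X, Y))
    (n : ℕ) (φ : Sing Y (n + 1) → ℚ) (h : φ ∈ Coc Y (n + 1)) :
    Coh.map f (n + 1) (cls φ h) = 0 ↔ ∃ ψ : Sing X n → ℚ, ∀ σ, cob ℚ X n ψ σ = φ (f.comp σ) := by
  have h1 : Coh.map f (n + 1) (cls φ h) =
      (Submodule.Quotient.mk ((pull ℚ f (n + 1)).restrict (pull_mem_Coc f (n + 1)) ⟨φ, h⟩) :
        Coh X (n + 1)) := rfl
  rw [h1, Submodule.Quotient.mk_eq_zero]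
  constructor
  · rintro ⟨ψ, hψ⟩
    exact ⟨ψ, fun σ => congrFun hψ σ⟩
  · rintro ⟨ψ, hψ⟩
    exact ⟨ψ, funext hψ⟩

theorem cob_one {R : Type} [Field R] {X : Type} [TopologicalSpace X] (ψ : Sing X 1 → R)
    (σ : Sing X 2) :
    cob R X 1 ψ σ = ψ (face 1 0 σ) - ψ (face 1 1 σ) + ψ (face 1 2 σ) := by
  change ∑ i : Fin 3, (-1 : R) ^ (i : ℕ) * ψ (face 1 i σ) = _
  rw [Fin.sum_univ_three]
  simp
  ring

theorem udet_mul (g h : U2) : udet (g * h) = udet g * udet h := by
  apply Subtype.ext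
  change ((g * h : U2) : Matrix (Fin 2) (Fin 2) ℂ).det = _
  rw [Submonoid.coe_mul, Matrix.det_mul]
  rfl

/-- the argument of a non-zero complex number -/
def carg (w : ℂ) (hw : w ≠ 0) : Circle := ⟨w / (‖w‖ : ℂ), by
  rw [Submonoid.unitSphere, ← SetLike.mem_coe]
  change _ ∈ Metric.sphere (0 : ℂ) 1
  rw [mem_sphere_zero_iff_norm, norm_div, Complex.norm_real, norm_norm,
    div_self (norm_ne_zero_iff.2 hw)]⟩

theorem continuous_disc : Continuous fun t : Cub => disc (t : Ten) := by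
  unfold disc
  have h : ∀ i j k, Continuous fun t : Cub => (t : Ten) i j k := fun i j k =>
    (continuous_apply k).comp ((continuous_apply j).comp ((continuous_apply i).comp
      continuous_subtype_val))
  have h0 := h 0 0 0
  have h1 := h 0 0 1
  have h2 := h 0 1 1
  have h3 := h 1 1 1
  exact (((h0.mul h3).sub (h1.mul h2)).pow 2).sub
    ((continuous_const.mul ((h0.mul h2).sub (h1.pow 2))).mul ((h1.mul h3).sub (h2.pow 2)))

/-- The class of a universal space. -/
theorem asm (hLFT : LFT) (hVAR : VAR) (hWND : WND) (hTRV : TRV) (hEQV : EQV) (hNVD : NVD)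
    (hINV : INV) (hPRE : PRE) (hSPX : SPX) (P : Type) [TopologicalSpace P] [MulAction U2 P]
    (hP : IsUniversal U2 P) :
    ∃ x : Coh (Borel U2 P (Set.univ : Set Cub)) 2,
      (∀ α : u2dual, IsCentral α → IsRegular α → restr U2 P (level α) 2 x = 0) ∧
      restr U2 P freeLocus 2 x ≠ 0 := by
  obtain ⟨vr, hvr⟩ := hVAR
  obtain ⟨iE, hact, hE, hO⟩ := hPRE P hP Set.univ (fun _ _ _ => trivial)
  let π : C({x : P × Cub // x.2 ∈ (Set.univ : Set Cub)}, Borel U2 P (Set.univ : Set Cub)) :=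
    ⟨Borel.mk U2 P Set.univ, hO.quot.continuous⟩
  have hL : Lifts π := hLFT U2 _ _ _ hE hO
  obtain ⟨b, c, hT⟩ := hWND U2 _ _ π udet vr hE hO hL udet_mul hvr
  obtain ⟨p, hp⟩ := exists_rat_functional
  have hcoc : (fun σ => p (c σ)) ∈ Coc (Borel U2 P (Set.univ : Set Cub)) 2 := by
    change cob ℚ _ 2 _ = 0
    funext σ
    rw [cob_lin, hT.coc]
    exact map_zero p
  refine ⟨cls (fun σ => p (c σ)) hcoc, ?_, ?_⟩
  · intro α hα hr
    obtain ⟨iE', hact', hE', hO'⟩ := hPRE P hP (level α) (hINV α hα)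
    let π' : C({x : P × Cub // x.2 ∈ level α}, Borel U2 P (level α)) :=
      ⟨Borel.mk U2 P (level α), hO'.quot.continuous⟩
    have hL' : Lifts π' := hLFT U2 _ _ _ hE' hO'
    let jE : C({x : P × Cub // x.2 ∈ level α}, {x : P × Cub // x.2 ∈ (Set.univ : Set Cub)}) :=
      ⟨fun x => ⟨x.1, trivial⟩, by fun_prop⟩
    have hne : ∀ x : {x : P × Cub // x.2 ∈ level α}, disc (x.1.2 : Ten) ≠ 0 := fun x =>
      hNVD α hα hr _ x.2
    let d : C({x : P × Cub // x.2 ∈ level α}, Circle) :=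
      ⟨fun x => carg (disc (x.1.2 : Ten)) (hne x), by
        have h1 : Continuous fun x : {x : P × Cub // x.2 ∈ level α} => disc (x.1.2 : Ten) :=
          continuous_disc.comp (continuous_snd.comp continuous_subtype_val)
        refine Continuous.subtype_mk ?_ _
        refine h1.div ?_ ?_
        · exact Complex.continuous_ofReal.comp h1.norm
        · intro x
          exact_mod_cast norm_ne_zero_iff.2 (hne x)⟩
    obtain ⟨ψ, hψ⟩ := hTRV U2 _ _ π udet vr b c hE hvr hT _ _ π' jE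
      (Borel.incl U2 P (Set.subset_univ (level α))) d 6 hL' (fun e => rfl) (by
        intro e e' h
        obtain ⟨g, hg⟩ := (hO'.fib e e').1 h
        refine ⟨g, Subtype.ext ?_⟩
        rw [hact]
        change g • e.1 = e'.1
        rw [← hact', hg]) (by
        intro g e e' h
        have h1 : g • e.1 = e'.1 := by
          have := congrArg Subtype.val h
          rw [hact] at this
          exact this
        have h2 : (e'.1.2 : Ten) = act g (e.1.2 : Ten) := by
          rw [← h1]; rfl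
        have h3 : disc (e'.1.2 : Ten) = (udet g : ℂ) ^ 6 * disc (e.1.2 : Ten) := by
          rw [h2, hEQV]; rfl
        apply Subtype.ext
        change disc (e'.1.2 : Ten) / (‖disc (e'.1.2 : Ten)‖ : ℂ) = _
        rw [h3, norm_mul, norm_pow, Circle.norm_coe, one_pow, one_mul]
        change _ = ((udet g ^ 6 * d e : Circle) : ℂ)
        rw [Circle.coe_mul, Circle.coe_pow, mul_div_assoc]
        rfl)
    refine (map_cls_eq_zero _ 1 _ hcoc).2 ⟨fun τ => p (ψ τ / 6), fun σ => ?_⟩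
    have h5 : cob ℝ (Borel U2 P (level α)) 1 (fun τ => ψ τ / 6) σ =
        cob ℝ (Borel U2 P (level α)) 1 ψ σ / 6 := by
      rw [cob_one, cob_one]; ring
    rw [cob_lin, h5, ← hψ]
    congr 1
    push_cast
    ring
  · intro h0
    obtain ⟨ψ, hψ⟩ := (map_cls_eq_zero _ 1 _ hcoc).1 h0
    obtain ⟨σ, e, z, h12, h01, h02, hz⟩ := hSPX P hP vr hvr
    let q : C({x : P × Cub // x.2 ∈ freeLocus}, Borel U2 P freeLocus) :=
      ⟨Borel.mk U2 P freeLocus, continuous_quotient_mk'⟩
    let j : C({x : P × Cub // x.2 ∈ freeLocus}, {x : P × Cub // x.2 ∈ (Set.univ : Set Cub)}) :=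
      ⟨fun x => ⟨x.1, trivial⟩, by fun_prop⟩
    let κ : Sing {x : P × Cub // x.2 ∈ freeLocus} 2 := ContinuousMap.const _ e
    let κ1 : Sing {x : P × Cub // x.2 ∈ freeLocus} 1 := ContinuousMap.const _ e
    -- the faces in the orbit space
    have hf0 : q.comp (face 1 0 σ) = q.comp κ1 := by
      ext s
      refine (Quotient.sound ?_ : Borel.mk U2 P freeLocus (face 1 0 σ s) = Borel.mk U2 P freeLocus e)
      refine ⟨(z s)⁻¹, ?_, ?_⟩
      · rw [h01, inv_smul_smul]
      · rw [h02, inv_smul_smul]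
    have e1 := hψ (q.comp σ)
    have e2 := hψ (q.comp κ)
    rw [cob_one] at e1 e2
    have hk0 : face 1 0 (q.comp κ) = q.comp κ1 := rfl
    have hk1 : face 1 1 (q.comp κ) = q.comp κ1 := rfl
    have hk2 : face 1 2 (q.comp κ) = q.comp κ1 := rfl
    rw [hk0, hk1, hk2, sub_self, zero_add] at e2
    have hs0 : face 1 0 (q.comp σ) = q.comp κ1 := hf0
    have hs1 : face 1 1 (q.comp σ) = face 1 2 (q.comp σ) := by
      change q.comp (face 1 1 σ) = q.comp (face 1 2 σ)
      rw [h12]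
    rw [hs0, hs1, sub_add_cancel] at e1
    have e3 : p (c ((Borel.incl U2 P (Set.subset_univ freeLocus)).comp (q.comp σ))) =
        p (c ((Borel.incl U2 P (Set.subset_univ freeLocus)).comp (q.comp κ))) := by
      exact e1.symm.trans e2
    have g1 : (Borel.incl U2 P (Set.subset_univ freeLocus)).comp (q.comp σ) =
        π.comp (j.comp σ) := rfl
    have g2 : (Borel.incl U2 P (Set.subset_univ freeLocus)).comp (q.comp κ) =
        π.comp (j.comp κ) := rfl
    rw [g1, g2, hT.lft, hT.lft, cob_one, cob_one] at e3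
    have a1 : face 1 1 (j.comp σ) = face 1 2 (j.comp σ) := by
      change j.comp (face 1 1 σ) = j.comp (face 1 2 σ)
      rw [h12]
    have a2 : face 1 0 (j.comp κ) = j.comp κ1 := rfl
    have a3 : face 1 1 (j.comp κ) = j.comp κ1 := rfl
    have a4 : face 1 2 (j.comp κ) = j.comp κ1 := rfl
    have a5 : b (face 1 0 (j.comp σ)) = vr (udet.comp z) + b (j.comp κ1) := by
      apply hT.mul z
      intro s
      apply Subtype.ext
      rw [hact]
      exact Prod.ext (h01 s) (h02 s)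
    rw [a1, a2, a3, a4, a5, hz, sub_add_cancel, sub_add_cancel, map_add] at e3
    have e4 : p 2 = 0 := by linarith
    have e5 : p (2 : ℝ) = 2 := by
      have : (2 : ℝ) = (2 : ℚ) • (1 : ℝ) := by rw [Rat.smul_def]; norm_num
      rw [this, map_smul, hp]; norm_num
    rw [e5] at e4
    norm_num at e4

end

end Pool.Agent.N312.KK
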