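import Pool.Agent.N312.KK.Inv

/-! Basic facts on the action: unitary, infinitesimal action, moment map. -/

set_option autoImplicit false
set_option synthInstance.maxHeartbeats 400000

namespace Pool.Agent.N312.KK

theorem deriv_act (t : Ten) (γ : ℝ → Matrix (Fin 2) (Fin 2) ℂ) (ξ : Matrix (Fin 2) (Fin 2) ℂ)
    (h1 : γ 0 = 1) (h : ∀ i j, HasDerivAt (fun r => γ r i j) (ξ i j) 0) (i j k : Fin 2) :
    HasDerivAt (fun r => act (γ r) t i j k) (inf ξ t i j k) 0 := by
  have key : ∀ a b c : Fin 2, HasDerivAt (fun r => γ r i a * γ r j b * γ r k c * t a b c)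
      (((ξ i a * γ 0 j b + γ 0 i a * ξ j b) * γ 0 k c + γ 0 i a * γ 0 j b * ξ k c) * t a b c) 0 :=
    fun a b c => (((h i a).mul (h j b)).mul (h k c)).mul_const _
  have h2 := HasDerivAt.fun_sum (u := Finset.univ) fun a (_ : a ∈ Finset.univ) =>
    HasDerivAt.fun_sum (u := Finset.univ) fun b (_ : b ∈ Finset.univ) =>
    HasDerivAt.fun_sum (u := Finset.univ) fun c (_ : c ∈ Finset.univ) => key a b c
  refine h2.congr_deriv ?_
  rw [h1]
  simp only [inf, Fin.sum_univ_two]
  fin_cases i <;> fin_cases j <;> fin_cases k <;> simp [Matrix.one_apply] <;> ring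

theorem herm_add_left (a b c : Ten) : herm (a + b) c = herm a c + herm b c := by
  simp only [herm, Pi.add_apply, add_mul, Finset.sum_add_distrib]

theorem herm_add_right (a b c : Ten) : herm a (b + c) = herm a b + herm a c := by
  simp only [herm, Pi.add_apply, map_add, mul_add, Finset.sum_add_distrib]

theorem herm_smul_left (x : ℂ) (a c : Ten) : herm (x • a) c = x * herm a c := by
  simp only [herm, Pi.smul_apply, smul_eq_mul, Finset.mul_sum, mul_assoc]

theorem herm_smul_right (x : ℂ) (a c : Ten) : herm a (x • c) = (starRingEnd ℂ) x * herm a c := by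
  simp only [herm, Pi.smul_apply, smul_eq_mul, Finset.mul_sum, map_mul]
  refine Finset.sum_congr rfl fun i _ => Finset.sum_congr rfl fun j _ =>
    Finset.sum_congr rfl fun k _ => ?_
  ring

theorem herm_conj (a c : Ten) : (starRingEnd ℂ) (herm a c) = herm c a := by
  simp only [herm, map_sum, map_mul, Complex.conj_conj]
  refine Finset.sum_congr rfl fun i _ => Finset.sum_congr rfl fun j _ =>
    Finset.sum_congr rfl fun k _ => ?_
  ring

theorem inf_add (ξ : Matrix (Fin 2) (Fin 2) ℂ) (a b : Ten) : inf ξ (a + b) = inf ξ a + inf ξ b := by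
  funext i j k
  simp only [inf, Pi.add_apply, Fin.sum_univ_two]
  ring

theorem inf_smul (ξ : Matrix (Fin 2) (Fin 2) ℂ) (x : ℂ) (a : Ten) :
    inf ξ (x • a) = x • inf ξ a := by
  funext i j k
  simp only [inf, Pi.smul_apply, smul_eq_mul, Fin.sum_univ_two]
  ring

theorem herm_inf (ξ : u2) (a b : Ten) :
    herm (inf (ξ : Matrix (Fin 2) (Fin 2) ℂ) a) b = - herm a (inf (ξ : Matrix (Fin 2) (Fin 2) ℂ) b) := by
  have h : ∀ i l, (starRingEnd ℂ) ((ξ : Matrix (Fin 2) (Fin 2) ℂ) i l) =
      - (ξ : Matrix (Fin 2) (Fin 2) ℂ) l i := by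
    intro i l
    have h := skewAdjoint.mem_iff.1 ξ.2
    have h2 := congrFun (congrFun h l) i
    exact h2
  simp only [herm, inf, Fin.sum_univ_two, map_add, map_mul, h]
  ring

/-- The moment map equation: `d(μ^ξ) = ω(ξ_V, ·)`. -/
theorem deriv_mom (t s : Cub) (ξ : u2) :
    HasDerivAt (fun r : ℝ => mom (t + (r : ℂ) • s) ξ)
      (herm (inf (ξ : Matrix (Fin 2) (Fin 2) ℂ) t) s).im 0 := by
  have h : ∀ r : ℝ, mom (t + (r : ℂ) • s) ξ = mom t ξ +
      r * (herm (inf (ξ : Matrix (Fin 2) (Fin 2) ℂ) t) s).im + r ^ 2 * mom s ξ := by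
    intro r
    unfold mom
    have e1 : ((t + (r : ℂ) • s : Cub) : Ten) = (t : Ten) + (r : ℂ) • (s : Ten) := rfl
    rw [e1, inf_add, inf_smul, herm_add_left, herm_add_right, herm_add_right, herm_smul_left,
      herm_smul_left, herm_smul_right, herm_smul_right, herm_inf ξ (s : Ten) (t : Ten),
      ← herm_conj (inf (ξ : Matrix (Fin 2) (Fin 2) ℂ) t) s, Complex.conj_ofReal]
    simp only [Complex.add_im, Complex.mul_im, Complex.neg_im, Complex.conj_im,
      Complex.ofReal_re, Complex.ofReal_im]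
    ring
  have h2 : (fun r : ℝ => mom (t + (r : ℂ) • s) ξ) = fun r : ℝ => mom t ξ +
      r * (herm (inf (ξ : Matrix (Fin 2) (Fin 2) ℂ) t) s).im + r ^ 2 * mom s ξ := funext h
  rw [h2]
  have h3 := (((hasDerivAt_const (0 : ℝ) (mom t ξ)).add ((hasDerivAt_id (0 : ℝ)).mul_const
    (herm (inf (ξ : Matrix (Fin 2) (Fin 2) ℂ) t) s).im))).add
    (((hasDerivAt_id (0 : ℝ)).pow 2).mul_const (mom s ξ))
  refine h3.congr_deriv ?_
  simp

/-- The moment map is proper. -/
theorem mom_scalar : ∃ ξ : u2, ∀ t : Cub, mom t ξ = 3 / 2 * (herm (t : Ten) t).re := by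
  refine ⟨⟨Complex.I • (1 : Matrix (Fin 2) (Fin 2) ℂ), ?_⟩, fun t => ?_⟩
  · rw [skewAdjoint.mem_iff, star_smul, star_one]
    simp
  · unfold mom
    have h : inf (Complex.I • (1 : Matrix (Fin 2) (Fin 2) ℂ)) (t : Ten) =
        (3 * Complex.I) • (t : Ten) := by
      funext i j k
      simp only [inf, Pi.smul_apply, smul_eq_mul, Fin.sum_univ_two, Matrix.smul_apply]
      fin_cases i <;> fin_cases j <;> fin_cases k <;> simp [Matrix.one_apply] <;> ring
    change 1 / 2 * (herm (inf (Complex.I • (1 : Matrix (Fin 2) (Fin 2) ℂ)) (t : Ten)) t).im = _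
    rw [h, herm_smul_left]
    simp only [Complex.mul_im, Complex.mul_re, Complex.I_re, Complex.I_im]
    norm_num
    ring

end Pool.Agent.N312.KK
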