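import Pool.Agent.N312.KK.Stm

/-! The square of the coboundary of singular cochains is zero. -/

set_option autoImplicit false

namespace Pool.Agent.N312.KK

namespace CCl

/-- the simplicial identity for the vertices -/
theorem succAbove_comp {n : ℕ} (a b : Fin (n + 2)) (h : a ≤ b) (x : Fin (n + 1)) :
    a.castSucc.succAbove (b.succAbove x) = b.succ.succAbove (a.succAbove x) := by
  rw [Fin.le_def] at h
  rw [Fin.ext_iff]
  simp only [Fin.succAbove, Fin.lt_def, Fin.val_castSucc, Fin.val_succ]
  split_ifs <;> simp only [Fin.val_castSucc, Fin.val_succ] at * <;> omega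

variable {X : Type} [TopologicalSpace X]

/-- the simplicial identity for the faces -/
theorem face_face (n : ℕ) (a b : Fin (n + 2)) (h : a ≤ b) (σ : Sing X (n + 2)) :
    face n b (face (n + 1) a.castSucc σ) = face n a (face (n + 1) b.succ σ) := by
  ext x
  change σ (stdSimplex.map _ (stdSimplex.map _ x)) = σ (stdSimplex.map _ (stdSimplex.map _ x))
  rw [stdSimplex.map_comp_apply, stdSimplex.map_comp_apply]
  congr 2
  funext y
  exact succAbove_comp a b h y

end CCl

open CCl in
theorem ccl : CC := by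
  intro R _ X _ n φ
  funext σ
  change ∑ a : Fin (n + 3), (-1 : R) ^ (a : ℕ) *
    (∑ b : Fin (n + 2), (-1 : R) ^ (b : ℕ) * φ (face n b (face (n + 1) a σ))) = 0
  simp only [Finset.mul_sum]
  rw [Finset.sum_comm, ← Finset.sum_product']
  let S : Finset (Fin (n + 2) × Fin (n + 3)) :=
    Finset.univ.filter fun ij => (ij.2 : ℕ) ≤ (ij.1 : ℕ)
  rw [Finset.univ_product_univ, ← Finset.sum_add_sum_compl S, ← eq_neg_iff_add_eq_zero,
    ← Finset.sum_neg_distrib]
  let ψ : ∀ ij : Fin (n + 2) × Fin (n + 3), ij ∈ S → Fin (n + 2) × Fin (n + 3) := fun ij hij =>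
    (Fin.castLT ij.2 (lt_of_le_of_lt (Finset.mem_filter.mp hij).right (Fin.is_lt ij.1)),
      ij.1.succ)
  apply Finset.sum_bij ψ
  · intro ij hij
    simp only [S, ψ, Finset.compl_filter, Finset.mem_filter, Finset.mem_univ, true_and,
      Fin.val_succ, Fin.val_castLT] at hij ⊢
    omega
  · rintro ⟨i, j⟩ hij ⟨i', j'⟩ hij' h
    simp only [ψ, Prod.mk.injEq, Fin.succ_inj] at h
    obtain ⟨h1, rfl⟩ := h
    rw [Fin.ext_iff, Fin.val_castLT, Fin.val_castLT] at h1
    rw [Prod.mk.injEq, Fin.ext_iff, Fin.ext_iff]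
    exact ⟨rfl, h1⟩
  · rintro ⟨i', j'⟩ hij'
    simp only [S, Finset.compl_filter, Finset.mem_filter, Finset.mem_univ, true_and,
      not_le] at hij'
    have hj : j' ≠ 0 := by
      rintro rfl
      simp at hij'
    refine ⟨(j'.pred hj, Fin.castSucc i'), ?_, ?_⟩
    · simp only [S, Finset.mem_filter, Finset.mem_univ, true_and, Fin.val_castSucc, Fin.val_pred]
      omega
    · simp only [ψ, Fin.castLT_castSucc, Fin.succ_pred]
  · rintro ⟨i, j⟩ hij
    simp only [S, Finset.mem_filter, Finset.mem_univ, true_and] at hij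
    have hlt : (j : ℕ) < n + 2 := lt_of_le_of_lt hij i.2
    have hj : j = (j.castLT hlt).castSucc := by
      rw [Fin.ext_iff]
      rfl
    have hface : face n i (face (n + 1) j σ) = face n (j.castLT hlt) (face (n + 1) i.succ σ) := by
      conv_lhs => rw [hj]
      refine face_face n (j.castLT hlt) i ?_ σ
      rw [Fin.le_def]
      exact hij
    simp only [ψ, Fin.val_succ, Fin.val_castLT]
    rw [hface, pow_succ]
    ring

end Pool.Agent.N312.KK
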