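import Pool.Agent.N312.KK.Stm

/-!
# KK/Cen: the matrix `M` is scalar on the level sets of central values

Author: helper488 (project KK of helper312, page MP_c41d74_gt).
-/

set_option autoImplicit false

namespace Pool.Agent.N312.KK

namespace Cen

open Matrix Complex

/-- `M l i` -/
noncomputable def M (t : Ten) (l i : Fin 2) : ℂ := ∑ j, ∑ k, t l j k * (starRingEnd ℂ) (t i j k)

theorem M_conj (t : Ten) (l i : Fin 2) : (starRingEnd ℂ) (M t l i) = M t i l := by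
  simp only [M, Fin.sum_univ_two, map_add, map_mul, Complex.conj_conj]
  ring

theorem mom_eq (t : Cub) (ξ : u2) :
    mom t ξ = (3 / 2) * ((ξ : Matrix (Fin 2) (Fin 2) ℂ) 0 0 * M t 0 0 +
      (ξ : Matrix (Fin 2) (Fin 2) ℂ) 0 1 * M t 1 0 +
      (ξ : Matrix (Fin 2) (Fin 2) ℂ) 1 0 * M t 0 1 +
      (ξ : Matrix (Fin 2) (Fin 2) ℂ) 1 1 * M t 1 1).im := by
  obtain ⟨t, h1, h2⟩ := t
  have e1 : t 0 1 0 = t 0 0 1 := h2 0 1 0
  have e2 : t 1 0 0 = t 0 0 1 := by rw [h1 1 0 0, h2 0 1 0]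
  have e3 : t 1 0 1 = t 0 1 1 := h1 1 0 1
  have e4 : t 1 1 0 = t 0 1 1 := by rw [h2 1 1 0, h1 1 0 1]
  have key : herm (inf (ξ : Matrix (Fin 2) (Fin 2) ℂ) t) t
      = ((3 : ℝ) : ℂ) * ((ξ : Matrix (Fin 2) (Fin 2) ℂ) 0 0 * M t 0 0 +
      (ξ : Matrix (Fin 2) (Fin 2) ℂ) 0 1 * M t 1 0 +
      (ξ : Matrix (Fin 2) (Fin 2) ℂ) 1 0 * M t 0 1 +
      (ξ : Matrix (Fin 2) (Fin 2) ℂ) 1 1 * M t 1 1) := by
    simp only [herm, inf, M, Fin.sum_univ_two, e1, e2, e3, e4]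
    push_cast
    ring
  show (1 / 2) * (herm (inf (ξ : Matrix (Fin 2) (Fin 2) ℂ) t) t).im = _
  rw [key, Complex.im_ofReal_mul]
  ring

/-- elements of the unitary group from self-inverse self-adjoint matrices -/
noncomputable def gU (A : Matrix (Fin 2) (Fin 2) ℂ) (h : A * star A = 1) : U2 :=
  ⟨A, Matrix.mem_unitaryGroup_iff.2 h⟩

theorem central {α : u2dual} (hα : IsCentral α) {t : Cub} (ht : t ∈ level α)
    (A : Matrix (Fin 2) (Fin 2) ℂ) (h : A * star A = 1) (ξ η : u2)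
    (e : (η : Matrix (Fin 2) (Fin 2) ℂ) = A * ξ * star A) : mom t η = mom t ξ := by
  rw [ht η, ht ξ]
  exact hα (gU A h) ξ η e

end Cen

open Cen Matrix Complex

theorem cen : CEN := by
  intro α hα t ht
  have r0 : (M t 0 0).im = 0 := by
    have := M_conj t 0 0
    exact Complex.conj_eq_iff_im.1 this
  have r1 : (M t 1 1).im = 0 := by
    have := M_conj t 1 1
    exact Complex.conj_eq_iff_im.1 this
  have r2 : M t 1 0 = (starRingEnd ℂ) (M t 0 1) := (M_conj t 0 1).symm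
  -- the swap
  have hs : (!![0, 1; 1, 0] : Matrix (Fin 2) (Fin 2) ℂ) * star !![0, 1; 1, 0] = 1 := by
    ext i j
    fin_cases i <;> fin_cases j <;> simp [Matrix.mul_apply, Fin.sum_univ_two, Matrix.star_apply]
  have hd : (!![1, 0; 0, -1] : Matrix (Fin 2) (Fin 2) ℂ) * star !![1, 0; 0, -1] = 1 := by
    ext i j
    fin_cases i <;> fin_cases j <;> simp [Matrix.mul_apply, Fin.sum_univ_two, Matrix.star_apply]
  have a1 : (!![I, 0; 0, 0] : Matrix (Fin 2) (Fin 2) ℂ) ∈ skewAdjoint (Matrix (Fin 2) (Fin 2) ℂ) := by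
    rw [skewAdjoint.mem_iff]
    ext i j
    fin_cases i <;> fin_cases j <;> simp [Matrix.star_apply]
  have a2 : (!![0, 0; 0, I] : Matrix (Fin 2) (Fin 2) ℂ) ∈ skewAdjoint (Matrix (Fin 2) (Fin 2) ℂ) := by
    rw [skewAdjoint.mem_iff]
    ext i j
    fin_cases i <;> fin_cases j <;> simp [Matrix.star_apply]
  have a3 : ∀ w : ℂ, (!![0, w; -(starRingEnd ℂ) w, 0] : Matrix (Fin 2) (Fin 2) ℂ) ∈
      skewAdjoint (Matrix (Fin 2) (Fin 2) ℂ) := by
    intro w
    rw [skewAdjoint.mem_iff]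
    ext i j
    fin_cases i <;> fin_cases j <;> simp [Matrix.star_apply]
  have c1 := central hα ht _ hs ⟨_, a1⟩ ⟨_, a2⟩ (by
    ext i j
    fin_cases i <;> fin_cases j <;> simp [Matrix.mul_apply, Fin.sum_univ_two, Matrix.star_apply])
  have c2 : ∀ w : ℂ, mom t ⟨_, a3 (-w)⟩ = mom t ⟨_, a3 w⟩ := fun w => central hα ht _ hd _ _ (by
    ext i j
    fin_cases i <;> fin_cases j <;> simp [Matrix.mul_apply, Fin.sum_univ_two, Matrix.star_apply])
  rw [mom_eq, mom_eq] at c1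
  simp [r0, r1] at c1
  have c3 := c2 1
  have c4 := c2 I
  rw [mom_eq, mom_eq] at c3 c4
  rw [r2] at c3 c4
  simp at c3 c4
  have e1 : (M t 0 1).re = 0 := by linarith
  have e2 : (M t 0 1).im = 0 := by linarith
  refine ⟨Complex.ext e1 e2, Complex.ext ?_ ?_⟩
  · exact c1.symm
  · exact r0.trans r1.symm

end Pool.Agent.N312.KK
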