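import Pool.Agent.N312.KK.Stm

/-! KK/DIF (helper143): the difference of two lifts is continuous. -/

set_option autoImplicit false

namespace Pool.Agent.N312.KK

open Filter Topology

theorem dif : DIF := by
  classical
  intro G _ _ _ E _ _ hE K _ l m S hl hm hex
  -- the action is free
  have hfree : ∀ (g h : G) (q : E), g • q = h • q → g = h := by
    intro g h q hgh
    obtain ⟨O, -, hq, -, τ, -, hτ⟩ := hE.loc q
    have h1 := hτ g q hq
    have h2 := hτ h q hq
    rw [hgh, h2] at h1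
    exact (mul_right_cancel h1).symm
  obtain ⟨g, hg⟩ : ∃ g : K → G, ∀ x ∈ S, g x • m x = l x := by
    refine ⟨fun x => if h : x ∈ S then (hex x h).choose else 1, fun x hx => ?_⟩
    simp only [dif_pos hx]
    exact (hex x hx).choose_spec
  refine ⟨g, fun x0 hx0 => ?_, hg⟩
  obtain ⟨O, hO, hx0O, hinv, τ, hτc, hτ⟩ := hE.loc (l x0)
  have hm0 : m x0 ∈ O := by
    have h1 := hinv (g x0)⁻¹ (l x0) hx0O
    rwa [← hg x0 hx0, inv_smul_smul] at h1
  have hevm : ∀ᶠ x in 𝓝[S] x0, m x ∈ O := (hm x0 hx0).eventually (hO.mem_nhds hm0)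
  have hcl : ContinuousWithinAt (fun x => τ (l x)) S x0 :=
    (hτc.continuousAt (hO.mem_nhds hx0O)).comp_continuousWithinAt (hl x0 hx0)
  have hcm : ContinuousWithinAt (fun x => τ (m x)) S x0 :=
    (hτc.continuousAt (hO.mem_nhds hm0)).comp_continuousWithinAt (hm x0 hx0)
  have hc : ContinuousWithinAt (fun x => τ (l x) * (τ (m x))⁻¹) S x0 := hcl.mul hcm.inv
  have key : ∀ x, x ∈ S → m x ∈ O → g x = τ (l x) * (τ (m x))⁻¹ := by
    intro x hx hmx
    rw [← hg x hx, hτ (g x) (m x) hmx, mul_inv_cancel_right]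
  refine hc.congr_of_eventuallyEq ?_ (key x0 hx0 hm0)
  filter_upwards [hevm, self_mem_nhdsWithin] with x h1 h2
  exact key x h2 h1

end Pool.Agent.N312.KK
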