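import Pool.Agent.N312.KK.Defs

/-! Statements of the leaves for MP_c41d74_gt. -/

set_option autoImplicit false

namespace Pool.Agent.N312.KK

noncomputable section

/-- A principal (locally trivial) `G`-space. -/
structure IsPrin (G : Type) [Group G] [TopologicalSpace G] (E : Type) [TopologicalSpace E]
    [MulAction G E] : Prop where
  cont : Continuous fun x : G × E => x.1 • x.2
  loc : ∀ p : E, ∃ O : Set E, IsOpen O ∧ p ∈ O ∧ (∀ g : G, ∀ q ∈ O, g • q ∈ O) ∧
    ∃ τ : E → G, ContinuousOn τ O ∧ ∀ g : G, ∀ q ∈ O, τ (g • q) = g * τ q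

/-- `π : E → X` is the orbit map of the action of `G` on `E`. -/
structure IsOrb (G : Type) [Group G] {E X : Type} [TopologicalSpace E] [TopologicalSpace X]
    [MulAction G E] (π : E → X) : Prop where
  quot : IsOpenQuotientMap π
  fib : ∀ x y : E, π x = π y ↔ ∃ g : G, g • x = y

/-- Every simplex of `X` lifts to `E`. -/
def Lifts {E X : Type} [TopologicalSpace E] [TopologicalSpace X] (π : E → X) : Prop :=
  ∀ (n : ℕ) (σ : Sing X n), ∃ l : Sing E n, ∀ s, π (l s) = σ s

/-! #### Lifting -/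

/-- DIF: the difference of two lifts is continuous. -/
def DIF : Prop := ∀ (G : Type) [Group G] [TopologicalSpace G] [IsTopologicalGroup G]
  (E : Type) [TopologicalSpace E] [MulAction G E], IsPrin G E →
  ∀ (K : Type) [TopologicalSpace K] (l m : K → E) (S : Set K), ContinuousOn l S →
  ContinuousOn m S → (∀ x ∈ S, ∃ g : G, g • m x = l x) →
  ∃ g : K → G, ContinuousOn g S ∧ ∀ x ∈ S, g x • m x = l x

/-- `f` lifts over the box `[a, b]`. -/
def LiftBox {E X : Type} [TopologicalSpace E] {m : ℕ} (π : E → X) (f : (Fin m → ℝ) → X)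
    (a b : Fin m → ℝ) : Prop :=
  ∃ l : (Fin m → ℝ) → E, ContinuousOn l (Set.Icc a b) ∧ ∀ x ∈ Set.Icc a b, π (l x) = f x

/-- MRG: lifts over the two halves of a box give a lift over the box. -/
def MRG : Prop := ∀ (G : Type) [Group G] [TopologicalSpace G] [IsTopologicalGroup G]
  (E X : Type) [TopologicalSpace E] [TopologicalSpace X] [MulAction G E] (π : E → X),
  IsPrin G E → IsOrb G π → ∀ (m : ℕ) (f : (Fin m → ℝ) → X) (a b : Fin m → ℝ) (i : Fin m) (c : ℝ),
  a ≤ b → a i ≤ c → c ≤ b i → LiftBox π f a (Function.update b i c) →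
  LiftBox π f (Function.update a i c) b → LiftBox π f a b

/-- GRD: from small boxes to the unit cube. -/
def GRD : Prop := ∀ (m : ℕ) (p : (Fin m → ℝ) → (Fin m → ℝ) → Prop) (δ : ℝ), 0 < δ →
  (∀ a b : Fin m → ℝ, 0 ≤ a → b ≤ 1 → a ≤ b → (∀ i, b i - a i ≤ δ) → p a b) →
  (∀ (a b : Fin m → ℝ) (i : Fin m) (c : ℝ), a ≤ b → a i ≤ c → c ≤ b i →
    p a (Function.update b i c) → p (Function.update a i c) b → p a b) →
  p 0 1

/-- LOC: continuous maps lift over small boxes of the unit cube. -/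
def LOC : Prop := ∀ (G : Type) [Group G] [TopologicalSpace G] [IsTopologicalGroup G]
  (E X : Type) [TopologicalSpace E] [TopologicalSpace X] [MulAction G E] (π : E → X),
  IsPrin G E → IsOrb G π → ∀ (m : ℕ) (f : (Fin m → ℝ) → X), Continuous f →
  ∃ δ : ℝ, 0 < δ ∧ ∀ a b : Fin m → ℝ, 0 ≤ a → b ≤ 1 → a ≤ b → (∀ i, b i - a i ≤ δ) →
    LiftBox π f a b

/-- RET: the simplex is a retract of the ambient space. -/
def RET : Prop := ∀ n : ℕ, ∃ r : C(Fin (n + 1) → ℝ, stdSimplex ℝ (Fin (n + 1))),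
  ∀ s : stdSimplex ℝ (Fin (n + 1)), r (s : Fin (n + 1) → ℝ) = s

/-- LFT: simplices of the orbit space of a principal space lift. -/
def LFT : Prop := ∀ (G : Type) [Group G] [TopologicalSpace G] [IsTopologicalGroup G]
  (E X : Type) [TopologicalSpace E] [TopologicalSpace X] [MulAction G E] (π : E → X),
  IsPrin G E → IsOrb G π → Lifts π

/-! #### Cochains -/

/-- CC: the square of the coboundary is zero. -/
def CC : Prop := ∀ (R : Type) [Field R] (X : Type) [TopologicalSpace X] (n : ℕ)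
  (φ : Sing X n → R), cob R X (n + 1) (cob R X n φ) = 0

/-- The `i`-th vertex of the standard simplex. -/
def vtx (n : ℕ) (i : Fin (n + 1)) : stdSimplex ℝ (Fin (n + 1)) :=
  ⟨Pi.single i 1, single_mem_stdSimplex ℝ i⟩

/-- `x ↦ exp(2πix)`. -/
def cexp : C(ℝ, Circle) := ⟨fun x => Circle.exp (2 * Real.pi * x), by fun_prop⟩

/-- `vr` is the variation of the angle (in turns) of paths in the circle. -/
structure IsVar (vr : Sing Circle 1 → ℝ) : Prop where
  eq : ∀ θ : Sing ℝ 1, vr (cexp.comp θ) = θ (vtx 1 1) - θ (vtx 1 0)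
  mul : ∀ h k : Sing Circle 1, vr (h * k) = vr h + vr k
  cob : cob ℝ Circle 1 vr = 0

/-- VAR: the variation of the angle exists. -/
def VAR : Prop := ∃ vr : Sing Circle 1 → ℝ, IsVar vr

/-- The transgression of `χ : G → Circle`: a cochain `b` on `E` and a cocycle `c` on `X`. -/
structure IsTrg (G : Type) [Group G] [TopologicalSpace G] {E X : Type} [TopologicalSpace E]
    [TopologicalSpace X] [MulAction G E] (π : C(E, X)) (χ : C(G, Circle))
    (vr : Sing Circle 1 → ℝ) (b : Sing E 1 → ℝ) (c : Sing X 2 → ℝ) : Prop where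
  coc : cob ℝ X 2 c = 0
  lft : ∀ σ : Sing E 2, c (π.comp σ) = cob ℝ E 1 b σ
  mul : ∀ (g : Sing G 1) (x y : Sing E 1), (∀ s, y s = g s • x s) →
    b y = vr (χ.comp g) + b x

/-- WND: the transgression exists. -/
def WND : Prop := ∀ (G : Type) [Group G] [TopologicalSpace G] [IsTopologicalGroup G]
  (E X : Type) [TopologicalSpace E] [TopologicalSpace X] [MulAction G E] (π : C(E, X))
  (χ : C(G, Circle)) (vr : Sing Circle 1 → ℝ), IsPrin G E → IsOrb G π → Lifts π →
  (∀ g h : G, χ (g * h) = χ g * χ h) → IsVar vr → ∃ b c, IsTrg G π χ vr b c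

/-- TRV: an equivariant map to the circle makes a multiple of the transgression a coboundary. -/
def TRV : Prop := ∀ (G : Type) [Group G] [TopologicalSpace G] [IsTopologicalGroup G]
  (E X : Type) [TopologicalSpace E] [TopologicalSpace X] [MulAction G E] (π : C(E, X))
  (χ : C(G, Circle)) (vr : Sing Circle 1 → ℝ) (b : Sing E 1 → ℝ) (c : Sing X 2 → ℝ),
  IsPrin G E → IsVar vr → IsTrg G π χ vr b c →
  ∀ (E' X' : Type) [TopologicalSpace E'] [TopologicalSpace X'] (π' : C(E', X')) (jE : C(E', E))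
    (jX : C(X', X)) (d : C(E', Circle)) (k : ℕ), Lifts π' → (∀ e, π (jE e) = jX (π' e)) →
  (∀ e e' : E', π' e = π' e' → ∃ g : G, g • jE e = jE e') →
  (∀ (g : G) (e e' : E'), g • jE e = jE e' → d e' = χ g ^ k * d e) →
  ∃ ψ : Sing X' 1 → ℝ, ∀ σ : Sing X' 2, (k : ℝ) * c (jX.comp σ) = cob ℝ X' 1 ψ σ

/-! #### Binary cubics -/

/-- The discriminant. -/
def disc (t : Ten) : ℂ :=
  (t 0 0 0 * t 1 1 1 - t 0 0 1 * t 0 1 1) ^ 2 -
    4 * (t 0 0 0 * t 0 1 1 - t 0 0 1 ^ 2) * (t 0 0 1 * t 1 1 1 - t 0 1 1 ^ 2)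

/-- EQV -/
def EQV : Prop := ∀ (g : Matrix (Fin 2) (Fin 2) ℂ) (t : Cub), disc (act g t) = g.det ^ 6 * disc t

/-- STB: a point with infinite stabiliser is killed by a non-zero element of the Lie algebra. -/
def STB : Prop := ∀ t : Cub, t ∉ freeLocus → ∃ ξ : u2, ξ ≠ 0 ∧
  inf (ξ : Matrix (Fin 2) (Fin 2) ℂ) t = 0

/-- PEN: the non-zero elements of a pencil are in the locally free locus. -/
def PEN : Prop := ∀ t : Cub, (t : Ten) 1 1 1 = 0 → (t : Ten) 0 0 0 + 3 * (t : Ten) 0 0 1 +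
  3 * (t : Ten) 0 1 1 = 0 → t ≠ 0 → ∀ ξ : u2, inf (ξ : Matrix (Fin 2) (Fin 2) ℂ) t = 0 → ξ = 0

/-- NVD: the discriminant does not vanish on level sets of central regular values. -/
def NVD : Prop := ∀ α : u2dual, IsCentral α → IsRegular α → ∀ t ∈ level α, disc t ≠ 0

/-- CEN: on the level sets of central values the Hermitian matrix
`M_{il} = ∑ t_{ijk} conj(t_{ljk})` is scalar. -/
def CEN : Prop := ∀ α : u2dual, IsCentral α → ∀ t ∈ level α,
  (∑ j, ∑ k, (t : Ten) 0 j k * (starRingEnd ℂ) ((t : Ten) 1 j k)) = 0 ∧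
  (∑ j, ∑ k, (t : Ten) 0 j k * (starRingEnd ℂ) ((t : Ten) 0 j k)) =
    ∑ j, ∑ k, (t : Ten) 1 j k * (starRingEnd ℂ) ((t : Ten) 1 j k)

/-- NUL: discriminant zero and scalar matrix `M` force `t = 0`. -/
def NUL : Prop := ∀ t : Cub, disc t = 0 →
  (∑ j, ∑ k, (t : Ten) 0 j k * (starRingEnd ℂ) ((t : Ten) 1 j k)) = 0 →
  (∑ j, ∑ k, (t : Ten) 0 j k * (starRingEnd ℂ) ((t : Ten) 0 j k)) =
    (∑ j, ∑ k, (t : Ten) 1 j k * (starRingEnd ℂ) ((t : Ten) 1 j k)) → t = 0

/-- REG: there is a central regular value with a non-empty level set. -/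
def REG : Prop := ∃ α : u2dual, IsCentral α ∧ IsRegular α ∧ (level α).Nonempty

/-- INV: level sets of central values are invariant. -/
def INV : Prop := ∀ α : u2dual, IsCentral α → ∀ (g : U2), ∀ t ∈ level α, g • t ∈ level α

/-! #### Universal spaces -/

/-- PRE: `P × A` is a principal space over the Borel construction `P ×_G A`. -/
def PRE : Prop := ∀ (P : Type) [TopologicalSpace P] [MulAction U2 P], IsUniversal U2 P →
  ∀ A : Set Cub, (∀ (g : U2), ∀ t ∈ A, g • t ∈ A) →
  ∃ (_ : MulAction U2 {x : P × Cub // x.2 ∈ A}),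
    (∀ (g : U2) (x : {x : P × Cub // x.2 ∈ A}), (g • x).1 = g • x.1) ∧
    IsPrin U2 {x : P × Cub // x.2 ∈ A} ∧ IsOrb U2 (Borel.mk U2 P A)

/-- EU: there is a universal `U(2)`-space. -/
def EU : Prop := ∃ (P : Type) (_ : TopologicalSpace P) (_ : MulAction U2 P), IsUniversal U2 P

/-- The determinant of a unitary matrix. -/
def udet : C(U2, Circle) where
  toFun g := ⟨(g : Matrix (Fin 2) (Fin 2) ℂ).det, by
    rw [Submonoid.unitSphere, ← SetLike.mem_coe]
    change _ ∈ Metric.sphere (0 : ℂ) 1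
    rw [mem_sphere_zero_iff_norm]
    have h := (Matrix.mem_unitaryGroup_iff (A := (g : Matrix (Fin 2) (Fin 2) ℂ))).1 g.2
    have h2 := congrArg Matrix.det h
    rw [Matrix.det_mul, Matrix.star_eq_conjTranspose, Matrix.det_conjTranspose,
      Matrix.det_one] at h2
    have h3 : ‖(g : Matrix (Fin 2) (Fin 2) ℂ).det‖ ^ 2 = 1 := by
      have h4 := congrArg norm h2
      rw [norm_mul, norm_star, norm_one] at h4
      rw [sq]; exact h4
    nlinarith [norm_nonneg (g : Matrix (Fin 2) (Fin 2) ℂ).det]⟩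
  continuous_toFun := by
    refine Continuous.subtype_mk ?_ _
    exact Continuous.matrix_det continuous_subtype_val

/-- SPX: an explicit singular simplex of `P × U`: two equal faces, the third is the orbit of a
point under a loop in `U(2)` whose determinant turns twice. -/
def SPX : Prop := ∀ (P : Type) [TopologicalSpace P] [MulAction U2 P], IsUniversal U2 P →
  ∀ vr : Sing Circle 1 → ℝ, IsVar vr →
  ∃ (σ : Sing {x : P × Cub // x.2 ∈ freeLocus} 2) (e : {x : P × Cub // x.2 ∈ freeLocus})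
    (z : Sing U2 1), face 1 1 σ = face 1 2 σ ∧ (∀ s, (face 1 0 σ s).1.1 = z s • e.1.1) ∧
    (∀ s, (face 1 0 σ s).1.2 = z s • e.1.2) ∧ vr (udet.comp z) = 2

end

end Pool.Agent.N312.KK
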