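import Mathlib
import Pool.Agent.N312.KK.Stm

set_option autoImplicit false

/-!
# The discriminant of a binary cubic form is a relative invariant (project KK, leaf Eqv)
-/

namespace Pool.Agent.N312.KK

namespace Eqv

theorem disc_ring (a b c d p q r s P Q R S : ℂ)
    (hP : P = a ^ 3 * p + 3 * a ^ 2 * b * q + 3 * a * b ^ 2 * r + b ^ 3 * s)
    (hQ : Q = a ^ 2 * c * p + (2 * a * b * c + a ^ 2 * d) * q + (b ^ 2 * c + 2 * a * b * d) * r +
      b ^ 2 * d * s)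
    (hR : R = a * c ^ 2 * p + (2 * a * c * d + b * c ^ 2) * q + (2 * b * c * d + a * d ^ 2) * r +
      b * d ^ 2 * s)
    (hS : S = c ^ 3 * p + 3 * c ^ 2 * d * q + 3 * c * d ^ 2 * r + d ^ 3 * s) :
    (P * S - Q * R) ^ 2 - 4 * (P * R - Q ^ 2) * (Q * S - R ^ 2) =
      (a * d - b * c) ^ 6 * ((p * s - q * r) ^ 2 - 4 * (p * r - q ^ 2) * (q * s - r ^ 2)) := by
  have e0 : P * R - Q ^ 2 = (a * d - b * c) ^ 2 *
      (a ^ 2 * (p * r - q ^ 2) + a * b * (p * s - q * r) + b ^ 2 * (q * s - r ^ 2)) := by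
    rw [hP, hQ, hR]; ring
  have e1 : P * S - Q * R = (a * d - b * c) ^ 2 *
      (2 * a * c * (p * r - q ^ 2) + (a * d + b * c) * (p * s - q * r) +
        2 * b * d * (q * s - r ^ 2)) := by
    rw [hP, hQ, hR, hS]; ring
  have e2 : Q * S - R ^ 2 = (a * d - b * c) ^ 2 *
      (c ^ 2 * (p * r - q ^ 2) + c * d * (p * s - q * r) + d ^ 2 * (q * s - r ^ 2)) := by
    rw [hQ, hR, hS]; ring
  rw [e0, e1, e2]
  generalize p * r - q ^ 2 = H0
  generalize p * s - q * r = H1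
  generalize q * s - r ^ 2 = H2
  ring

end Eqv

theorem eqv : EQV := by
  intro g t
  obtain ⟨h1, h2⟩ := t.2
  have e1 : (t : Ten) 0 1 0 = (t : Ten) 0 0 1 := h2 0 1 0
  have e2 : (t : Ten) 1 0 0 = (t : Ten) 0 0 1 := (h1 1 0 0).trans e1
  have e3 : (t : Ten) 1 0 1 = (t : Ten) 0 1 1 := h1 1 0 1
  have e4 : (t : Ten) 1 1 0 = (t : Ten) 0 1 1 := (h2 1 1 0).trans e3
  unfold disc
  rw [Matrix.det_fin_two]
  apply Eqv.disc_ring
  · simp only [act, Fin.sum_univ_two, e1, e2, e3, e4]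
    ring
  · simp only [act, Fin.sum_univ_two, e1, e2, e3, e4]
    ring
  · simp only [act, Fin.sum_univ_two, e1, e2, e3, e4]
    ring
  · simp only [act, Fin.sum_univ_two, e1, e2, e3, e4]
    ring

end Pool.Agent.N312.KK
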