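import Pool.Agent.N312.KK.Stm

/-! EU: there is a universal `U(2)`-space (helper80). The model: pairs of linearly independent
sequences of complex numbers, with the product topology. -/

set_option autoImplicit false

namespace Pool.Agent.N312.KK

namespace Euu

noncomputable section

open Complex ComplexConjugate

/-- Linear independence of two sequences. -/
def Ind (v : Fin 2 → ℕ → ℂ) : Prop :=
  ∀ c₀ c₁ : ℂ, (∀ n, c₀ * v 0 n + c₁ * v 1 n = 0) → c₀ = 0 ∧ c₁ = 0

/-- Pairs of linearly independent sequences. -/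
def PP : Type := {v : Fin 2 → ℕ → ℂ // Ind v}

instance : TopologicalSpace PP := instTopologicalSpaceSubtype

theorem minor {v : Fin 2 → ℕ → ℂ} (h : Ind v) :
    ∃ m n, v 0 m * v 1 n - v 0 n * v 1 m ≠ 0 := by
  by_contra hc
  push Not at hc
  have h0 : ∀ m, v 0 m = 0 := by
    intro m
    have := (h (v 1 m) (-v 0 m) fun n => by
      linear_combination -hc m n).2
    exact neg_eq_zero.1 this
  have := (h 1 0 fun n => by rw [h0 n]; ring).1
  exact one_ne_zero this

/-- The identities of a unitary matrix. -/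
theorem uni (g : U2) :
    (g : Matrix (Fin 2) (Fin 2) ℂ) 0 0 = (g : Matrix (Fin 2) (Fin 2) ℂ).det * conj ((g : Matrix (Fin 2) (Fin 2) ℂ) 1 1) ∧
    - (g : Matrix (Fin 2) (Fin 2) ℂ) 0 1 = (g : Matrix (Fin 2) (Fin 2) ℂ).det * conj ((g : Matrix (Fin 2) (Fin 2) ℂ) 1 0) ∧
    - (g : Matrix (Fin 2) (Fin 2) ℂ) 1 0 = (g : Matrix (Fin 2) (Fin 2) ℂ).det * conj ((g : Matrix (Fin 2) (Fin 2) ℂ) 0 1) ∧
    (g : Matrix (Fin 2) (Fin 2) ℂ) 1 1 = (g : Matrix (Fin 2) (Fin 2) ℂ).det * conj ((g : Matrix (Fin 2) (Fin 2) ℂ) 0 0) := by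
  obtain ⟨G, hG⟩ := g
  have h1 : star G * G = 1 := Matrix.mem_unitaryGroup_iff'.1 hG
  have h2 : G.adjugate = G.det • star G := by
    calc G.adjugate = (star G * G) * G.adjugate := by rw [h1, one_mul]
      _ = G.det • star G := by
        rw [mul_assoc, Matrix.mul_adjugate, mul_smul_comm, mul_one]
  rw [Matrix.adjugate_fin_two] at h2
  have e : ∀ i j, !![G 1 1, -G 0 1; -G 1 0, G 0 0] i j = (G.det • star G) i j := by
    intro i j
    rw [h2]
  simp only [Matrix.smul_apply, Matrix.star_apply, smul_eq_mul] at e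
  have e00 := e 0 0
  have e01 := e 0 1
  have e10 := e 1 0
  have e11 := e 1 1
  simp only [Matrix.of_apply, Matrix.cons_val', Matrix.cons_val_zero, Matrix.cons_val_one,
    Matrix.cons_val_fin_one] at e00 e01 e10 e11
  exact ⟨e11, e01, e10, e00⟩

theorem det_conj (g : U2) : (g : Matrix (Fin 2) (Fin 2) ℂ).det *
    conj ((g : Matrix (Fin 2) (Fin 2) ℂ).det) = 1 := by
  obtain ⟨G, hG⟩ := g
  have h1 : G * star G = 1 := Matrix.mem_unitaryGroup_iff.1 hG
  have h2 := congrArg Matrix.det h1
  rw [Matrix.det_mul, Matrix.star_eq_conjTranspose, Matrix.det_conjTranspose, Matrix.det_one] at h2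
  exact h2

theorem det_ne (g : U2) : (g : Matrix (Fin 2) (Fin 2) ℂ).det ≠ 0 := by
  intro h
  have := det_conj g
  rw [h, zero_mul] at this
  exact zero_ne_one this

theorem ind_smul (g : U2) {v : Fin 2 → ℕ → ℂ} (h : Ind v) :
    Ind fun i n => ∑ j, (g : Matrix (Fin 2) (Fin 2) ℂ) i j * v j n := by
  intro c₀ c₁ hc
  simp only [Fin.sum_univ_two] at hc
  obtain ⟨h1, h2⟩ := h (c₀ * (g : Matrix (Fin 2) (Fin 2) ℂ) 0 0 + c₁ * (g : Matrix (Fin 2) (Fin 2) ℂ) 1 0)
    (c₀ * (g : Matrix (Fin 2) (Fin 2) ℂ) 0 1 + c₁ * (g : Matrix (Fin 2) (Fin 2) ℂ) 1 1)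
    (fun n => by linear_combination hc n)
  have hd := det_ne g
  have hdet := Matrix.det_fin_two (g : Matrix (Fin 2) (Fin 2) ℂ)
  constructor
  · have : c₀ * (g : Matrix (Fin 2) (Fin 2) ℂ).det = 0 := by
      rw [hdet]
      linear_combination (g : Matrix (Fin 2) (Fin 2) ℂ) 1 1 * h1 -
        (g : Matrix (Fin 2) (Fin 2) ℂ) 1 0 * h2
    exact (mul_eq_zero.1 this).resolve_right hd
  · have : c₁ * (g : Matrix (Fin 2) (Fin 2) ℂ).det = 0 := by
      rw [hdet]
      linear_combination (g : Matrix (Fin 2) (Fin 2) ℂ) 0 0 * h2 -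
        (g : Matrix (Fin 2) (Fin 2) ℂ) 0 1 * h1
    exact (mul_eq_zero.1 this).resolve_right hd

instance : MulAction U2 PP where
  smul g v := ⟨fun i n => ∑ j, (g : Matrix (Fin 2) (Fin 2) ℂ) i j * v.1 j n, ind_smul g v.2⟩
  one_smul v := by
    apply Subtype.ext
    funext i n
    change ∑ j, ((1 : U2) : Matrix (Fin 2) (Fin 2) ℂ) i j * v.1 j n = v.1 i n
    simp [Matrix.one_apply]
  mul_smul g h v := by
    apply Subtype.ext
    funext i n
    change ∑ j, ((g * h : U2) : Matrix (Fin 2) (Fin 2) ℂ) i j * v.1 j n =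
      ∑ j, (g : Matrix (Fin 2) (Fin 2) ℂ) i j * ∑ l, (h : Matrix (Fin 2) (Fin 2) ℂ) j l * v.1 l n
    simp only [Submonoid.coe_mul, Matrix.mul_apply, Fin.sum_univ_two]
    ring

theorem smul_val (g : U2) (v : PP) (i : Fin 2) (n : ℕ) :
    (g • v).1 i n = ∑ j, (g : Matrix (Fin 2) (Fin 2) ℂ) i j * v.1 j n := rfl

theorem cont_coord (i : Fin 2) (n : ℕ) : Continuous fun v : PP => v.1 i n :=
  (continuous_apply n).comp ((continuous_apply i).comp continuous_subtype_val)

theorem cont_action : Continuous fun x : U2 × PP => x.1 • x.2 := by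
  refine Continuous.subtype_mk ?_ _
  refine continuous_pi fun i => continuous_pi fun n => ?_
  refine continuous_finsetSum _ fun j _ => ?_
  refine Continuous.mul ?_ ?_
  · exact (continuous_apply j).comp ((continuous_apply i).comp
      (continuous_subtype_val.comp continuous_fst))
  · exact (cont_coord j n).comp continuous_snd

/-! ### Contractibility -/

/-- The double shift. -/
def sh (x : ℕ → ℂ) (n : ℕ) : ℂ := if n < 2 then 0 else x (n - 2)

theorem sh_add_two (x : ℕ → ℂ) (n : ℕ) : sh x (n + 2) = x n := by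
  rw [sh, if_neg (by omega), Nat.add_sub_cancel]

theorem sh_zero (x : ℕ → ℂ) : sh x 0 = 0 := by rw [sh, if_pos (by omega)]

theorem sh_one (x : ℕ → ℂ) : sh x 1 = 0 := by rw [sh, if_pos (by omega)]

theorem ind_one (t : ℝ) {v : Fin 2 → ℕ → ℂ} (h : Ind v) :
    Ind fun i n => (1 - (t : ℂ)) * v i n + (t : ℂ) * sh (v i) n := by
  intro c₀ c₁ hc
  apply h
  simp only at hc
  by_cases ht : (1 - (t : ℂ)) = 0
  · intro n
    have h1 := hc (n + 2)
    rw [sh_add_two, sh_add_two] at h1
    have h2 : (t : ℂ) = 1 := by linear_combination -ht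
    rw [h2] at h1
    linear_combination h1
  · have h2 : ∀ n, (c₀ * v 0 n + c₁ * v 1 n = 0) ∧ (c₀ * v 0 (n + 1) + c₁ * v 1 (n + 1) = 0) := by
      intro n
      induction n with
      | zero =>
        have h3 := hc 0
        have h4 := hc 1
        rw [sh_zero, sh_zero] at h3
        rw [sh_one, sh_one] at h4
        constructor
        · refine (mul_eq_zero.1 (?_ : (1 - (t : ℂ)) * _ = 0)).resolve_left ht
          linear_combination h3
        · refine (mul_eq_zero.1 (?_ : (1 - (t : ℂ)) * _ = 0)).resolve_left ht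
          linear_combination h4
      | succ n ih =>
        refine ⟨ih.2, ?_⟩
        have h3 := hc (n + 2)
        rw [sh_add_two, sh_add_two] at h3
        refine (mul_eq_zero.1 (?_ : (1 - (t : ℂ)) * _ = 0)).resolve_left ht
        linear_combination h3 - (t : ℂ) * ih.1
    exact fun n => (h2 n).1

theorem ind_two (t : ℝ) {v : Fin 2 → ℕ → ℂ} (h : Ind v) :
    Ind fun i n => (1 - (t : ℂ)) * sh (v i) n + (t : ℂ) * (if n = (i : ℕ) then 1 else 0) := by
  intro c₀ c₁ hc
  simp only at hc
  by_cases ht : (t : ℂ) = 0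
  · apply h
    intro n
    have h1 := hc (n + 2)
    rw [sh_add_two, sh_add_two, ht] at h1
    linear_combination h1
  · have h0 := hc 0
    have h1 := hc 1
    rw [sh_zero, sh_zero] at h0
    rw [sh_one, sh_one] at h1
    constructor
    · refine (mul_eq_zero.1 (?_ : (t : ℂ) * _ = 0)).resolve_left ht
      simp only [Fin.val_zero, Fin.val_one, if_true] at h0
      rw [if_neg (by omega)] at h0
      linear_combination h0
    · refine (mul_eq_zero.1 (?_ : (t : ℂ) * _ = 0)).resolve_left ht
      simp only [Fin.val_zero, Fin.val_one, if_true] at h1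
      rw [if_neg (by omega)] at h1
      linear_combination h1

/-- The first homotopy. -/
def H1 : C(unitInterval × PP, PP) where
  toFun x := ⟨fun i n => (1 - ((x.1 : ℝ) : ℂ)) * x.2.1 i n + ((x.1 : ℝ) : ℂ) * sh (x.2.1 i) n,
    ind_one _ x.2.2⟩
  continuous_toFun := by
    refine Continuous.subtype_mk ?_ _
    refine continuous_pi fun i => continuous_pi fun n => ?_
    have ht : Continuous fun x : unitInterval × PP => ((x.1 : ℝ) : ℂ) :=
      continuous_ofReal.comp (continuous_subtype_val.comp continuous_fst)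
    refine Continuous.add (Continuous.mul (continuous_const.sub ht)
      ((cont_coord i n).comp continuous_snd)) (Continuous.mul ht ?_)
    unfold sh
    split_ifs
    · exact continuous_const
    · exact (cont_coord i (n - 2)).comp continuous_snd

/-- The second homotopy. -/
def H2 : C(unitInterval × PP, PP) where
  toFun x := ⟨fun i n => (1 - ((x.1 : ℝ) : ℂ)) * sh (x.2.1 i) n +
    ((x.1 : ℝ) : ℂ) * (if n = (i : ℕ) then 1 else 0), ind_two _ x.2.2⟩
  continuous_toFun := by
    refine Continuous.subtype_mk ?_ _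
    refine continuous_pi fun i => continuous_pi fun n => ?_
    have ht : Continuous fun x : unitInterval × PP => ((x.1 : ℝ) : ℂ) :=
      continuous_ofReal.comp (continuous_subtype_val.comp continuous_fst)
    refine Continuous.add (Continuous.mul (continuous_const.sub ht) ?_)
      (Continuous.mul ht continuous_const)
    unfold sh
    split_ifs
    · exact continuous_const
    · exact (cont_coord i (n - 2)).comp continuous_snd

/-- A point. -/
def base : PP := ⟨fun i n => if n = (i : ℕ) then 1 else 0, by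
  intro c₀ c₁ hc
  have h0 := hc 0
  have h1 := hc 1
  simp only [Fin.val_zero, Fin.val_one, if_true] at h0 h1
  rw [if_neg (by omega)] at h0 h1
  exact ⟨by linear_combination h0, by linear_combination h1⟩⟩

theorem contr : ContractibleSpace PP := by
  rw [contractible_iff_id_nullhomotopic]
  refine ⟨base, ?_⟩
  let mid : C(PP, PP) := ⟨fun v => H1 (1, v), H1.continuous.comp (Continuous.prodMk_right _)⟩
  refine ContinuousMap.Homotopic.trans (g := mid) ⟨?_⟩ ⟨?_⟩
  · refine ⟨H1, ?_, ?_⟩
    · intro v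
      apply Subtype.ext
      funext i n
      change (1 - (((0 : unitInterval) : ℝ) : ℂ)) * v.1 i n +
        (((0 : unitInterval) : ℝ) : ℂ) * sh (v.1 i) n = v.1 i n
      simp
    · intro v
      rfl
  · refine ⟨H2, ?_, ?_⟩
    · intro v
      apply Subtype.ext
      funext i n
      change (1 - (((0 : unitInterval) : ℝ) : ℂ)) * sh (v.1 i) n +
        (((0 : unitInterval) : ℝ) : ℂ) * (if n = (i : ℕ) then 1 else 0) =
        (1 - (((1 : unitInterval) : ℝ) : ℂ)) * v.1 i n + (((1 : unitInterval) : ℝ) : ℂ) * sh (v.1 i) n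
      simp
    · intro v
      apply Subtype.ext
      funext i n
      change (1 - (((1 : unitInterval) : ℝ) : ℂ)) * sh (v.1 i) n +
        (((1 : unitInterval) : ℝ) : ℂ) * (if n = (i : ℕ) then 1 else 0) =
        (if n = (i : ℕ) then 1 else 0)
      simp

/-! ### Local triviality -/

/-- The minor. -/
def D (m n : ℕ) (v : PP) : ℂ := v.1 0 m * v.1 1 n - v.1 0 n * v.1 1 m

theorem D_cont (m n : ℕ) : Continuous (D m n) :=
  ((cont_coord 0 m).mul (cont_coord 1 n)).sub ((cont_coord 0 n).mul (cont_coord 1 m))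

theorem D_smul (m n : ℕ) (g : U2) (v : PP) :
    D m n (g • v) = (g : Matrix (Fin 2) (Fin 2) ℂ).det * D m n v := by
  simp only [D, smul_val, Fin.sum_univ_two, Matrix.det_fin_two]
  ring

/-- The norm of the `m`-th column. -/
def nr (m : ℕ) (v : PP) : ℝ := Real.sqrt (normSq (v.1 0 m) + normSq (v.1 1 m))

theorem nr_cont (m : ℕ) : Continuous (nr m) :=
  Real.continuous_sqrt.comp ((continuous_normSq.comp (cont_coord 0 m)).add
    (continuous_normSq.comp (cont_coord 1 m)))

theorem nr_sq (m : ℕ) (v : PP) : ((nr m v : ℝ) : ℂ) ^ 2 =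
    v.1 0 m * conj (v.1 0 m) + v.1 1 m * conj (v.1 1 m) := by
  rw [Complex.mul_conj, Complex.mul_conj, ← Complex.ofReal_pow, nr, Real.sq_sqrt
    (add_nonneg (normSq_nonneg _) (normSq_nonneg _)), Complex.ofReal_add]

theorem nr_smul (m : ℕ) (g : U2) (v : PP) : nr m (g • v) = nr m v := by
  unfold nr
  congr 1
  apply Complex.ofReal_injective
  rw [Complex.ofReal_add, Complex.ofReal_add, ← Complex.mul_conj, ← Complex.mul_conj,
    ← Complex.mul_conj, ← Complex.mul_conj]
  simp only [smul_val, Fin.sum_univ_two]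
  simp only [map_add, map_mul]
  obtain ⟨G, hG⟩ := g
  have h1 : star G * G = 1 := Matrix.mem_unitaryGroup_iff'.1 hG
  have e : ∀ i j, (star G * G) i j = (1 : Matrix (Fin 2) (Fin 2) ℂ) i j := by
    intro i j
    rw [h1]
  simp only [Matrix.mul_apply, Fin.sum_univ_two, Matrix.star_apply] at e
  have e00 := e 0 0
  have e01 := e 0 1
  have e10 := e 1 0
  have e11 := e 1 1
  rw [Matrix.one_apply_eq] at e00 e11
  rw [Matrix.one_apply_ne (by decide)] at e01 e10
  change conj (G 0 0) * G 0 0 + conj (G 1 0) * G 1 0 = 1 at e00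
  change conj (G 0 0) * G 0 1 + conj (G 1 0) * G 1 1 = 0 at e01
  change conj (G 0 1) * G 0 0 + conj (G 1 1) * G 1 0 = 0 at e10
  change conj (G 0 1) * G 0 1 + conj (G 1 1) * G 1 1 = 1 at e11
  linear_combination (v.1 0 m * conj (v.1 0 m)) * e00 + (v.1 1 m * conj (v.1 0 m)) * e01 +
    (v.1 0 m * conj (v.1 1 m)) * e10 + (v.1 1 m * conj (v.1 1 m)) * e11

theorem nr_ne (m n : ℕ) (v : PP) (h : D m n v ≠ 0) : ((nr m v : ℝ) : ℂ) ≠ 0 := by
  intro h0
  have h1 : nr m v = 0 := by exact_mod_cast h0
  rw [nr, Real.sqrt_eq_zero (add_nonneg (normSq_nonneg _) (normSq_nonneg _)),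
    add_eq_zero_iff_of_nonneg (normSq_nonneg _) (normSq_nonneg _)] at h1
  rw [normSq_eq_zero, normSq_eq_zero] at h1
  apply h
  rw [D, h1.1, h1.2]
  ring

/-- The argument of the minor. -/
def dl (m n : ℕ) (v : PP) : ℂ := D m n v / ((‖D m n v‖ : ℝ) : ℂ)

theorem norm_det (g : U2) : ‖(g : Matrix (Fin 2) (Fin 2) ℂ).det‖ = 1 := by
  have h := det_conj g
  rw [Complex.mul_conj, Complex.normSq_eq_norm_sq] at h
  have h2 : ‖(g : Matrix (Fin 2) (Fin 2) ℂ).det‖ ^ 2 = 1 := by exact_mod_cast h
  nlinarith [norm_nonneg (g : Matrix (Fin 2) (Fin 2) ℂ).det]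

theorem dl_smul (m n : ℕ) (g : U2) (v : PP) :
    dl m n (g • v) = (g : Matrix (Fin 2) (Fin 2) ℂ).det * dl m n v := by
  rw [dl, dl, D_smul, norm_mul, norm_det, one_mul, mul_div_assoc]

theorem dl_conj (m n : ℕ) (v : PP) (h : D m n v ≠ 0) : dl m n v * conj (dl m n v) = 1 := by
  have h1 : ((‖D m n v‖ : ℝ) : ℂ) ≠ 0 := by
    have := norm_ne_zero_iff.2 h
    exact_mod_cast this
  rw [dl, map_div₀, Complex.conj_ofReal, div_mul_div_comm, Complex.mul_conj,
    Complex.normSq_eq_norm_sq]
  rw [div_eq_one_iff_eq (mul_ne_zero h1 h1)]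
  push_cast
  ring

/-- The matrix. -/
def Q (m n : ℕ) (v : PP) : Matrix (Fin 2) (Fin 2) ℂ :=
  !![v.1 0 m / (nr m v : ℂ), -(dl m n v * conj (v.1 1 m) / (nr m v : ℂ));
    v.1 1 m / (nr m v : ℂ), dl m n v * conj (v.1 0 m) / (nr m v : ℂ)]

theorem Q_mem (m n : ℕ) (v : PP) (h : D m n v ≠ 0) :
    Q m n v ∈ Matrix.unitaryGroup (Fin 2) ℂ := by
  rw [Matrix.mem_unitaryGroup_iff']
  have hr := nr_ne m n v h
  have hd := dl_conj m n v h
  have hs := nr_sq m v
  ext i j
  fin_cases i <;> fin_cases j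
  · simp [Q, Matrix.mul_apply, Fin.sum_univ_two, Matrix.star_apply]
    field_simp
    rw [hs]
    ring
  · simp [Q, Matrix.mul_apply, Fin.sum_univ_two, Matrix.star_apply]
    field_simp
    ring
  · simp [Q, Matrix.mul_apply, Fin.sum_univ_two, Matrix.star_apply]
    field_simp
    ring
  · simp [Q, Matrix.mul_apply, Fin.sum_univ_two, Matrix.star_apply]
    field_simp
    rw [hs]
    linear_combination (v.1 0 m * conj (v.1 0 m) + v.1 1 m * conj (v.1 1 m)) * hd

open Classical in
/-- The local trivialisation. -/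
def tau (m n : ℕ) (v : PP) : U2 := if h : D m n v ≠ 0 then ⟨Q m n v, Q_mem m n v h⟩ else 1

theorem tau_val (m n : ℕ) (v : PP) (h : D m n v ≠ 0) :
    (tau m n v : Matrix (Fin 2) (Fin 2) ℂ) = Q m n v := by
  rw [tau, dif_pos h]

theorem Q_smul (m n : ℕ) (g : U2) (v : PP) (h : D m n v ≠ 0) :
    Q m n (g • v) = (g : Matrix (Fin 2) (Fin 2) ℂ) * Q m n v := by
  obtain ⟨u1, u2, u3, u4⟩ := uni g
  have hr := nr_ne m n v h
  ext i j
  fin_cases i <;> fin_cases j
  · simp only [Q, Matrix.mul_apply, Fin.sum_univ_two, nr_smul, dl_smul, smul_val, map_add, map_mul]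
    simp
    ring
  · simp only [Q, Matrix.mul_apply, Fin.sum_univ_two, nr_smul, dl_smul, smul_val, map_add, map_mul]
    simp
    linear_combination (dl m n v / (nr m v : ℂ) * conj (v.1 0 m)) * u2 +
      (dl m n v / (nr m v : ℂ) * conj (v.1 1 m)) * u1
  · simp only [Q, Matrix.mul_apply, Fin.sum_univ_two, nr_smul, dl_smul, smul_val, map_add, map_mul]
    simp
    ring
  · simp only [Q, Matrix.mul_apply, Fin.sum_univ_two, nr_smul, dl_smul, smul_val, map_add, map_mul]
    simp
    linear_combination -(dl m n v / (nr m v : ℂ) * conj (v.1 0 m)) * u4 -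
      (dl m n v / (nr m v : ℂ) * conj (v.1 1 m)) * u3

theorem univ : IsUniversal U2 PP where
  continuous_action := cont_action
  contractible := contr
  locally_trivial := by
    intro p
    obtain ⟨m, n, hmn⟩ := minor p.2
    refine ⟨{v | D m n v ≠ 0}, (D_cont m n).isOpen_preimage _ isOpen_compl_singleton, hmn, ?_,
      tau m n, ?_, ?_⟩
    · intro g q hq
      change D m n (g • q) ≠ 0
      rw [D_smul]
      exact mul_ne_zero (det_ne g) hq
    · rw [Topology.IsInducing.subtypeVal.continuousOn_iff]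
      have hc : ContinuousOn (Q m n) {v | D m n v ≠ 0} := by
        have hr : ContinuousOn (fun v => ((nr m v : ℝ) : ℂ)) {v : PP | D m n v ≠ 0} :=
          (continuous_ofReal.comp (nr_cont m)).continuousOn
        have hr0 : ∀ v ∈ {v : PP | D m n v ≠ 0}, ((nr m v : ℝ) : ℂ) ≠ 0 := fun v hv =>
          nr_ne m n v hv
        have hd : ContinuousOn (dl m n) {v : PP | D m n v ≠ 0} := by
          refine ContinuousOn.div (D_cont m n).continuousOn
            (continuous_ofReal.comp (D_cont m n).norm).continuousOn fun v hv => ?_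
          have := norm_ne_zero_iff.2 hv
          exact_mod_cast this
        have h0 : ContinuousOn (fun v : PP => v.1 0 m) {v : PP | D m n v ≠ 0} :=
          (cont_coord 0 m).continuousOn
        have h1 : ContinuousOn (fun v : PP => v.1 1 m) {v : PP | D m n v ≠ 0} :=
          (cont_coord 1 m).continuousOn
        have h0' : ContinuousOn (fun v : PP => conj (v.1 0 m)) {v : PP | D m n v ≠ 0} :=
          (continuous_conj.comp (cont_coord 0 m)).continuousOn
        have h1' : ContinuousOn (fun v : PP => conj (v.1 1 m)) {v : PP | D m n v ≠ 0} :=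
          (continuous_conj.comp (cont_coord 1 m)).continuousOn
        refine continuousOn_pi.2 fun i => continuousOn_pi.2 fun j => ?_
        fin_cases i <;> fin_cases j
        · exact h0.div hr hr0
        · exact ((hd.mul h1').div hr hr0).neg
        · exact h1.div hr hr0
        · exact (hd.mul h0').div hr hr0
      exact hc.congr fun v hv => tau_val m n v hv
    · intro g q hq
      apply Subtype.ext
      have hgq : D m n (g • q) ≠ 0 := by
        rw [D_smul]
        exact mul_ne_zero (det_ne g) hq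
      rw [tau_val m n _ hgq, Submonoid.coe_mul, tau_val m n _ hq]
      exact Q_smul m n g q hq

end

end Euu

theorem euu : EU := ⟨Euu.PP, inferInstance, inferInstance, Euu.univ⟩

end Pool.Agent.N312.KK
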