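import Pool.Agent.N312.KK.Stm

/-!
# Project KK, GRD: from small boxes to the unit cube
-/

set_option autoImplicit false

namespace Pool.Agent.N312.KK

theorem grd : GRD := by
  classical
  intro m p δ hδ h0 hm
  have key : ∀ S : Finset (Fin m), ∀ a b : Fin m → ℝ, 0 ≤ a → b ≤ 1 → a ≤ b →
      (∀ i, i ∉ S → b i - a i ≤ δ) → p a b := by
    intro S
    induction S using Finset.induction_on with
    | empty =>
      intro a b ha hb hab h
      exact h0 a b ha hb hab fun i => h i (Finset.notMem_empty i)
    | insert i S hi ih =>
      have step : ∀ j : ℕ, ∀ a b : Fin m → ℝ, 0 ≤ a → b ≤ 1 → a ≤ b →
          (∀ i', i' ∉ insert i S → b i' - a i' ≤ δ) → b i - a i ≤ ((j : ℝ) + 1) * δ → p a b := by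
        intro j
        induction j with
        | zero =>
          intro a b ha hb hab h h1
          apply ih a b ha hb hab
          intro i' hi'
          by_cases e : i' = i
          · rw [e]
            have e1 : (((0 : ℕ) : ℝ) + 1) * δ = δ := by
              push_cast
              ring
            linarith
          · apply h i'
            rw [Finset.mem_insert]
            rintro (h2 | h2)
            · exact e h2
            · exact hi' h2
        | succ j ihj =>
          intro a b ha hb hab h h1
          by_cases hc : b i - a i ≤ ((j : ℝ) + 1) * δ
          · exact ihj a b ha hb hab h hc
          · rw [not_le] at hc
            obtain ⟨c, hcd⟩ : ∃ c : ℝ, c = a i + ((j : ℝ) + 1) * δ := ⟨_, rfl⟩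
            have hj0 : 0 ≤ ((j : ℝ) + 1) * δ := by positivity
            have hc1 : a i ≤ c := by rw [hcd]; linarith
            have hc2 : c ≤ b i := by rw [hcd]; linarith
            have hc0 : 0 ≤ c := by
              have h2 := ha i
              rw [Pi.zero_apply] at h2
              linarith
            have hc3 : c ≤ 1 := by
              have h2 := hb i
              rw [Pi.one_apply] at h2
              linarith
            apply hm a b i c hab hc1 hc2
            · apply ihj a (Function.update b i c) ha
              · intro i'
                by_cases e : i' = i
                · rw [e, Function.update_self, Pi.one_apply]
                  exact hc3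
                · rw [Function.update_of_ne e]
                  exact hb i'
              · intro i'
                by_cases e : i' = i
                · rw [e, Function.update_self]
                  exact hc1
                · rw [Function.update_of_ne e]
                  exact hab i'
              · intro i' hi'
                have e : i' ≠ i := fun e => hi' (by rw [e]; exact Finset.mem_insert_self i S)
                rw [Function.update_of_ne e]
                exact h i' hi'
              · rw [Function.update_self, hcd]
                linarith
            · apply ih (Function.update a i c) b
              · intro i'
                by_cases e : i' = i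
                · rw [e, Function.update_self, Pi.zero_apply]
                  exact hc0
                · rw [Function.update_of_ne e]
                  exact ha i'
              · exact hb
              · intro i'
                by_cases e : i' = i
                · rw [e, Function.update_self]
                  exact hc2
                · rw [Function.update_of_ne e]
                  exact hab i'
              · intro i' hi'
                by_cases e : i' = i
                · rw [e, Function.update_self, hcd]
                  have e1 : (((j + 1 : ℕ) : ℝ) + 1) * δ = ((j : ℝ) + 1) * δ + δ := by
                    push_cast
                    ring
                  linarith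
                · rw [Function.update_of_ne e]
                  apply h i'
                  rw [Finset.mem_insert]
                  rintro (h2 | h2)
                  · exact e h2
                  · exact hi' h2
      intro a b ha hb hab h
      obtain ⟨j, hj⟩ := exists_nat_gt (1 / δ)
      apply step j a b ha hb hab h
      have h1 := ha i
      have h2 := hb i
      rw [Pi.zero_apply] at h1
      rw [Pi.one_apply] at h2
      have h3 : 1 < (j : ℝ) * δ := by
        rwa [div_lt_iff₀ hδ] at hj
      have h4 : ((j : ℝ) + 1) * δ = (j : ℝ) * δ + δ := by ring
      linarith
  exact key Finset.univ 0 1 le_rfl le_rfl (fun _ => zero_le_one)
    fun i hi => absurd (Finset.mem_univ i) hi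

end Pool.Agent.N312.KK
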