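import Pool.Agent.N312.KK.Stm

set_option autoImplicit false

namespace Pool.Agent.N312.KK

noncomputable section

namespace Inv

open Finset

/-- The derivative form. -/
def der (g M : Matrix (Fin 2) (Fin 2) ℂ) (t : Ten) : Ten := fun i j k =>
  ∑ a, ∑ b, ∑ c, (M i a * g j b * g k c + g i a * M j b * g k c + g i a * g j b * M k c) *
    t a b c

lemma inf_act (g ξ : Matrix (Fin 2) (Fin 2) ℂ) (t : Ten) : inf ξ (act g t) = der g (ξ * g) t := by
  funext i j k
  simp only [inf, act, der, Matrix.mul_apply, Fin.sum_univ_two]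
  ring

lemma act_inf (g η : Matrix (Fin 2) (Fin 2) ℂ) (t : Ten) : act g (inf η t) = der g (g * η) t := by
  funext i j k
  simp only [inf, act, der, Matrix.mul_apply, Fin.sum_univ_two]
  ring

lemma two_sum {g : Matrix (Fin 2) (Fin 2) ℂ} (hg : star g * g = 1) (x y : Fin 2 → ℂ) :
    ∑ i, (∑ a, g i a * x a) * (starRingEnd ℂ) (∑ a, g i a * y a) =
      ∑ i, x i * (starRingEnd ℂ) (y i) := by
  have h : ∀ a b : Fin 2, ∑ i, (starRingEnd ℂ) (g i a) * g i b = if a = b then 1 else 0 := by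
    intro a b
    have := congrFun (congrFun hg a) b
    rw [Matrix.mul_apply, Matrix.one_apply] at this
    exact this
  have h00 := h 0 0
  have h01 := h 0 1
  have h10 := h 1 0
  have h11 := h 1 1
  simp only [Fin.sum_univ_two, Fin.isValue, if_true, zero_ne_one, one_ne_zero, if_false] at h00 h01 h10 h11
  simp only [Fin.sum_univ_two, map_add, map_mul]
  linear_combination x 0 * (starRingEnd ℂ) (y 0) * h00 + x 1 * (starRingEnd ℂ) (y 0) * h01 +
    x 0 * (starRingEnd ℂ) (y 1) * h10 + x 1 * (starRingEnd ℂ) (y 1) * h11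

lemma act_eq (g : Matrix (Fin 2) (Fin 2) ℂ) (s : Ten) (i j k : Fin 2) :
    act g s i j k = ∑ c, g k c * (∑ b, g j b * (∑ a, g i a * s a b c)) := by
  simp only [act, Fin.sum_univ_two]
  ring

lemma herm_act {g : Matrix (Fin 2) (Fin 2) ℂ} (hg : star g * g = 1) (s t : Ten) :
    herm (act g s) (act g t) = herm s t := by
  unfold herm
  calc ∑ i, ∑ j, ∑ k, act g s i j k * (starRingEnd ℂ) (act g t i j k)
      = ∑ i, ∑ j, ∑ k, (∑ b, g j b * (∑ a, g i a * s a b k)) *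
          (starRingEnd ℂ) (∑ b, g j b * (∑ a, g i a * t a b k)) := by
        refine sum_congr rfl fun i _ => sum_congr rfl fun j _ => ?_
        simp_rw [act_eq]
        exact two_sum hg _ _
    _ = ∑ i, ∑ k, ∑ j, (∑ b, g j b * (∑ a, g i a * s a b k)) *
          (starRingEnd ℂ) (∑ b, g j b * (∑ a, g i a * t a b k)) :=
        sum_congr rfl fun i _ => sum_comm
    _ = ∑ i, ∑ k, ∑ j, (∑ a, g i a * s a j k) * (starRingEnd ℂ) (∑ a, g i a * t a j k) := by
        refine sum_congr rfl fun i _ => sum_congr rfl fun k _ => ?_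
        exact two_sum hg _ _
    _ = ∑ k, ∑ j, ∑ i, (∑ a, g i a * s a j k) * (starRingEnd ℂ) (∑ a, g i a * t a j k) := by
        rw [sum_comm]
        refine sum_congr rfl fun k _ => ?_
        rw [sum_comm]
    _ = ∑ k, ∑ j, ∑ i, s i j k * (starRingEnd ℂ) (t i j k) := by
        refine sum_congr rfl fun k _ => sum_congr rfl fun j _ => ?_
        exact two_sum hg _ _
    _ = ∑ i, ∑ j, ∑ k, s i j k * (starRingEnd ℂ) (t i j k) := by
        simp only [Fin.sum_univ_two]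
        ring

end Inv

theorem inv : INV := by
  intro α hα g t ht ξ
  have hgs : star (g : Matrix (Fin 2) (Fin 2) ℂ) * (g : Matrix (Fin 2) (Fin 2) ℂ) = 1 :=
    Matrix.UnitaryGroup.star_mul_self g
  have hsg : (g : Matrix (Fin 2) (Fin 2) ℂ) * star (g : Matrix (Fin 2) (Fin 2) ℂ) = 1 :=
    mul_eq_one_comm.mp hgs
  have hξ : star (ξ : Matrix (Fin 2) (Fin 2) ℂ) = -(ξ : Matrix (Fin 2) (Fin 2) ℂ) :=
    skewAdjoint.mem_iff.mp ξ.2
  let η : u2 := ⟨star (g : Matrix (Fin 2) (Fin 2) ℂ) * ξ * g, by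
    rw [skewAdjoint.mem_iff, star_mul, star_mul, star_star, hξ]
    simp only [Matrix.mul_neg, Matrix.neg_mul, Matrix.mul_assoc]⟩
  have hη : (η : Matrix (Fin 2) (Fin 2) ℂ) = star (g : Matrix (Fin 2) (Fin 2) ℂ) * ξ * g := rfl
  have h1 : (ξ : Matrix (Fin 2) (Fin 2) ℂ) =
      (g : Matrix (Fin 2) (Fin 2) ℂ) * η * ((g⁻¹ : U2) : Matrix (Fin 2) (Fin 2) ℂ) := by
    have h2 : ((g⁻¹ : U2) : Matrix (Fin 2) (Fin 2) ℂ) = star (g : Matrix (Fin 2) (Fin 2) ℂ) := rfl
    rw [h2, hη]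
    calc (ξ : Matrix (Fin 2) (Fin 2) ℂ)
        = ((g : Matrix (Fin 2) (Fin 2) ℂ) * star (g : Matrix (Fin 2) (Fin 2) ℂ)) * ξ *
          ((g : Matrix (Fin 2) (Fin 2) ℂ) * star (g : Matrix (Fin 2) (Fin 2) ℂ)) := by
          rw [hsg, Matrix.one_mul, Matrix.mul_one]
      _ = _ := by simp only [Matrix.mul_assoc]
  rw [hα g η ξ h1, ← ht η]
  have hcoe : ((g • t : Cub) : Ten) = act g t := rfl
  have h3 : (ξ : Matrix (Fin 2) (Fin 2) ℂ) * g = (g : Matrix (Fin 2) (Fin 2) ℂ) * η := by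
    rw [hη, ← Matrix.mul_assoc, ← Matrix.mul_assoc, hsg, Matrix.one_mul]
  unfold mom
  rw [hcoe, Inv.inf_act, h3, ← Inv.act_inf, Inv.herm_act hgs]

end

end Pool.Agent.N312.KK
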