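import Pool.Agent.N312.KK.Stm

/-! Simplices of the orbit space of a principal space lift. -/

set_option autoImplicit false

namespace Pool.Agent.N312.KK

theorem lft (hm : MRG) (hg : GRD) (hl : LOC) (hr : RET) : LFT := by
  intro G _ _ _ E X _ _ _ π hE hπ n σ
  obtain ⟨r, hr⟩ := hr n
  have hfc : Continuous fun x : Fin (n + 1) → ℝ => σ (r x) := σ.continuous.comp r.continuous
  obtain ⟨δ, hδ, hsm⟩ := hl G E X π hE hπ (n + 1) (fun x => σ (r x)) hfc
  have h := hg (n + 1) (LiftBox π fun x => σ (r x)) δ hδ hsm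
    (fun a b i c hab h1 h2 h3 h4 => hm G E X π hE hπ (n + 1) _ a b i c hab h1 h2 h3 h4)
  obtain ⟨l, hlc, hl⟩ := h
  have hmem : ∀ s : stdSimplex ℝ (Fin (n + 1)), (s : Fin (n + 1) → ℝ) ∈ Set.Icc (0 : Fin (n + 1) → ℝ) 1 := by
    intro s
    refine ⟨fun i => s.2.1 i, fun i => ?_⟩
    have := Finset.single_le_sum (f := (s : Fin (n + 1) → ℝ)) (fun j _ => s.2.1 j)
      (Finset.mem_univ i)
    exact this.trans s.2.2.le
  refine ⟨⟨fun s => l (s : Fin (n + 1) → ℝ), ?_⟩, fun s => ?_⟩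
  · exact hlc.comp_continuous continuous_subtype_val hmem
  · change π (l s) = σ s
    rw [hl _ (hmem s)]
    exact congrArg σ (hr s)

end Pool.Agent.N312.KK
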