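import Pool.Agent.N312.KK.Stm

/-! Leaf LOC of project KK, MP_c41d74_gt: continuous maps lift over small boxes (helper478). -/

set_option autoImplicit false

open Filter Topology Set

namespace Pool.Agent.N312.KK

namespace Loc

variable {G : Type} [Group G] [TopologicalSpace G] [IsTopologicalGroup G]
  {E X : Type} [TopologicalSpace E] [TopologicalSpace X] [MulAction G E] {π : E → X}

/-- local sections -/
theorem sec (hP : IsPrin G E) (hO : IsOrb G π) (x0 : X) : ∃ (W : Set X) (s : X → E),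
    IsOpen W ∧ x0 ∈ W ∧ ContinuousOn s W ∧ ∀ x ∈ W, π (s x) = x := by
  classical
  obtain ⟨e0, rfl⟩ := hO.quot.surjective x0
  obtain ⟨O, hOo, he0, hinv, τ, hτ, hτe⟩ := hP.loc e0
  have hc : ∀ x : X, ∃ e : E, x ∈ π '' O → e ∈ O ∧ π e = x := by
    intro x
    by_cases hx : x ∈ π '' O
    · obtain ⟨e, he⟩ := hx
      exact ⟨e, fun _ => he⟩
    · exact ⟨e0, fun h => absurd h hx⟩
  choose c hc using hc
  have key : ∀ e ∈ O, (τ (c (π e)))⁻¹ • c (π e) = (τ e)⁻¹ • e := by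
    intro e he
    obtain ⟨h1, h2⟩ := hc (π e) ⟨e, he, rfl⟩
    obtain ⟨g, hg⟩ := (hO.fib _ _).mp h2
    have h3 : τ e = g * τ (c (π e)) := by
      rw [← hτe g _ h1, hg]
    have h4 : (τ e)⁻¹ • e = (g * τ (c (π e)))⁻¹ • (g • c (π e)) := by
      rw [hg, h3]
    rw [h4, mul_inv_rev, mul_smul, inv_smul_smul]
  have hF : ContinuousOn (fun e : E => (τ e)⁻¹ • e) O :=
    hP.cont.comp_continuousOn (hτ.inv.prodMk continuousOn_id)
  refine ⟨π '' O, fun x => (τ (c x))⁻¹ • c x, hO.quot.isOpenMap _ hOo, ⟨e0, he0, rfl⟩, ?_, ?_⟩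
  · rintro x1 ⟨e1, he1, rfl⟩
    refine ContinuousAt.continuousWithinAt ?_
    have h1 : Tendsto ((fun x => (τ (c x))⁻¹ • c x) ∘ π) (𝓝 e1) (𝓝 ((τ e1)⁻¹ • e1)) := by
      refine Tendsto.congr' ?_ (hF.continuousAt (hOo.mem_nhds he1))
      filter_upwards [hOo.mem_nhds he1] with e he
      exact (key e he).symm
    have h2 := (tendsto_map'_iff.mpr h1).mono_left (hO.quot.isOpenMap.nhds_le e1)
    show Tendsto (fun x => (τ (c x))⁻¹ • c x) (𝓝 (π e1)) (𝓝 ((τ (c (π e1)))⁻¹ • c (π e1)))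
    rw [key e1 he1]
    exact h2
  · rintro x1 ⟨e1, he1, rfl⟩
    show π ((τ (c (π e1)))⁻¹ • c (π e1)) = π e1
    rw [key e1 he1]
    exact ((hO.fib _ _).mpr ⟨τ e1, smul_inv_smul _ _⟩)

end Loc

/-- LOC -/
theorem loc : LOC := by
  intro G _ _ _ E X _ _ _ π hP hO m f hf
  choose W s hW hx hs hsec using fun x : X => Loc.sec hP hO x
  have hK : IsCompact (Icc (0 : Fin m → ℝ) 1) := isCompact_Icc
  obtain ⟨d, hd, h⟩ := lebesgue_number_lemma_of_metric hK
    (fun x : X => (hW x).preimage hf) (fun y _ => mem_iUnion.mpr ⟨f y, hx (f y)⟩)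
  refine ⟨d / 2, by positivity, fun a b ha hb hab hi => ?_⟩
  obtain ⟨x, hxb⟩ := h a ⟨ha, hab.trans hb⟩
  have hsub : Icc a b ⊆ f ⁻¹' W x := by
    intro y hy
    refine hxb ?_
    rw [Metric.mem_ball]
    refine lt_of_le_of_lt ((dist_pi_le_iff (by positivity : (0 : ℝ) ≤ d / 2)).mpr fun i => ?_)
      (by linarith)
    rw [Real.dist_eq, abs_of_nonneg (sub_nonneg.mpr (hy.1 i))]
    have h1 := hy.2 i
    have h2 := hi i
    linarith
  refine ⟨fun y => s x (f y), (hs x).comp hf.continuousOn hsub, fun y hy => hsec x _ (hsub hy)⟩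

end Pool.Agent.N312.KK
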