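import Pool.Agent.N312.KK.Stm

/-! MRG: lifts over the two halves of a box give a lift over the box (helper933). -/

set_option autoImplicit false

namespace Pool.Agent.N312.KK

namespace Mrg

theorem box1 {m : ℕ} (a b : Fin m → ℝ) (i : Fin m) (c : ℝ) (hc : c ≤ b i) :
    Set.Icc a (Function.update b i c) = {x | x ∈ Set.Icc a b ∧ x i ≤ c} := by
  ext x
  simp only [Set.mem_Icc, Set.mem_setOf_eq, Pi.le_def]
  constructor
  · rintro ⟨h1, h2⟩
    refine ⟨⟨h1, fun j => ?_⟩, ?_⟩
    · have := h2 j
      rcases eq_or_ne j i with rfl | hj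
      · rw [Function.update_self] at this
        exact this.trans hc
      · rwa [Function.update_of_ne hj] at this
    · have := h2 i
      rwa [Function.update_self] at this
  · rintro ⟨⟨h1, h2⟩, h3⟩
    refine ⟨h1, fun j => ?_⟩
    rcases eq_or_ne j i with rfl | hj
    · rwa [Function.update_self]
    · rw [Function.update_of_ne hj]
      exact h2 j

theorem box2 {m : ℕ} (a b : Fin m → ℝ) (i : Fin m) (c : ℝ) (hc : a i ≤ c) :
    Set.Icc (Function.update a i c) b = {x | x ∈ Set.Icc a b ∧ c ≤ x i} := by
  ext x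
  simp only [Set.mem_Icc, Set.mem_setOf_eq, Pi.le_def]
  constructor
  · rintro ⟨h1, h2⟩
    refine ⟨⟨fun j => ?_, h2⟩, ?_⟩
    · have := h1 j
      rcases eq_or_ne j i with rfl | hj
      · rw [Function.update_self] at this
        exact hc.trans this
      · rwa [Function.update_of_ne hj] at this
    · have := h1 i
      rwa [Function.update_self] at this
  · rintro ⟨⟨h1, h2⟩, h3⟩
    refine ⟨fun j => ?_, h2⟩
    rcases eq_or_ne j i with rfl | hj
    · rwa [Function.update_self]
    · rw [Function.update_of_ne hj]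
      exact h1 j

end Mrg

theorem mrg : DIF → MRG := by
  classical
  intro hD G _ _ _ E X _ _ _ π hP hO m f a b i c hab hac hcb h1 h2
  obtain ⟨l1, hl1, e1⟩ := h1
  obtain ⟨l2, hl2, e2⟩ := h2
  rw [Mrg.box1 a b i c hcb] at hl1 e1
  rw [Mrg.box2 a b i c hac] at hl2 e2
  have hp : Continuous fun x : Fin m → ℝ => Function.update x i c :=
    continuous_id.update i continuous_const
  obtain ⟨g, hg, hgl⟩ := hD G E hP (Fin m → ℝ) l1 l2 {x | x ∈ Set.Icc a b ∧ x i = c}
    (hl1.mono fun x hx => ⟨hx.1, hx.2.le⟩) (hl2.mono fun x hx => ⟨hx.1, hx.2.ge⟩)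
    (fun x hx => (hO.fib _ _).1 (by rw [e2 x ⟨hx.1, hx.2.ge⟩, e1 x ⟨hx.1, hx.2.le⟩]))
  have hpF : ∀ x ∈ Set.Icc a b, Function.update x i c ∈ {x | x ∈ Set.Icc a b ∧ x i = c} := by
    intro x hx
    refine ⟨⟨fun j => ?_, fun j => ?_⟩, Function.update_self _ _ _⟩
    · rcases eq_or_ne j i with rfl | hj
      · rwa [Function.update_self]
      · rw [Function.update_of_ne hj]
        exact hx.1 j
    · rcases eq_or_ne j i with rfl | hj
      · rwa [Function.update_self]
      · rw [Function.update_of_ne hj]
        exact hx.2 j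
  have hpx : ∀ x : Fin m → ℝ, x i = c → Function.update x i c = x := by
    intro x hx
    rw [← hx, Function.update_eq_self]
  refine ⟨fun x => if x i ≤ c then l1 x else g (Function.update x i c) • l2 x, ?_, ?_⟩
  · have hU : Set.Icc a b = {x | x ∈ Set.Icc a b ∧ x i ≤ c} ∪ {x | x ∈ Set.Icc a b ∧ c ≤ x i} := by
      ext x
      simp only [Set.mem_union, Set.mem_setOf_eq]
      constructor
      · intro hx
        rcases le_total (x i) c with h | h
        · exact Or.inl ⟨hx, h⟩
        · exact Or.inr ⟨hx, h⟩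
      · rintro (h | h)
        · exact h.1
        · exact h.1
    have hc1 : IsClosed {x | x ∈ Set.Icc a b ∧ x i ≤ c} :=
      isClosed_Icc.inter (isClosed_le (continuous_apply i) continuous_const)
    have hc2 : IsClosed {x | x ∈ Set.Icc a b ∧ c ≤ x i} :=
      isClosed_Icc.inter (isClosed_le continuous_const (continuous_apply i))
    rw [hU]
    refine ContinuousOn.union_of_isClosed ?_ ?_ hc1 hc2
    · refine hl1.congr fun x hx => ?_
      simp only [if_pos hx.2]
    · have h3 : ContinuousOn (fun x => g (Function.update x i c) • l2 x)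
          {x | x ∈ Set.Icc a b ∧ c ≤ x i} := by
        have h4 : ContinuousOn (fun x => g (Function.update x i c))
            {x | x ∈ Set.Icc a b ∧ c ≤ x i} :=
          hg.comp hp.continuousOn fun x hx => hpF x hx.1
        exact hP.cont.comp_continuousOn (h4.prodMk hl2)
      refine h3.congr fun x hx => ?_
      by_cases h : x i ≤ c
      · have h5 : x i = c := le_antisymm h hx.2
        simp only [if_pos h]
        rw [hpx x h5, hgl x ⟨hx.1, h5⟩]
      · simp only [if_neg h]
  · intro x hx
    by_cases h : x i ≤ c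
    · simp only [if_pos h]
      exact e1 x ⟨hx, h⟩
    · simp only [if_neg h]
      rw [← e2 x ⟨hx, (not_le.1 h).le⟩]
      exact ((hO.fib _ _).2 ⟨_, rfl⟩).symm

end Pool.Agent.N312.KK
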