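import Pool.Agent.N312.KK.Stm

/-! Leaf NUL: a binary cubic with discriminant zero and scalar Hermitian matrix vanishes.

The proof is an identity: `disc * conj disc - M00 ^ 4` lies in the ideal generated by `M01`, `M10`
  and `M00 - M11`. -/

set_option autoImplicit false

namespace Pool.Agent.N312.KK

namespace Nul

theorem key (p q r s P Q R S : ℂ)
    (h1 : p * Q + 2 * (q * R) + r * S = 0) (h2 : P * q + 2 * (Q * r) + R * s = 0)
    (h3 : (p * P + 2 * (q * Q) + r * R) - (q * Q + 2 * (r * R) + s * S) = 0)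
    (hd : (p * s - q * r) ^ 2 - 4 * (p * r - q ^ 2) * (q * s - r ^ 2) = 0) :
    (p * P + 2 * (q * Q) + r * R) ^ 4 = 0 := by
  linear_combination ((P * S - Q * R) ^ 2 - 4 * (P * R - Q ^ 2) * (Q * S - R ^ 2)) * hd -
        ((-33) * r * s ^ 2 * R ^ 2 * S + (-4) * r * s ^ 2 * Q * S ^ 2 + (-36) * r ^ 2 * s * R ^ 3 +
      (18) * r ^ 2 * s * P * S ^ 2 + (-12) * r ^ 3 * Q * R ^ 2 + (16) * r ^ 3 * Q ^ 2 * S + (18) * r
      ^ 3 * P * R * S + (-12) * q * s ^ 2 * R ^ 3 + (-8) * q * s ^ 2 * Q * R * S + (18) * q * r * s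
      * Q * R ^ 2 + (-24) * q * r * s * Q ^ 2 * S + (85) * q * r * s * P * R * S + (54) * q * r ^ 2
      * P * R ^ 2 + (44) * q * r ^ 2 * P * Q * S + (44) * q ^ 2 * s * P * R ^ 2 + (64) * q ^ 2 * r *
      P * Q * R + (24) * q ^ 2 * r * P ^ 2 * S + (-16) * q ^ 3 * P * Q ^ 2 + (48) * q ^ 3 * P ^ 2 *
      R + (-3) * p * s ^ 2 * Q * R ^ 2 + (4) * p * s ^ 2 * Q ^ 2 * S + (-6) * p * s ^ 2 * P * R * S
      + (28) * p * r * s * P * R ^ 2 + (-14) * p * r ^ 2 * P ^ 2 * S + (1) * p * q * s * P ^ 2 * S +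
      (-47) * p * q * r * P ^ 2 * R + (-24) * p * q ^ 2 * P ^ 2 * Q + (-7) * p ^ 2 * q * P ^ 3) * h1
      -
        ((-94) * r ^ 2 * s * R * S ^ 2 + (-90) * r ^ 3 * R ^ 2 * S + (-8) * r ^ 3 * Q * S ^ 2 + (-4)
      * q * s ^ 2 * R * S ^ 2 + (-118) * q * r * s * R ^ 2 * S + (-8) * q * r * s * Q * S ^ 2 +
      (-120) * q * r ^ 2 * R ^ 3 + (58) * q * r ^ 2 * Q * R * S + (-27) * q * r ^ 2 * P * S ^ 2 +
      (24) * q ^ 2 * s * R ^ 3 + (-24) * q ^ 2 * s * Q * R * S + (4) * q ^ 2 * s * P * S ^ 2 + (64)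
      * q ^ 2 * r * Q * R ^ 2 + (16) * q ^ 2 * r * Q ^ 2 * S + (-96) * q ^ 2 * r * P * R * S + (32)
      * q ^ 3 * Q ^ 2 * R + (-96) * q ^ 3 * P * R ^ 2 + (18) * p * s ^ 2 * R ^ 2 * S + (18) * p * r
      * s * R ^ 3 + (-7) * p * r * s * P * S ^ 2 + (75) * p * r ^ 2 * P * R * S + (-2) * p * q * s *
      P * R * S + (94) * p * q * r * P * R ^ 2 + (-14) * p ^ 2 * s * P * R ^ 2 + (7) * p ^ 2 * r * P
      ^ 2 * S + (14) * p ^ 2 * q * P ^ 2 * R) * h2 -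
        ((-127) * r ^ 2 * s * R ^ 2 * S + (-4) * r ^ 2 * s * Q * S ^ 2 + (1) * r ^ 3 * R ^ 3 +
      (-192) * r ^ 3 * Q * R * S + (18) * r ^ 3 * P * S ^ 2 + (-4) * q * s ^ 2 * R ^ 2 * S + (-192)
      * q * r * s * R ^ 3 + (-32) * q * r * s * Q * R * S + (-255) * q * r ^ 2 * Q * R ^ 2 + (-44) *
      q * r ^ 2 * Q ^ 2 * S + (-44) * q ^ 2 * s * Q * R ^ 2 + (-112) * q ^ 2 * r * Q ^ 2 * R + (-16)
      * q ^ 3 * Q ^ 3 + (18) * p * s ^ 2 * R ^ 3 + (-13) * p * r * s * P * R * S + (-11) * p * r ^ 2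
      * P * R ^ 2 + (-1) * p ^ 2 * s * P ^ 2 * S + (-5) * p ^ 2 * r * P ^ 2 * R + (-1) * p ^ 3 * P ^
      3) * h3

end Nul

theorem nul : NUL := by
  intro t hd h1 h3
  obtain ⟨t, hs1, hs2⟩ := t
  change disc t = 0 at hd
  change (∑ j, ∑ k, t 0 j k * (starRingEnd ℂ) (t 1 j k)) = 0 at h1
  change (∑ j, ∑ k, t 0 j k * (starRingEnd ℂ) (t 0 j k)) =
    (∑ j, ∑ k, t 1 j k * (starRingEnd ℂ) (t 1 j k)) at h3
  have e1 : t 0 1 0 = t 0 0 1 := hs2 0 1 0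
  have e2 : t 1 0 0 = t 0 0 1 := (hs1 1 0 0).trans e1
  have e3 : t 1 0 1 = t 0 1 1 := hs1 1 0 1
  have e4 : t 1 1 0 = t 0 1 1 := (hs2 1 1 0).trans e3
  simp only [Fin.sum_univ_two, e1, e2, e3, e4] at h1 h3
  unfold disc at hd
  have h2 := congrArg (starRingEnd ℂ) h1
  simp only [map_add, map_mul, Complex.conj_conj, map_zero] at h2
  have hk := Nul.key (t 0 0 0) (t 0 0 1) (t 0 1 1) (t 1 1 1) ((starRingEnd ℂ) (t 0 0 0))
    ((starRingEnd ℂ) (t 0 0 1)) ((starRingEnd ℂ) (t 0 1 1)) ((starRingEnd ℂ) (t 1 1 1))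
    (by linear_combination h1) (by linear_combination h2) (by linear_combination h3) hd
  have h4 := pow_eq_zero_iff (n := 4) (by norm_num) |>.1 hk
  rw [Complex.mul_conj, Complex.mul_conj, Complex.mul_conj] at h4
  have h5 : Complex.normSq (t 0 0 0) + 2 * Complex.normSq (t 0 0 1) +
      Complex.normSq (t 0 1 1) = 0 := by
    exact_mod_cast h4
  have n0 := Complex.normSq_nonneg (t 0 0 0)
  have n1 := Complex.normSq_nonneg (t 0 0 1)
  have n2 := Complex.normSq_nonneg (t 0 1 1)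
  have z0 : t 0 0 0 = 0 := Complex.normSq_eq_zero.1 (by linarith)
  have z1 : t 0 0 1 = 0 := Complex.normSq_eq_zero.1 (by linarith)
  have z2 : t 0 1 1 = 0 := Complex.normSq_eq_zero.1 (by linarith)
  have z3 : t 1 1 1 = 0 := by
    rw [z0, z1, z2] at h3
    simp only [zero_mul, map_zero, add_zero, zero_add] at h3
    rw [Complex.mul_conj] at h3
    exact Complex.normSq_eq_zero.1 (by exact_mod_cast h3.symm)
  apply Subtype.ext
  funext i j k
  change t i j k = 0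
  fin_cases i <;> fin_cases j <;> fin_cases k <;> simp [z0, z1, z2, z3, e1, e2, e3, e4]

end Pool.Agent.N312.KK
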