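import Pool.Agent.N312.KK.Stm

/-!
Project KK, leaf PEN: the non-zero elements of a pencil are in the locally free locus.
By helper426.
-/

set_option autoImplicit false

namespace Pool.Agent.N312.KK

noncomputable section

theorem pen : PEN := by
  intro t ht1 ht2 ht0 ξ hξ
  obtain ⟨h1, h2⟩ := t.2
  have hs : star (ξ : Matrix (Fin 2) (Fin 2) ℂ) = -(ξ : Matrix (Fin 2) (Fin 2) ℂ) :=
    skewAdjoint.mem_iff.1 ξ.2
  obtain ⟨x, hx⟩ : ∃ x : Matrix (Fin 2) (Fin 2) ℂ, x = (ξ : Matrix (Fin 2) (Fin 2) ℂ) := ⟨_, rfl⟩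
  rw [← hx] at hs hξ
  have h10 : x 1 0 = -(starRingEnd ℂ) (x 0 1) := by
    have e := congrFun (congrFun hs 1) 0
    rw [Matrix.star_apply, Matrix.neg_apply] at e
    have e2 : (starRingEnd ℂ) (x 0 1) = -x 1 0 := e
    rw [e2, neg_neg]
  -- the coordinates
  have s1 : (t : Ten) 0 1 0 = (t : Ten) 0 0 1 := (h2 0 0 1).symm
  have s2 : (t : Ten) 1 0 0 = (t : Ten) 0 0 1 := (h1 1 0 0).trans s1
  have s3 : (t : Ten) 1 0 1 = (t : Ten) 0 1 1 := h1 1 0 1
  have s4 : (t : Ten) 1 1 0 = (t : Ten) 0 1 1 := (h2 1 1 0).trans s3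
  have e000 := congrFun (congrFun (congrFun hξ 0) 0) 0
  have e001 := congrFun (congrFun (congrFun hξ 0) 0) 1
  have e011 := congrFun (congrFun (congrFun hξ 0) 1) 1
  have e111 := congrFun (congrFun (congrFun hξ 1) 1) 1
  simp only [inf, Fin.sum_univ_two, Pi.zero_apply, s1, s2, s3, s4, ht1] at e000 e001 e011 e111
  obtain ⟨p, hp⟩ : ∃ p : ℂ, p = (t : Ten) 0 0 0 := ⟨_, rfl⟩
  obtain ⟨q, hq⟩ : ∃ q : ℂ, q = (t : Ten) 0 0 1 := ⟨_, rfl⟩
  obtain ⟨r, hr⟩ : ∃ r : ℂ, r = (t : Ten) 0 1 1 := ⟨_, rfl⟩
  rw [← hp, ← hq] at e000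
  rw [← hp, ← hq, ← hr] at e001 ht2
  rw [← hq, ← hr] at e011
  rw [← hr] at e111
  have hne : ¬ (p = 0 ∧ q = 0 ∧ r = 0) := by
    rintro ⟨rfl, rfl, rfl⟩
    apply ht0
    apply Subtype.ext
    funext i j k
    fin_cases i <;> fin_cases j <;> fin_cases k <;>
      simp [← hp, ← hq, ← hr, s1, s2, s3, s4, ht1]
  have f111 : x 1 0 * r = 0 := by linear_combination (1 / 3) * e111
  have key : x 0 1 = 0 ∧ x 0 0 = 0 ∧ x 1 1 = 0 := by
    by_cases hw : x 0 1 = 0
    · have h10' : x 1 0 = 0 := by rw [h10, hw, map_zero, neg_zero]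
      rw [hw] at e000 e001
      rw [h10'] at e001 e011
      have g0 : x 0 0 * p = 0 := by linear_combination (1 / 3) * e000
      have g1 : (x 1 1 + 2 * x 0 0) * q = 0 := by linear_combination e001
      have g2 : (2 * x 1 1 + x 0 0) * r = 0 := by linear_combination e011
      refine ⟨hw, ?_⟩
      by_cases hp0 : p = 0
      · have hq0 : q ≠ 0 := by
          intro hq0
          apply hne
          refine ⟨hp0, hq0, ?_⟩
          rw [hp0, hq0] at ht2
          linear_combination (1 / 3) * ht2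
        have hr0 : r ≠ 0 := by
          intro hr0
          apply hq0
          rw [hp0, hr0] at ht2
          linear_combination (1 / 3) * ht2
        have g1' := (mul_eq_zero.1 g1).resolve_right hq0
        have g2' := (mul_eq_zero.1 g2).resolve_right hr0
        exact ⟨by linear_combination (2 / 3) * g1' - (1 / 3) * g2',
          by linear_combination (2 / 3) * g2' - (1 / 3) * g1'⟩
      · have ga := (mul_eq_zero.1 g0).resolve_right hp0
        refine ⟨ga, ?_⟩
        by_contra hb
        rw [ga] at g1 g2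
        have hq0 : q = 0 := by
          have : x 1 1 * q = 0 := by linear_combination g1
          exact (mul_eq_zero.1 this).resolve_left hb
        have hr0 : r = 0 := by
          have : x 1 1 * r = 0 := by linear_combination (1 / 2) * g2
          exact (mul_eq_zero.1 this).resolve_left hb
        apply hp0
        rw [hq0, hr0] at ht2
        linear_combination ht2
    · exfalso
      have h10' : x 1 0 ≠ 0 := by
        rw [h10]
        intro h
        apply hw
        have h3 := neg_eq_zero.1 h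
        exact (map_eq_zero _).1 h3
      have hr0 : r = 0 := (mul_eq_zero.1 f111).resolve_left h10'
      rw [hr0] at e011 ht2
      have h4 : x 1 0 * q = 0 := by linear_combination (1 / 2) * e011
      have hq0 : q = 0 := (mul_eq_zero.1 h4).resolve_left h10'
      rw [hq0] at ht2
      apply hne
      refine ⟨?_, hq0, hr0⟩
      linear_combination ht2
  obtain ⟨k1, k2, k3⟩ := key
  have k4 : x 1 0 = 0 := by rw [h10, k1, map_zero, neg_zero]
  apply Subtype.ext
  rw [← hx]
  ext i j
  fin_cases i <;> fin_cases j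
  · exact k2
  · exact k1
  · exact k4
  · exact k3

end

end Pool.Agent.N312.KK
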