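import Pool.Agent.N312.KK.Stm

/-! PRE: `P × A` is a principal space over the Borel construction. By helper73. -/

set_option autoImplicit false

namespace Pool.Agent.N312.KK

namespace Prp

section

variable {G : Type} [Group G] [TopologicalSpace G] {P V : Type} [TopologicalSpace P]
  [TopologicalSpace V] [MulAction G P] [MulAction G V]

/-- the action on `P × A` -/
@[reducible] def actE (P : Type) [MulAction G P] (A : Set V)
    (hA : ∀ (g : G), ∀ t ∈ A, g • t ∈ A) : MulAction G {x : P × V // x.2 ∈ A} where
  smul g x := ⟨g • x.1, hA g _ x.2⟩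
  one_smul x := Subtype.ext (one_smul G x.1)
  mul_smul g h x := Subtype.ext (mul_smul g h x.1)

theorem gen (hP : IsUniversal G P) (hV : Continuous fun x : G × V => x.1 • x.2) (A : Set V)
    (hA : ∀ (g : G), ∀ t ∈ A, g • t ∈ A) :
    ∃ (_ : MulAction G {x : P × V // x.2 ∈ A}),
    (∀ (g : G) (x : {x : P × V // x.2 ∈ A}), (g • x).1 = g • x.1) ∧
    IsPrin G {x : P × V // x.2 ∈ A} ∧ IsOrb G (Borel.mk G P A) := by
  refine ⟨actE P A hA, fun g x => rfl, ?_, ?_⟩
  · let _ := actE P A hA
    have hcont : Continuous fun x : G × {x : P × V // x.2 ∈ A} => x.1 • x.2 := by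
      have h1 : Continuous fun x : G × {x : P × V // x.2 ∈ A} => x.1 • x.2.1.1 :=
        hP.continuous_action.comp (continuous_fst.prodMk
          (continuous_fst.comp (continuous_subtype_val.comp continuous_snd)))
      have h2 : Continuous fun x : G × {x : P × V // x.2 ∈ A} => x.1 • x.2.1.2 :=
        hV.comp (continuous_fst.prodMk
          (continuous_snd.comp (continuous_subtype_val.comp continuous_snd)))
      exact (h1.prodMk h2).subtype_mk _
    refine ⟨hcont, fun p => ?_⟩
    obtain ⟨O, hO, hp, hinv, τ, hτ, hτ'⟩ := hP.locally_trivial p.1.1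
    have hfst : Continuous fun x : {x : P × V // x.2 ∈ A} => x.1.1 :=
      continuous_fst.comp continuous_subtype_val
    refine ⟨(fun x : {x : P × V // x.2 ∈ A} => x.1.1) ⁻¹' O, hO.preimage hfst, hp,
      fun g q hq => hinv g _ hq, fun x => τ x.1.1, ?_, fun g q hq => hτ' g _ hq⟩
    exact hτ.comp hfst.continuousOn fun x hx => hx
  · let _ := actE P A hA
    have hcont : ∀ g : G, Continuous fun x : {x : P × V // x.2 ∈ A} => g • x := by
      intro g
      have h1 : Continuous fun x : {x : P × V // x.2 ∈ A} => g • x.1.1 :=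
        hP.continuous_action.comp (continuous_const.prodMk
          (continuous_fst.comp continuous_subtype_val))
      have h2 : Continuous fun x : {x : P × V // x.2 ∈ A} => g • x.1.2 :=
        hV.comp (continuous_const.prodMk (continuous_snd.comp continuous_subtype_val))
      exact (h1.prodMk h2).subtype_mk _
    have hfib : ∀ x y : {x : P × V // x.2 ∈ A},
        Borel.mk G P A x = Borel.mk G P A y ↔ ∃ g : G, g • x = y := by
      intro x y
      have hq : Borel.mk G P A x = Borel.mk G P A y ↔
          ∃ g : G, g • x.1.1 = y.1.1 ∧ g • x.1.2 = y.1.2 :=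
        Quotient.eq (r := borelSetoid G P A)
      rw [hq]
      constructor
      · rintro ⟨g, h1, h2⟩
        exact ⟨g, Subtype.ext (Prod.ext h1 h2)⟩
      · rintro ⟨g, h1⟩
        refine ⟨g, ?_, ?_⟩
        · exact congrArg (fun z : {x : P × V // x.2 ∈ A} => z.1.1) h1
        · exact congrArg (fun z : {x : P × V // x.2 ∈ A} => z.1.2) h1
    refine ⟨⟨?_, ?_, ?_⟩, hfib⟩
    · exact Quotient.mk_surjective
    · exact continuous_quotient_mk'
    · intro U hU
      have hq : Topology.IsQuotientMap (Borel.mk G P A) := isQuotientMap_quotient_mk'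
      rw [← hq.isOpen_preimage]
      have h1 : Borel.mk G P A ⁻¹' (Borel.mk G P A '' U) =
          ⋃ g : G, (fun x : {x : P × V // x.2 ∈ A} => g • x) ⁻¹' U := by
        ext x
        simp only [Set.mem_preimage, Set.mem_image, Set.mem_iUnion]
        constructor
        · rintro ⟨y, hy, hxy⟩
          obtain ⟨g, hg⟩ := (hfib x y).1 hxy.symm
          exact ⟨g, by rw [hg]; exact hy⟩
        · rintro ⟨g, hg⟩
          exact ⟨g • x, hg, ((hfib x (g • x)).2 ⟨g, rfl⟩).symm⟩
      rw [h1]
      exact isOpen_iUnion fun g => hU.preimage (hcont g)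

end

theorem cont_cub : Continuous fun x : U2 × Cub => x.1 • x.2 := by
  refine Continuous.subtype_mk ?_ _
  refine continuous_pi fun i => continuous_pi fun j => continuous_pi fun k => ?_
  change Continuous fun x : U2 × Cub => act (x.1 : Matrix (Fin 2) (Fin 2) ℂ) (x.2 : Ten) i j k
  unfold act
  have hg : ∀ i a : Fin 2, Continuous fun x : U2 × Cub => (x.1 : Matrix (Fin 2) (Fin 2) ℂ) i a :=
    fun i a => (continuous_subtype_val.comp continuous_fst).matrix_elem i a
  have ht : ∀ a b c : Fin 2, Continuous fun x : U2 × Cub => (x.2 : Ten) a b c :=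
    fun a b c => (continuous_apply c).comp ((continuous_apply b).comp ((continuous_apply a).comp
      (continuous_subtype_val.comp continuous_snd)))
  refine continuous_finsetSum _ fun a _ => continuous_finsetSum _ fun b _ =>
    continuous_finsetSum _ fun c _ => ?_
  exact (((hg i a).mul (hg j b)).mul (hg k c)).mul (ht a b c)

end Prp

theorem pre : PRE := by
  intro P _ _ hP A hA
  exact Prp.gen hP Prp.cont_cub A hA

end Pool.Agent.N312.KK
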