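import Pool.Agent.N312.KK.Stm

/-!
REG: there is a central regular value of the moment map with a non-empty level set.
-/

set_option autoImplicit false

namespace Pool.Agent.N312.KK

noncomputable section

namespace Reg

abbrev Mat := Matrix (Fin 2) (Fin 2) ℂ

theorem sk (ξ : u2) (i j : Fin 2) : (starRingEnd ℂ) ((ξ : Mat) i j) = -(ξ : Mat) j i := by
  have h : star (ξ : Mat) = -(ξ : Mat) := skewAdjoint.mem_iff.1 ξ.2
  have h2 := congrFun (congrFun h j) i
  rw [Matrix.star_apply, Matrix.neg_apply] at h2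
  exact h2

theorem herm_add_left (x y z : Ten) : herm (x + y) z = herm x z + herm y z := by
  simp only [herm, Pi.add_apply, add_mul, Finset.sum_add_distrib]

theorem herm_add_right (x y z : Ten) : herm x (y + z) = herm x y + herm x z := by
  simp only [herm, Pi.add_apply, map_add, mul_add, Finset.sum_add_distrib]

theorem herm_smul_left (c : ℂ) (x z : Ten) : herm (c • x) z = c * herm x z := by
  simp only [herm, Pi.smul_apply, smul_eq_mul, Finset.mul_sum, mul_assoc]

theorem herm_smul_right (c : ℂ) (x z : Ten) :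
    herm x (c • z) = (starRingEnd ℂ) c * herm x z := by
  simp only [herm, Pi.smul_apply, smul_eq_mul, map_mul, Finset.mul_sum]
  refine Finset.sum_congr rfl fun i _ => Finset.sum_congr rfl fun j _ =>
    Finset.sum_congr rfl fun k _ => ?_
  ring

theorem inf_add (ξ : Mat) (x y : Ten) : inf ξ (x + y) = inf ξ x + inf ξ y := by
  funext i j k
  simp only [inf, Pi.add_apply, ← Finset.sum_add_distrib]
  refine Finset.sum_congr rfl fun l _ => ?_
  ring

theorem inf_smul (ξ : Mat) (c : ℂ) (x : Ten) : inf ξ (c • x) = c • inf ξ x := by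
  funext i j k
  simp only [inf, Pi.smul_apply, smul_eq_mul, Finset.mul_sum]
  refine Finset.sum_congr rfl fun l _ => ?_
  ring

theorem inf_add' (ξ η : Mat) (x : Ten) : inf (ξ + η) x = inf ξ x + inf η x := by
  funext i j k
  simp only [inf, Pi.add_apply, Matrix.add_apply, ← Finset.sum_add_distrib]
  refine Finset.sum_congr rfl fun l _ => ?_
  ring

theorem inf_smul' (r : ℝ) (ξ : Mat) (x : Ten) : inf (r • ξ) x = (r : ℂ) • inf ξ x := by
  funext i j k
  simp only [inf, Pi.smul_apply, Matrix.smul_apply, smul_eq_mul, Complex.real_smul,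
    Finset.mul_sum]
  refine Finset.sum_congr rfl fun l _ => ?_
  ring

theorem skew (ξ : u2) (s t : Ten) :
    herm (inf (ξ : Mat) s) t = -(starRingEnd ℂ) (herm (inf (ξ : Mat) t) s) := by
  simp only [herm, inf, Fin.sum_univ_two, map_add, map_mul, Complex.conj_conj, sk ξ]
  ring

theorem deriv_mom (t s : Cub) (ξ : u2) :
    HasDerivAt (fun r : ℝ => mom (t + (r : ℂ) • s) ξ) (herm (inf (ξ : Mat) t) s).im 0 := by
  have h : (fun r : ℝ => mom (t + (r : ℂ) • s) ξ) = fun r : ℝ =>
      mom t ξ + (r * (herm (inf (ξ : Mat) t) s).im + r ^ 2 * mom s ξ) := by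
    funext r
    unfold mom
    rw [Submodule.coe_add, Submodule.coe_smul, inf_add, inf_smul, herm_add_left, herm_add_right,
      herm_add_right, herm_smul_left, herm_smul_left, herm_smul_right, herm_smul_right,
      Complex.conj_ofReal, skew ξ s t]
    simp only [Complex.add_im, Complex.im_ofReal_mul, Complex.neg_im, Complex.conj_im]
    ring
  rw [h]
  have h1 : HasDerivAt (fun r : ℝ => r * (herm (inf (ξ : Mat) t) s).im)
      (1 * (herm (inf (ξ : Mat) t) s).im) 0 := (hasDerivAt_id' (0 : ℝ)).mul_const _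
  have h2 : HasDerivAt (fun r : ℝ => r ^ 2 * mom s ξ) ((2 : ℕ) * (0 : ℝ) ^ (2 - 1) * mom s ξ) 0 :=
    (hasDerivAt_pow 2 (0 : ℝ)).mul_const _
  have h3 := (h1.add h2).const_add (mom t ξ)
  have e : 1 * (herm (inf (ξ : Mat) t) s).im + (2 : ℕ) * (0 : ℝ) ^ (2 - 1) * mom s ξ =
      (herm (inf (ξ : Mat) t) s).im := by
    simp
  rw [e] at h3
  exact h3

/-- the functional -/
def al : u2dual where
  toFun ξ := (3 / 2) * (Matrix.trace (ξ : Mat)).im
  map_add' x y := by
    rw [AddSubgroup.coe_add, Matrix.trace_add, Complex.add_im]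
    ring
  map_smul' r x := by
    rw [skewAdjoint.val_smul, Matrix.trace_smul, Complex.real_smul, Complex.im_ofReal_mul]
    simp only [smul_eq_mul, RingHom.id_apply]
    ring

theorem al_apply (ξ : u2) : al ξ = (3 / 2) * (((ξ : Mat) 0 0).im + ((ξ : Mat) 1 1).im) := by
  change (3 / 2) * (Matrix.trace (ξ : Mat)).im = _
  rw [Matrix.trace_fin_two, Complex.add_im]

theorem central : IsCentral al := by
  intro g ξ η h
  change (3 / 2) * (Matrix.trace (η : Mat)).im = (3 / 2) * (Matrix.trace (ξ : Mat)).im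
  rw [h, Matrix.trace_mul_comm, ← Matrix.mul_assoc]
  have h1 : ((g⁻¹ : U2) : Mat) * (g : Mat) = 1 := by
    rw [← Submonoid.coe_mul, inv_mul_cancel]
    rfl
  rw [h1, Matrix.one_mul]

/-- a point of the level set -/
def t0 : Cub := ⟨fun i j k => if i = j ∧ j = k then 1 else 0, by
  constructor
  · intro i j k
    fin_cases i <;> fin_cases j <;> fin_cases k <;> simp
  · intro i j k
    fin_cases i <;> fin_cases j <;> fin_cases k <;> simp⟩

theorem nonem : (level al).Nonempty := by
  refine ⟨t0, fun ξ => ?_⟩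
  rw [al_apply]
  unfold mom
  have h : herm (inf (ξ : Mat) t0) t0 = 3 * ((ξ : Mat) 0 0 + (ξ : Mat) 1 1) := by
    simp [herm, inf, Fin.sum_univ_two, t0]
    ring
  rw [h]
  simp
  ring

/-- `i` times the identity -/
def one' : u2 := ⟨Complex.I • (1 : Mat), by
  rw [skewAdjoint.mem_iff, star_smul, star_one]
  simp⟩

theorem level_ne {t : Cub} (ht : t ∈ level al) : (t : Ten) ≠ 0 := by
  intro h
  have h1 := ht one'
  rw [al_apply] at h1
  unfold mom at h1
  rw [h] at h1
  have h2 : herm (inf (one' : Mat) 0) 0 = 0 := by simp [herm]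
  rw [h2] at h1
  simp [one'] at h1

theorem inj {t : Cub} (ht : t ∈ level al) {ξ : u2} (h : inf (ξ : Mat) t = 0) : ξ = 0 := by
  have hne := level_ne ht
  have htr : ((ξ : Mat) 0 0).im + ((ξ : Mat) 1 1).im = 0 := by
    have h1 := ht ξ
    rw [al_apply] at h1
    unfold mom at h1
    rw [h] at h1
    have h2 : herm 0 (t : Ten) = 0 := by simp [herm]
    rw [h2] at h1
    simp at h1
    linarith
  have ha := sk ξ 0 0
  have hd := sk ξ 1 1
  have hb := sk ξ 0 1
  have har : ((ξ : Mat) 0 0).re = 0 := by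
    have := congrArg Complex.re ha
    simp at this
    linarith
  have hdr : ((ξ : Mat) 1 1).re = 0 := by
    have := congrArg Complex.re hd
    simp at this
    linarith
  have had : (ξ : Mat) 1 1 = -(ξ : Mat) 0 0 := by
    apply Complex.ext
    · rw [Complex.neg_re, har, hdr, neg_zero]
    · rw [Complex.neg_im]
      linarith
  obtain ⟨s1, s2⟩ := t.2
  have e010 : (t : Ten) 0 1 0 = (t : Ten) 0 0 1 := (s2 0 0 1).symm
  have e100 : (t : Ten) 1 0 0 = (t : Ten) 0 0 1 := by rw [s1 1 0 0, e010]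
  have e101 : (t : Ten) 1 0 1 = (t : Ten) 0 1 1 := s1 1 0 1
  have e110 : (t : Ten) 1 1 0 = (t : Ten) 0 1 1 := by rw [s2 1 1 0, e101]
  have q0 := congrFun (congrFun (congrFun h 0) 0) 0
  have q1 := congrFun (congrFun (congrFun h 0) 0) 1
  have q2 := congrFun (congrFun (congrFun h 0) 1) 1
  have q3 := congrFun (congrFun (congrFun h 1) 1) 1
  simp only [inf, Fin.sum_univ_two, Pi.zero_apply, e010, e100, e101, e110, had] at q0 q1 q2 q3
  -- the square of the norm
  obtain ⟨a, hadef⟩ : ∃ a, a = (ξ : Mat) 0 0 := ⟨_, rfl⟩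
  obtain ⟨b, hbdef⟩ : ∃ b, b = (ξ : Mat) 0 1 := ⟨_, rfl⟩
  obtain ⟨c, hcdef⟩ : ∃ c, c = (ξ : Mat) 1 0 := ⟨_, rfl⟩
  obtain ⟨p, hp⟩ : ∃ p, p = (t : Ten) 0 0 0 := ⟨_, rfl⟩
  obtain ⟨q, hq⟩ : ∃ q, q = (t : Ten) 0 0 1 := ⟨_, rfl⟩
  obtain ⟨r, hr⟩ : ∃ r, r = (t : Ten) 0 1 1 := ⟨_, rfl⟩
  obtain ⟨s, hs⟩ : ∃ s, s = (t : Ten) 1 1 1 := ⟨_, rfl⟩
  rw [← hadef, ← hbdef, ← hp, ← hq] at q0
  rw [← hadef, ← hbdef, ← hcdef, ← hp, ← hq, ← hr] at q1
  rw [← hadef, ← hbdef, ← hcdef, ← hq, ← hr, ← hs] at q2
  rw [← hadef, ← hcdef, ← hr, ← hs] at q3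
  have E0 : a * p + b * q = 0 := by linear_combination q0 / 3
  have E1 : c * p + a * q + 2 * b * r = 0 := by linear_combination q1
  have E2 : 2 * c * q - a * r + b * s = 0 := by linear_combination q2
  have E3 : c * r - a * s = 0 := by linear_combination q3 / 3
  have F0 : (a ^ 2 + b * c) ^ 2 * p = 0 := by
    linear_combination (a ^ 3 + 3 * a * b * c) * E0 - b * (a ^ 2 - b * c) * E1 -
      2 * a * b ^ 2 * E2 - 2 * b ^ 3 * E3
  have F1 : (a ^ 2 + b * c) ^ 2 * q = 0 := by
    linear_combination (-(c * (a ^ 2 - b * c))) * E0 + a * (a ^ 2 - b * c) * E1 +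
      2 * a ^ 2 * b * E2 + 2 * a * b ^ 2 * E3
  have F2 : (a ^ 2 + b * c) ^ 2 * r = 0 := by
    linear_combination (-(2 * a * c ^ 2)) * E0 + 2 * a ^ 2 * c * E1 -
      a * (a ^ 2 - b * c) * E2 - b * (a ^ 2 - b * c) * E3
  have F3 : (a ^ 2 + b * c) ^ 2 * s = 0 := by
    linear_combination (-(2 * c ^ 3)) * E0 + 2 * a * c ^ 2 * E1 -
      c * (a ^ 2 - b * c) * E2 - (a ^ 3 + 3 * a * b * c) * E3
  have hlam : a ^ 2 + b * c = 0 := by
    by_contra hl
    have hl2 : (a ^ 2 + b * c) ^ 2 ≠ 0 := pow_ne_zero 2 hl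
    have p0 : p = 0 := (mul_eq_zero.1 F0).resolve_left hl2
    have p1 : q = 0 := (mul_eq_zero.1 F1).resolve_left hl2
    have p2 : r = 0 := (mul_eq_zero.1 F2).resolve_left hl2
    have p3 : s = 0 := (mul_eq_zero.1 F3).resolve_left hl2
    rw [hp] at p0
    rw [hq] at p1
    rw [hr] at p2
    rw [hs] at p3
    apply hne
    funext i j k
    fin_cases i <;> fin_cases j <;> fin_cases k
    · exact p0
    · exact p1
    · exact e010.trans p1
    · exact p2
    · exact e100.trans p1
    · exact e101.trans p2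
    · exact e110.trans p2
    · exact p3
  have hcb : c = -(starRingEnd ℂ) b := by
    rw [hcdef, hbdef, hb, neg_neg]
  have har' : a.re = 0 := by rw [hadef]; exact har
  have hre := congrArg Complex.re hlam
  rw [hcb] at hre
  simp [sq, har'] at hre
  have ha0 : a.im = 0 := by nlinarith [mul_self_nonneg a.im, mul_self_nonneg b.re, mul_self_nonneg b.im]
  have hb1 : b.re = 0 := by nlinarith [mul_self_nonneg a.im, mul_self_nonneg b.re, mul_self_nonneg b.im]
  have hb2 : b.im = 0 := by nlinarith [mul_self_nonneg a.im, mul_self_nonneg b.re, mul_self_nonneg b.im]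
  have a0 : a = 0 := Complex.ext har' ha0
  have b0 : b = 0 := Complex.ext hb1 hb2
  have c0 : c = 0 := by rw [hcb, b0]; simp
  apply Subtype.ext
  ext i j
  fin_cases i <;> fin_cases j
  · exact hadef.symm.trans a0
  · exact hbdef.symm.trans b0
  · exact hcdef.symm.trans c0
  · have h11 : (ξ : Mat) 1 1 = 0 := by rw [had, ← hadef, a0, neg_zero]
    exact h11

theorem herm_self_re (x : Ten) : (herm x x).re = ∑ i, ∑ j, ∑ k, Complex.normSq (x i j k) := by
  simp only [herm, Complex.mul_conj, Complex.re_sum, Complex.ofReal_re]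

theorem herm_self {x : Ten} (h : (herm x x).re = 0) : x = 0 := by
  rw [herm_self_re] at h
  simp only [Fin.sum_univ_two] at h
  have g : ∀ i j k, 0 ≤ Complex.normSq (x i j k) := fun i j k => Complex.normSq_nonneg _
  have key : ∀ i j k, Complex.normSq (x i j k) = 0 := by
    intro i j k
    have g1 := g 0 0 0
    have g2 := g 0 0 1
    have g3 := g 0 1 0
    have g4 := g 0 1 1
    have g5 := g 1 0 0
    have g6 := g 1 0 1
    have g7 := g 1 1 0
    have g8 := g 1 1 1
    fin_cases i <;> fin_cases j <;> fin_cases k <;> simp only [Fin.zero_eta, Fin.mk_one] <;>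
      linarith
  funext i j k
  exact Complex.normSq_eq_zero.1 (key i j k)

instance : FiniteDimensional ℝ u2 := by
  let f : u2 →ₗ[ℝ] Mat :=
    { toFun := fun x => (x : Mat)
      map_add' := fun _ _ => rfl
      map_smul' := fun _ _ => rfl }
  exact FiniteDimensional.of_injective f Subtype.val_injective

/-- the bilinear form -/
def bil (t : Cub) : u2 →ₗ[ℝ] u2dual :=
  LinearMap.mk₂ ℝ (fun (η ξ : u2) => (herm (inf (ξ : Mat) t) (inf (η : Mat) t)).re)
    (by
      intro x y z
      rw [AddSubgroup.coe_add, inf_add', herm_add_right, Complex.add_re])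
    (by
      intro r x z
      rw [skewAdjoint.val_smul, inf_smul', herm_smul_right, Complex.conj_ofReal,
        Complex.re_ofReal_mul, smul_eq_mul])
    (by
      intro x y z
      rw [AddSubgroup.coe_add, inf_add', herm_add_left, Complex.add_re])
    (by
      intro r x z
      rw [skewAdjoint.val_smul, inf_smul', herm_smul_left,
        Complex.re_ofReal_mul, smul_eq_mul])

theorem bil_apply (t : Cub) (η ξ : u2) :
    bil t η ξ = (herm (inf (ξ : Mat) t) (inf (η : Mat) t)).re := rfl

theorem bil_surj {t : Cub} (ht : t ∈ level al) : Function.Surjective (bil t) := by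
  have hinj : Function.Injective (bil t) := by
    rw [injective_iff_map_eq_zero]
    intro η hη
    have h1 := congrArg (fun φ : u2dual => φ η) hη
    simp only [LinearMap.zero_apply] at h1
    rw [bil_apply] at h1
    exact inj ht (herm_self h1)
  exact (LinearMap.injective_iff_surjective_of_finrank_eq_finrank
    (Subspace.dual_finrank_eq (K := ℝ) (V := u2)).symm).1 hinj

theorem inf_mem (ξ : Mat) (t : Cub) : inf ξ t ∈ Cub := by
  obtain ⟨h1, h2⟩ := t.2
  constructor
  · intro i j k
    simp only [inf]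
    refine Finset.sum_congr rfl fun l _ => ?_
    rw [h1 l i k, h1 j l k, h1 j i l]
    ring
  · intro i j k
    simp only [inf]
    refine Finset.sum_congr rfl fun l _ => ?_
    rw [h2 l k j, h2 i l j, h2 i k l]
    ring

theorem regular : IsRegular al := by
  intro t ht β
  obtain ⟨η, hη⟩ := bil_surj ht β
  refine ⟨⟨(-Complex.I) • inf (η : Mat) t, Cub.smul_mem _ (inf_mem _ t)⟩, fun ξ => ?_⟩
  have h := deriv_mom t ⟨(-Complex.I) • inf (η : Mat) t, Cub.smul_mem _ (inf_mem _ t)⟩ ξ
  convert h using 1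
  rw [← hη, bil_apply, herm_smul_right]
  simp

end Reg

open Reg in
/-- REG -/
theorem reg : REG := ⟨al, central, regular, nonem⟩

end

end Pool.Agent.N312.KK
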