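import Pool.Agent.N312.KK.Stm

/-! Leaf RET for MP_c41d74_gt: the standard simplex is a retract of the ambient space. -/

set_option autoImplicit false

namespace Pool.Agent.N312.KK

noncomputable section

namespace Ret

/-- the sum of the positive parts -/
def S {n : ℕ} (x : Fin (n + 1) → ℝ) : ℝ := ∑ i, max (x i) 0

/-- the corrected coordinates -/
def y {n : ℕ} (x : Fin (n + 1) → ℝ) (i : Fin (n + 1)) : ℝ :=
  max (x i) 0 + max (1 - S x) 0 / ((n : ℝ) + 1)

theorem y_nonneg {n : ℕ} (x : Fin (n + 1) → ℝ) (i : Fin (n + 1)) : 0 ≤ y x i := by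
  unfold y
  have : (0 : ℝ) ≤ max (1 - S x) 0 / ((n : ℝ) + 1) := by positivity
  have : (0 : ℝ) ≤ max (x i) 0 := le_max_right _ _
  linarith

theorem sum_y {n : ℕ} (x : Fin (n + 1) → ℝ) : ∑ i, y x i = S x + max (1 - S x) 0 := by
  have hn : ((n : ℝ) + 1) ≠ 0 := by positivity
  unfold y
  rw [Finset.sum_add_distrib, Finset.sum_const, Finset.card_univ, Fintype.card_fin]
  rw [nsmul_eq_mul, Nat.cast_add, Nat.cast_one]
  rw [mul_div_cancel₀ _ hn]
  rfl

theorem sum_pos {n : ℕ} (x : Fin (n + 1) → ℝ) : 0 < ∑ i, y x i := by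
  rw [sum_y]
  have := le_max_left (1 - S x) 0
  linarith

theorem cont_y {n : ℕ} (i : Fin (n + 1)) :
    Continuous (fun x : Fin (n + 1) → ℝ => y x i) := by
  unfold y S
  fun_prop

end Ret

theorem ret : RET := by
  intro n
  refine ⟨⟨fun x => ⟨fun i => Ret.y x i / ∑ j, Ret.y x j, ?_, ?_⟩, ?_⟩, ?_⟩
  · intro i
    exact div_nonneg (Ret.y_nonneg x i) (Ret.sum_pos x).le
  · rw [← Finset.sum_div]
    exact div_self (Ret.sum_pos x).ne'
  · refine Continuous.subtype_mk ?_ _
    refine continuous_pi fun i => ?_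
    refine Continuous.div (Ret.cont_y i) ?_ fun x => (Ret.sum_pos x).ne'
    exact continuous_finsetSum _ fun j _ => Ret.cont_y j
  · intro s
    apply Subtype.ext
    funext i
    have h0 : ∀ j, 0 ≤ (s : Fin (n + 1) → ℝ) j := s.2.1
    have h1 : ∑ j, (s : Fin (n + 1) → ℝ) j = 1 := s.2.2
    have hS : Ret.S (s : Fin (n + 1) → ℝ) = 1 := by
      unfold Ret.S
      rw [← h1]
      exact Finset.sum_congr rfl fun j _ => max_eq_left (h0 j)
    have hy : ∀ j, Ret.y (s : Fin (n + 1) → ℝ) j = (s : Fin (n + 1) → ℝ) j := by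
      intro j
      unfold Ret.y
      rw [hS, sub_self, max_self, zero_div, add_zero]
      exact max_eq_left (h0 j)
    change Ret.y (s : Fin (n + 1) → ℝ) i / ∑ j, Ret.y (s : Fin (n + 1) → ℝ) j =
      (s : Fin (n + 1) → ℝ) i
    rw [Finset.sum_congr rfl fun j _ => hy j, h1, div_one, hy]

end

end Pool.Agent.N312.KK
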