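import Mathlib

/-! Definitions of the final statement for MP_c41d74_gt: singular cocycles with rational
coefficients, universal `G`-spaces and Borel constructions, the action of `U(2)` on the symmetric
tensors of degree `3` on `ℂ²` (binary cubic forms), its moment map, central and regular values,
the locally free locus. -/

set_option autoImplicit false

namespace Pool.Agent.N312.KS

noncomputable section

/-! ### Singular cochains with rational coefficients -/

section Cochains

variable {X : Type} [TopologicalSpace X]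

/-- The `i`-th face of a singular `(n+1)`-simplex `Δ^{n+1} → X`: precomposition with the affine
inclusion of `Δ^n` as the face opposite to the `i`-th vertex. -/
def face (n : ℕ) (i : Fin (n + 2)) (σ : C(stdSimplex ℝ (Fin (n + 2)), X)) :
    C(stdSimplex ℝ (Fin (n + 1)), X) :=
  σ.comp ⟨stdSimplex.map i.succAbove, stdSimplex.continuous_map _⟩

/-- The coboundary of a singular cochain with rational coefficients,
`(δφ)(σ) = ∑ i, (-1)^i φ(i-th face of σ)`. -/
def cobd (n : ℕ) (φ : C(stdSimplex ℝ (Fin (n + 1)), X) → ℚ)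
    (σ : C(stdSimplex ℝ (Fin (n + 2)), X)) : ℚ :=
  ∑ i : Fin (n + 2), (-1 : ℚ) ^ (i : ℕ) * φ (face n i σ)

/-- `φ` is a cocycle. -/
def IsCocycle (n : ℕ) (φ : C(stdSimplex ℝ (Fin (n + 1)), X) → ℚ) : Prop :=
  ∀ σ, cobd n φ σ = 0

/-- The cochain `φ` of degree `n+1` is a coboundary. -/
def IsCoboundary (n : ℕ) (φ : C(stdSimplex ℝ (Fin (n + 2)), X) → ℚ) : Prop :=
  ∃ ψ : C(stdSimplex ℝ (Fin (n + 1)), X) → ℚ, ∀ σ, cobd n ψ σ = φ σ

end Cochains

/-! ### Universal spaces and Borel constructions -/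

section Borel

/-- `P` is a universal `G`-space (a model of `EG`): a contractible space with a continuous action
of `G` which is a locally trivial principal bundle over `P/G`, that is, every point has an
invariant open neighbourhood `O` with a continuous equivariant map `τ : O → G` (so that `O` is
`G × τ⁻¹(1)`). -/
structure IsUniversal (G : Type) [Group G] [TopologicalSpace G] (P : Type) [TopologicalSpace P]
    [MulAction G P] : Prop where
  continuous_action : Continuous fun x : G × P => x.1 • x.2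
  contractible : ContractibleSpace P
  locally_trivial : ∀ p : P, ∃ O : Set P, IsOpen O ∧ p ∈ O ∧ (∀ g : G, ∀ q ∈ O, g • q ∈ O) ∧
    ∃ τ : P → G, ContinuousOn τ O ∧ ∀ g : G, ∀ q ∈ O, τ (g • q) = g * τ q

variable (G : Type) [Group G] (P : Type) [TopologicalSpace P] [MulAction G P]
  {V : Type} [TopologicalSpace V] [MulAction G V]

/-- Two points of `P × A`, `A ⊆ V`, are in the same orbit of the diagonal action of `G`. -/
def SameOrbit (A : Set V) (x y : {x : P × V // x.2 ∈ A}) : Prop :=
  ∃ g : G, g • x.1.1 = y.1.1 ∧ g • x.1.2 = y.1.2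

omit [TopologicalSpace P] [TopologicalSpace V] in
theorem sameOrbit_equivalence (A : Set V) : Equivalence (SameOrbit G P A) where
  refl := fun x => ⟨1, one_smul _ _, one_smul _ _⟩
  symm := by
    rintro x y ⟨g, h1, h2⟩
    exact ⟨g⁻¹, by rw [← h1, inv_smul_smul], by rw [← h2, inv_smul_smul]⟩
  trans := by
    rintro x y z ⟨g, h1, h2⟩ ⟨g', h3, h4⟩
    exact ⟨g' * g, by rw [mul_smul, h1, h3], by rw [mul_smul, h2, h4]⟩

/-- The equivalence relation on `P × A` given by the orbits of `G`. -/
def borelSetoid (A : Set V) : Setoid {x : P × V // x.2 ∈ A} :=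
  ⟨SameOrbit G P A, sameOrbit_equivalence G P A⟩

/-- The Borel construction `P ×_G A` of a `G`-invariant subset `A` of `V`. For a universal
`G`-space `P` its cohomology is the equivariant cohomology of `A`. -/
def Borel (A : Set V) : Type := Quotient (borelSetoid G P A)

/-- The quotient topology on the Borel construction. -/
instance Borel.top (A : Set V) : TopologicalSpace (Borel G P A) :=
  (instTopologicalSpaceQuotient : TopologicalSpace (Quotient (borelSetoid G P A)))

/-- The map `P ×_G A → P ×_G V` induced by the inclusion of `A`. -/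
def Borel.incl (A : Set V) : Borel G P A → Borel G P (Set.univ : Set V) :=
  Quotient.map' (s₁ := borelSetoid G P A) (s₂ := borelSetoid G P Set.univ)
    (fun x => ⟨x.1, trivial⟩) (fun _ _ hxy => hxy)

theorem Borel.continuous_incl (A : Set V) : Continuous (Borel.incl G P A) := by
  refine Continuous.quotient_map' ?_ _
  exact Continuous.subtype_mk continuous_subtype_val _

/-- The class of the cocycle `φ` in `H^{n+1}_G(V)` is in the kernel of the restriction
`H^{n+1}_G(V) → H^{n+1}_G(A)`: its restriction is a coboundary. -/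
def IsKilled (n : ℕ) (φ : C(stdSimplex ℝ (Fin (n + 2)), Borel G P (Set.univ : Set V)) → ℚ)
    (A : Set V) : Prop :=
  IsCoboundary n fun σ : C(stdSimplex ℝ (Fin (n + 2)), Borel G P A) =>
    φ (ContinuousMap.comp ⟨Borel.incl G P A, Borel.continuous_incl G P A⟩ σ)

/-- There is a class in `H^{n+1}_G(V; ℚ)` which is in the kernel of the restriction to every member
of `𝒜` but not in the kernel of the restriction to `U`. -/
def KernelsDiffer (n : ℕ) (𝒜 : Set (Set V)) (U : Set V) : Prop :=
  ∃ φ : C(stdSimplex ℝ (Fin (n + 2)), Borel G P (Set.univ : Set V)) → ℚ,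
    IsCocycle (n + 1) φ ∧ (∀ A ∈ 𝒜, IsKilled G P n φ A) ∧ ¬ IsKilled G P n φ U

end Borel

/-! ### Binary cubic forms -/

section Cubic

/-- The action of a matrix on a tensor of degree `3` on `ℂ²`, `(g ⊗ g ⊗ g) t`. -/
def act (g : Matrix (Fin 2) (Fin 2) ℂ) (t : Fin 2 → Fin 2 → Fin 2 → ℂ) :
    Fin 2 → Fin 2 → Fin 2 → ℂ := fun i j k =>
  ∑ a, ∑ b, ∑ c, g i a * g j b * g k c * t a b c

/-- The infinitesimal action of a matrix on a tensor, the derivative of `act` at the identity. -/
def inf (ξ : Matrix (Fin 2) (Fin 2) ℂ) (t : Fin 2 → Fin 2 → Fin 2 → ℂ) :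
    Fin 2 → Fin 2 → Fin 2 → ℂ := fun i j k =>
  ∑ l, (ξ i l * t l j k + ξ j l * t i l k + ξ k l * t i j l)

/-- The standard Hermitian form on tensors, `⟨s, t⟩ = ∑ s_{ijk} conj(t_{ijk})`. -/
def herm (s t : Fin 2 → Fin 2 → Fin 2 → ℂ) : ℂ := ∑ i, ∑ j, ∑ k, s i j k * (starRingEnd ℂ) (t i j k)

/-- The homogeneous moment map of the action of `U(2)` on tensors with the symplectic form
`ω = Im ⟨ , ⟩`: `μ(t)(ξ) = ½ ω(ξ t, t)`, for `ξ` in the Lie algebra of skew-Hermitian matrices. -/
def mom (t : Fin 2 → Fin 2 → Fin 2 → ℂ) (ξ : skewAdjoint (Matrix (Fin 2) (Fin 2) ℂ)) : ℝ :=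
  (1 / 2) * (herm (inf ξ t) t).im

/-- A tensor is symmetric. -/
def IsSymTen (t : Fin 2 → Fin 2 → Fin 2 → ℂ) : Prop :=
  (∀ i j k, t i j k = t j i k) ∧ ∀ i j k, t i j k = t i k j

/-- The symmetric tensors, `Sym³(ℂ²)` (a complex vector space of dimension `4`, isometric to `ℂ⁴`
by the coordinates `t 0 0 0, √3 t 0 0 1, √3 t 0 1 1, t 1 1 1`). -/
def Cubic : Type := {t : Fin 2 → Fin 2 → Fin 2 → ℂ // IsSymTen t}

/-- The topology of a subspace. -/
instance Cubic.top : TopologicalSpace Cubic :=
  (instTopologicalSpaceSubtype : TopologicalSpace {t : Fin 2 → Fin 2 → Fin 2 → ℂ // IsSymTen t})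

theorem act_mem (g : Matrix (Fin 2) (Fin 2) ℂ) (t : Cubic) : IsSymTen (act g t.1) := by
  obtain ⟨h1, h2⟩ := t.2
  constructor
  · intro i j k
    simp only [act]
    rw [Finset.sum_comm]
    refine Finset.sum_congr rfl fun a _ => Finset.sum_congr rfl fun b _ =>
      Finset.sum_congr rfl fun c _ => ?_
    rw [h1 b a c]; ring
  · intro i j k
    simp only [act]
    refine Finset.sum_congr rfl fun a _ => ?_
    rw [Finset.sum_comm]
    refine Finset.sum_congr rfl fun b _ =>
      Finset.sum_congr rfl fun c _ => ?_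
    rw [h2 a c b]; ring

/-- The action of a matrix on the symmetric tensors. -/
def Cubic.act (g : Matrix.unitaryGroup (Fin 2) ℂ) (t : Cubic) : Cubic :=
  ⟨KS.act g t.1, act_mem g t⟩

theorem Cubic.one_act (t : Cubic) : Cubic.act 1 t = t := by
  apply Subtype.ext
  funext i j k
  change KS.act ((1 : Matrix.unitaryGroup (Fin 2) ℂ) : Matrix (Fin 2) (Fin 2) ℂ) t.1 i j k =
    t.1 i j k
  simp [KS.act, Matrix.one_apply]

theorem Cubic.mul_act (g h : Matrix.unitaryGroup (Fin 2) ℂ) (t : Cubic) :
    Cubic.act (g * h) t = Cubic.act g (Cubic.act h t) := by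
  apply Subtype.ext
  funext i j k
  change KS.act ((g * h : Matrix.unitaryGroup (Fin 2) ℂ) : Matrix (Fin 2) (Fin 2) ℂ) t.1 i j k =
    KS.act g (KS.act h t.1) i j k
  simp only [KS.act, Submonoid.coe_mul, Matrix.mul_apply, Fin.sum_univ_two]
  ring

/-- The action of `U(2)` on the symmetric tensors. -/
instance Cubic.mulAction : MulAction (Matrix.unitaryGroup (Fin 2) ℂ) Cubic where
  smul := Cubic.act
  one_smul := Cubic.one_act
  mul_smul := Cubic.mul_act

/-- The level set `μ⁻¹(α)`, for `α` in the dual of the Lie algebra. -/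
def level (α : Module.Dual ℝ (skewAdjoint (Matrix (Fin 2) (Fin 2) ℂ))) : Set Cubic :=
  {t | ∀ ξ, mom t.1 ξ = α ξ}

/-- `α` is central: fixed by the coadjoint action. -/
def IsCentral (α : Module.Dual ℝ (skewAdjoint (Matrix (Fin 2) (Fin 2) ℂ))) : Prop :=
  ∀ (g : Matrix.unitaryGroup (Fin 2) ℂ) (ξ η : skewAdjoint (Matrix (Fin 2) (Fin 2) ℂ)),
    (η : Matrix (Fin 2) (Fin 2) ℂ) = (g : Matrix (Fin 2) (Fin 2) ℂ) * ξ *
      ((g⁻¹ : Matrix.unitaryGroup (Fin 2) ℂ) : Matrix (Fin 2) (Fin 2) ℂ) → α η = α ξ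

/-- `α` is a regular value of the moment map on the symmetric tensors: the derivative of `μ` at
every point of `μ⁻¹(α)` is surjective. -/
def IsRegular (α : Module.Dual ℝ (skewAdjoint (Matrix (Fin 2) (Fin 2) ℂ))) : Prop :=
  ∀ t ∈ level α, ∀ β : Module.Dual ℝ (skewAdjoint (Matrix (Fin 2) (Fin 2) ℂ)),
    ∃ s : Cubic, ∀ ξ,
      HasDerivAt (fun r : ℝ => mom (fun i j k => t.1 i j k + (r : ℂ) * s.1 i j k) ξ) (β ξ) 0

/-- The level sets of the central regular values. -/
def centralRegularLevels : Set (Set Cubic) :=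
  {A | ∃ α, IsCentral α ∧ IsRegular α ∧ A = level α}

/-- The locally free locus: the points with finite stabiliser in `U(2)`. -/
def freeLocus : Set Cubic := {t | {g : Matrix.unitaryGroup (Fin 2) ℂ | g • t = t}.Finite}

/-- The action is unitary. -/
def ActionIsUnitary : Prop := ∀ (g : Matrix.unitaryGroup (Fin 2) ℂ)
  (s t : Fin 2 → Fin 2 → Fin 2 → ℂ), herm (act g s) (act g t) = herm s t

/-- `inf ξ t` is the derivative of `act (γ r) t` at `r = 0` for every curve `γ` through the
identity with velocity `ξ`. -/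
def InfIsDerivative : Prop := ∀ (t : Fin 2 → Fin 2 → Fin 2 → ℂ)
  (γ : ℝ → Matrix (Fin 2) (Fin 2) ℂ) (ξ : Matrix (Fin 2) (Fin 2) ℂ), γ 0 = 1 →
  (∀ i j, HasDerivAt (fun r => γ r i j) (ξ i j) 0) →
  ∀ i j k, HasDerivAt (fun r => act (γ r) t i j k) (inf ξ t i j k) 0

/-- The moment map equation `d(μ^ξ)_t(s) = ω(ξ t, s)`. -/
def MomentMapEquation : Prop := ∀ (t s : Cubic) (ξ : skewAdjoint (Matrix (Fin 2) (Fin 2) ℂ)),
  HasDerivAt (fun r : ℝ => mom (fun i j k => t.1 i j k + (r : ℂ) * s.1 i j k) ξ)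
    (herm (inf ξ t.1) s.1).im 0

/-- The moment map is proper: one of its components is `(3/2)|t|²`. -/
def MomentMapIsProper : Prop := ∃ ξ, ∀ t : Cubic, mom t.1 ξ = 3 / 2 * (herm t.1 t.1).re

end Cubic

end

end Pool.Agent.N312.KS
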