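import Pool.Agent.N312.KK.Stm

/-! An explicit singular simplex of `P × U`. By helper322. -/

set_option autoImplicit false

namespace Pool.Agent.N312.KK

noncomputable section

namespace Spx

theorem mp0 (y : stdSimplex ℝ (Fin 2)) :
    (stdSimplex.map (Fin.succAbove (0 : Fin 3)) y) 0 = 0 ∧
    (stdSimplex.map (Fin.succAbove (0 : Fin 3)) y) 1 = y 0 ∧
    (stdSimplex.map (Fin.succAbove (0 : Fin 3)) y) 2 = y 1 := by
  refine ⟨?_, ?_, ?_⟩ <;>
  · rw [stdSimplex.map_coe, FunOnFinite.linearMap_apply_apply, Finset.sum_filter,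
      Fin.sum_univ_two]
    simp [Fin.succAbove]

theorem mp1 (y : stdSimplex ℝ (Fin 2)) :
    (stdSimplex.map (Fin.succAbove (1 : Fin 3)) y) 0 = y 0 ∧
    (stdSimplex.map (Fin.succAbove (1 : Fin 3)) y) 1 = 0 ∧
    (stdSimplex.map (Fin.succAbove (1 : Fin 3)) y) 2 = y 1 := by
  refine ⟨?_, ?_, ?_⟩ <;>
  · rw [stdSimplex.map_coe, FunOnFinite.linearMap_apply_apply, Finset.sum_filter,
      Fin.sum_univ_two]
    simp [Fin.succAbove]

theorem mp2 (y : stdSimplex ℝ (Fin 2)) :
    (stdSimplex.map (Fin.succAbove (2 : Fin 3)) y) 0 = y 0 ∧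
    (stdSimplex.map (Fin.succAbove (2 : Fin 3)) y) 1 = y 1 ∧
    (stdSimplex.map (Fin.succAbove (2 : Fin 3)) y) 2 = 0 := by
  refine ⟨?_, ?_, ?_⟩ <;>
  · rw [stdSimplex.map_coe, FunOnFinite.linearMap_apply_apply, Finset.sum_filter,
      Fin.sum_univ_two]
    simp [Fin.succAbove]

theorem circ (z : Circle) : (z : ℂ) * (starRingEnd ℂ) (z : ℂ) = 1 := by
  rw [Complex.mul_conj, Circle.normSq_coe]
  simp

/-- scalar matrices -/
def sc : C(Circle, U2) where
  toFun z := ⟨(z : ℂ) • (1 : Matrix (Fin 2) (Fin 2) ℂ), by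
    rw [Matrix.mem_unitaryGroup_iff, star_smul, star_one, smul_mul_smul_comm, one_mul]
    have h : (z : ℂ) * star (z : ℂ) = 1 := circ z
    rw [h, one_smul]⟩
  continuous_toFun := by
    refine Continuous.subtype_mk ?_ _
    fun_prop

theorem sc_coe (z : Circle) : (sc z : Matrix (Fin 2) (Fin 2) ℂ) = (z : ℂ) • 1 := rfl

theorem sc_smul (z : Circle) (t : Cub) : sc z • t = ((z : ℂ) ^ 3) • t := by
  apply Subtype.ext
  funext i j k
  change act ((z : ℂ) • 1) t i j k = (z : ℂ) ^ 3 * (t : Ten) i j k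
  simp only [act, Fin.sum_univ_two, Matrix.smul_apply, Matrix.one_apply, smul_eq_mul]
  fin_cases i <;> fin_cases j <;> fin_cases k <;> simp <;> (left; ring)

/-- symmetric tensors -/
def wf (f : ℕ → ℂ) : Cub :=
  ⟨fun i j k => f (i.val + j.val + k.val), fun i j k => by
    show f _ = f _
    rw [add_comm i.val j.val], fun i j k => by
    show f _ = f _
    rw [add_right_comm]⟩

def w0 : Cub := wf fun n => if n = 0 then 3 else if n = 1 then -1 else 0

def w1 : Cub := wf fun n => if n = 1 then 1 else if n = 2 then -1 else 0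

theorem pen_coe (a b : ℂ) (i j k : Fin 2) : ((a • w0 + b • w1 : Cub) : Ten) i j k =
    a * (if i.val + j.val + k.val = 0 then 3 else if i.val + j.val + k.val = 1 then -1 else 0) +
    b * (if i.val + j.val + k.val = 1 then 1 else if i.val + j.val + k.val = 2 then -1 else 0) :=
  rfl

theorem free (hS : STB) (hP : PEN) (a b : ℂ) (h : a ≠ 0 ∨ b ≠ 0) :
    a • w0 + b • w1 ∈ freeLocus := by
  by_contra hcon
  obtain ⟨ξ, hξ, h0⟩ := hS _ hcon
  refine hξ (hP _ ?_ ?_ ?_ ξ h0)
  · rw [pen_coe]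
    simp
  · rw [pen_coe, pen_coe, pen_coe]
    simp
    ring
  · intro h1
    have h2 : ((a • w0 + b • w1 : Cub) : Ten) = 0 := by
      rw [h1]
      rfl
    have h3 := congrFun (congrFun (congrFun h2 0) 0) 0
    have h4 := congrFun (congrFun (congrFun h2 0) 1) 1
    rw [pen_coe] at h3 h4
    simp at h3 h4
    rcases h with h | h
    · exact h h3
    · exact h h4

theorem coeff (a : unitInterval) (z : Circle) :
    (1 - ((a : ℝ) : ℂ)) * (z : ℂ) ^ 3 ≠ 0 ∨ ((a : ℝ) : ℂ) ≠ 0 := by
  by_cases h : ((a : ℝ) : ℂ) = 0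
  · left
    rw [h, sub_zero, one_mul]
    exact pow_ne_zero _ (Circle.coe_ne_zero z)
  · right
    exact h

/-- the second parameter -/
def ss (r : ℝ) : unitInterval := Set.projIcc 0 1 zero_le_one (2 * r)

theorem ss_cont : Continuous ss := continuous_projIcc.comp (by fun_prop)

theorem ss_zero : ss 0 = 0 := Set.projIcc_of_le_left _ (by norm_num)

theorem ss_one {r : ℝ} (h : 1 / 2 ≤ r) : ss r = 1 := Set.projIcc_of_right_le _ (by linarith)

/-- the angle -/
def zf (b c : ℝ) : Circle := cexp (c / max (b + c) (1 / 2))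

theorem cexp_zero : cexp 0 = 1 := by
  show Circle.exp (2 * Real.pi * 0) = 1
  rw [mul_zero, Circle.exp_zero]

theorem cexp_one : cexp 1 = 1 := by
  show Circle.exp (2 * Real.pi * 1) = 1
  rw [mul_one, Circle.exp_two_pi]

theorem cexp_add (x y : ℝ) : cexp (x + y) = cexp x * cexp y := by
  show Circle.exp (2 * Real.pi * (x + y)) = Circle.exp (2 * Real.pi * x) * Circle.exp (2 * Real.pi * y)
  rw [mul_add, Circle.exp_add]

variable {P : Type} [TopologicalSpace P] [MulAction U2 P]

/-- the value of the simplex -/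
def val (H : C(unitInterval × P, P)) (p : P) (a : unitInterval) (z : Circle) : P × Cub :=
  (H (a, sc z • p), ((1 - ((a : ℝ) : ℂ)) * (z : ℂ) ^ 3) • w0 + ((a : ℝ) : ℂ) • w1)

theorem coord_cont (i : Fin 3) : Continuous fun x : stdSimplex ℝ (Fin 3) => x i :=
  (continuous_apply i).comp continuous_subtype_val

end Spx

open Spx

theorem spx : STB → PEN → SPX := by
  intro hS hP P _ _ hU vr hvr
  have := hU.contractible
  obtain ⟨p, ⟨Hh⟩⟩ := id_nullhomotopic P
  obtain ⟨H, hH⟩ : ∃ H : C(unitInterval × P, P), H = Hh.toContinuousMap := ⟨_, rfl⟩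
  have H0 : ∀ q, H (0, q) = q := by
    intro q
    rw [hH]
    exact Hh.map_zero_left q
  have H1 : ∀ q, H (1, q) = p := by
    intro q
    rw [hH]
    exact Hh.map_one_left q
  have hval1 : ∀ z, val H p 1 z = (p, w1) := by
    intro z
    unfold val
    rw [H1]
    simp
  have hval0 : ∀ z, val H p 0 z = (sc z • p, sc z • w0) := by
    intro z
    unfold val
    rw [H0, sc_smul]
    simp
  have hfree : ∀ a z, (val H p a z).2 ∈ freeLocus := fun a z => free hS hP _ _ (coeff a z)
  have hcont : Continuous fun x : stdSimplex ℝ (Fin 3) => val H p (ss (x 0)) (zf (x 1) (x 2)) := by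
    have c1 : Continuous fun x : stdSimplex ℝ (Fin 3) => ss (x 0) := ss_cont.comp (coord_cont 0)
    have c2 : Continuous fun x : stdSimplex ℝ (Fin 3) => zf (x 1) (x 2) := by
      unfold zf
      refine cexp.continuous.comp ?_
      refine Continuous.div (coord_cont 2) ?_ ?_
      · exact ((coord_cont 1).add (coord_cont 2)).max continuous_const
      · intro x
        have : (1 / 2 : ℝ) ≤ max (x 1 + x 2) (1 / 2) := le_max_right _ _
        positivity
    have c3 : Continuous fun x : stdSimplex ℝ (Fin 3) => ((zf (x 1) (x 2) : Circle) : ℂ) :=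
      continuous_subtype_val.comp c2
    have c4 : Continuous fun x : stdSimplex ℝ (Fin 3) => (((ss (x 0) : unitInterval) : ℝ) : ℂ) :=
      Complex.continuous_ofReal.comp (continuous_subtype_val.comp c1)
    unfold val
    refine Continuous.prodMk ?_ ?_
    · refine H.continuous.comp (c1.prodMk ?_)
      exact hU.continuous_action.comp ((sc.continuous.comp c2).prodMk continuous_const)
    · exact (((continuous_const.sub c4).mul (c3.pow 3)).smul continuous_const).add
        (c4.smul continuous_const)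
  refine ⟨⟨fun x => ⟨val H p (ss (x 0)) (zf (x 1) (x 2)), hfree _ _⟩, hcont.subtype_mk _⟩,
    ⟨(p, w0), ?_⟩, sc.comp (cexp.comp ⟨fun y => y 1, ?_⟩), ?_, ?_, ?_, ?_⟩
  · have h := free hS hP 1 0 (Or.inl one_ne_zero)
    simpa using h
  · exact (continuous_apply 1).comp continuous_subtype_val
  · ext1 y
    apply Subtype.ext
    change val H p (ss ((stdSimplex.map (Fin.succAbove (1 : Fin 3)) y) 0))
        (zf ((stdSimplex.map (Fin.succAbove (1 : Fin 3)) y) 1)
          ((stdSimplex.map (Fin.succAbove (1 : Fin 3)) y) 2)) =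
      val H p (ss ((stdSimplex.map (Fin.succAbove (2 : Fin 3)) y) 0))
        (zf ((stdSimplex.map (Fin.succAbove (2 : Fin 3)) y) 1)
          ((stdSimplex.map (Fin.succAbove (2 : Fin 3)) y) 2))
    obtain ⟨a1, a2, a3⟩ := mp1 y
    obtain ⟨b1, b2, b3⟩ := mp2 y
    rw [a1, a2, a3, b1, b2, b3]
    have hsum := stdSimplex.add_eq_one y
    by_cases h : 1 / 2 ≤ y 1
    · have e1 : zf 0 (y 1) = 1 := by
        unfold zf
        rw [zero_add, max_eq_left h, div_self (by linarith), cexp_one]
      have e2 : zf (y 1) 0 = 1 := by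
        unfold zf
        rw [zero_div, cexp_zero]
      rw [e1, e2]
    · have e1 : ss (y 0) = 1 := ss_one (by linarith)
      rw [e1, hval1, hval1]
  · intro s
    change (val H p (ss ((stdSimplex.map (Fin.succAbove (0 : Fin 3)) s) 0))
        (zf ((stdSimplex.map (Fin.succAbove (0 : Fin 3)) s) 1)
          ((stdSimplex.map (Fin.succAbove (0 : Fin 3)) s) 2))).1 = sc (cexp (s 1)) • p
    obtain ⟨a1, a2, a3⟩ := mp0 s
    have e1 : zf (s 0) (s 1) = cexp (s 1) := by
      unfold zf
      rw [stdSimplex.add_eq_one s, max_eq_left (by norm_num), div_one]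
    rw [a1, a2, a3, e1, ss_zero, hval0]
  · intro s
    change (val H p (ss ((stdSimplex.map (Fin.succAbove (0 : Fin 3)) s) 0))
        (zf ((stdSimplex.map (Fin.succAbove (0 : Fin 3)) s) 1)
          ((stdSimplex.map (Fin.succAbove (0 : Fin 3)) s) 2))).2 = sc (cexp (s 1)) • w0
    obtain ⟨a1, a2, a3⟩ := mp0 s
    have e1 : zf (s 0) (s 1) = cexp (s 1) := by
      unfold zf
      rw [stdSimplex.add_eq_one s, max_eq_left (by norm_num), div_one]
    rw [a1, a2, a3, e1, ss_zero, hval0]
  · obtain ⟨θ, hθ⟩ : ∃ θ : Sing ℝ 1, ∀ y, θ y = 2 * y 1 :=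
      ⟨⟨fun y => 2 * y 1, continuous_const.mul ((continuous_apply 1).comp
        continuous_subtype_val)⟩, fun _ => rfl⟩
    have h1 : udet.comp (sc.comp (cexp.comp ⟨fun y : stdSimplex ℝ (Fin 2) => y 1,
        (continuous_apply 1).comp continuous_subtype_val⟩)) = cexp.comp θ := by
      ext1 y
      rw [ContinuousMap.comp_apply, ContinuousMap.comp_apply, ContinuousMap.comp_apply,
        ContinuousMap.comp_apply, hθ]
      change udet (sc (cexp (y 1))) = cexp (2 * y 1)
      rw [two_mul, cexp_add]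
      apply Circle.ext
      change (sc (cexp (y 1)) : Matrix (Fin 2) (Fin 2) ℂ).det = _
      rw [sc_coe, Matrix.det_smul, Matrix.det_one, mul_one, Fintype.card_fin, Circle.coe_mul, sq]
    refine (congrArg vr h1).trans ?_
    rw [hvr.eq, hθ, hθ]
    have h2 : (vtx 1 1) 1 = 1 := by
      change (Pi.single (1 : Fin 2) (1 : ℝ) : Fin 2 → ℝ) 1 = 1
      simp
    have h3 : (vtx 1 0) 1 = 0 := by
      change (Pi.single (0 : Fin 2) (1 : ℝ) : Fin 2 → ℝ) 1 = 0
      simp
    rw [h2, h3]
    norm_num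

end

end Pool.Agent.N312.KK
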