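import Pool.Agent.N312.KK.Stm

/-!
# STB: a point with infinite stabiliser is killed by an element of the Lie algebra (helper595)
-/

set_option autoImplicit false

open Filter Topology

namespace Pool.Agent.N312.KK

namespace Stb

/-- the quadratic part -/
def Q2 (Y : Matrix (Fin 2) (Fin 2) ℂ) (t : Ten) : Ten := fun i j k =>
  ∑ a, ∑ b, (Y i a * Y j b * t a b k + Y i a * Y k b * t a j b + Y j a * Y k b * t i a b)

theorem poly (t : Ten) (r : ℂ) (Y : Matrix (Fin 2) (Fin 2) ℂ) (i j k : Fin 2) :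
    act (1 + r • Y) t i j k =
      t i j k + r * (inf Y t i j k + r * Q2 Y t i j k + r ^ 2 * act Y t i j k) := by
  fin_cases i <;> fin_cases j <;> fin_cases k <;>
    simp [act, inf, Q2, Fin.sum_univ_two, Matrix.add_apply, Matrix.smul_apply] <;> ring

theorem cont_inf (t : Ten) (i j k : Fin 2) :
    Continuous fun Y : Matrix (Fin 2) (Fin 2) ℂ => inf Y t i j k := by
  simp only [inf, Fin.sum_univ_two]
  fun_prop

theorem cont_Q2 (t : Ten) (i j k : Fin 2) :
    Continuous fun Y : Matrix (Fin 2) (Fin 2) ℂ => Q2 Y t i j k := by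
  simp only [Q2, Fin.sum_univ_two]
  fun_prop

theorem cont_act (t : Ten) (i j k : Fin 2) :
    Continuous fun Y : Matrix (Fin 2) (Fin 2) ℂ => act Y t i j k := by
  simp only [act, Fin.sum_univ_two]
  fun_prop

theorem act_mul (g h : Matrix (Fin 2) (Fin 2) ℂ) (t : Ten) : act (g * h) t = act g (act h t) := by
  funext i j k
  simp only [act, Matrix.mul_apply, Fin.sum_univ_two]
  ring

theorem act_one (t : Ten) : act 1 t = t := by
  funext i j k
  simp [act, Matrix.one_apply]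

/-- the norm of a matrix -/
noncomputable def nm (X : Matrix (Fin 2) (Fin 2) ℂ) : ℝ := ‖(fun i j => X i j : Fin 2 → Fin 2 → ℂ)‖

theorem nm_smul (r : ℝ) (X : Matrix (Fin 2) (Fin 2) ℂ) : nm ((r : ℂ) • X) = |r| * nm X := by
  unfold nm
  have : (fun i j => ((r : ℂ) • X) i j : Fin 2 → Fin 2 → ℂ) =
      (r : ℂ) • (fun i j => X i j : Fin 2 → Fin 2 → ℂ) := rfl
  rw [this, norm_smul, Complex.norm_real, Real.norm_eq_abs]

theorem nm_pos {X : Matrix (Fin 2) (Fin 2) ℂ} (h : X ≠ 0) : 0 < nm X := by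
  unfold nm
  rw [norm_pos_iff]
  intro h0
  apply h
  ext i j
  exact congrFun (congrFun h0 i) j

theorem nm_zero : nm 0 = 0 := by
  unfold nm
  have : (fun i j => (0 : Matrix (Fin 2) (Fin 2) ℂ) i j : Fin 2 → Fin 2 → ℂ) = 0 := rfl
  rw [this, norm_zero]

theorem cont_nm : Continuous nm := by
  unfold nm
  exact continuous_norm.comp (by fun_prop)

theorem comp_sph : IsCompact {X : Matrix (Fin 2) (Fin 2) ℂ | nm X = 1} := by
  have h := isCompact_sphere (0 : Fin 2 → Fin 2 → ℂ) 1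
  have e : Metric.sphere (0 : Fin 2 → Fin 2 → ℂ) 1 = {X | ‖X‖ = 1} := by
    ext X
    rw [mem_sphere_zero_iff_norm]
    rfl
  rw [e] at h
  exact h

end Stb

open Stb in
/-- STB -/
theorem stb : STB := by
  intro t ht
  have hinf : {g : U2 | g • t = t}.Infinite := ht
  obtain ⟨S, hS⟩ : ∃ S : Set (Matrix (Fin 2) (Fin 2) ℂ),
      S = {g | (star g * g = 1 ∧ g * star g = 1) ∧ act g t = t} := ⟨_, rfl⟩
  have hSi : S.Infinite := by
    refine (hinf.image (f := Subtype.val) Subtype.val_injective.injOn).mono ?_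
    rintro _ ⟨g, hg, rfl⟩
    rw [hS]
    refine ⟨⟨?_, ?_⟩, congrArg Subtype.val hg⟩
    · exact Matrix.mem_unitaryGroup_iff'.1 g.2
    · exact Matrix.mem_unitaryGroup_iff.1 g.2
  have hcl : IsClosed S := by
    rw [hS]
    refine IsClosed.inter (IsClosed.inter ?_ ?_) ?_
    · exact isClosed_eq (by fun_prop) continuous_const
    · exact isClosed_eq (by fun_prop) continuous_const
    · refine isClosed_eq ?_ continuous_const
      exact continuous_pi fun i => continuous_pi fun j => continuous_pi fun k => cont_act _ i j k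
  have hK : IsCompact (Set.pi Set.univ fun _ => Set.pi Set.univ fun _ => Metric.closedBall 0 1 :
      Set (Fin 2 → Fin 2 → ℂ)) :=
    isCompact_univ_pi fun _ => isCompact_univ_pi fun _ => isCompact_closedBall _ _
  have hsub : S ⊆ (Set.pi Set.univ fun _ => Set.pi Set.univ fun _ => Metric.closedBall 0 1 :
      Set (Fin 2 → Fin 2 → ℂ)) := by
    intro g hg i _ j _
    rw [hS] at hg
    rw [mem_closedBall_zero_iff]
    exact entry_norm_bound_of_unitary (Matrix.mem_unitaryGroup_iff.2 hg.1.2) i j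
  obtain ⟨x, -, hacc⟩ := hSi.exists_accPt_of_subset_isCompact hK hsub
  have hxS : x ∈ S := isClosed_iff_clusterPt.1 hcl x hacc.clusterPt
  have hx := hxS
  rw [hS] at hx
  obtain ⟨⟨hx1, hx2⟩, hx3⟩ := hx
  obtain ⟨F, hF⟩ : ∃ F : Filter (Matrix (Fin 2) (Fin 2) ℂ), F = 𝓝[≠] x ⊓ 𝓟 S := ⟨_, rfl⟩
  have : NeBot F := by
    rw [hF]
    exact hacc
  have hUF : ((Ultrafilter.of F : Ultrafilter _) : Filter _) ≤ F := Ultrafilter.of_le F
  obtain ⟨U, hU⟩ : ∃ U : Ultrafilter (Matrix (Fin 2) (Fin 2) ℂ), U = Ultrafilter.of F := ⟨_, rfl⟩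
  rw [← hU, hF] at hUF
  have hU1 : (U : Filter (Matrix (Fin 2) (Fin 2) ℂ)) ≤ 𝓝 x :=
    hUF.trans (inf_le_left.trans nhdsWithin_le_nhds)
  have hU2 : ∀ᶠ y in (U : Filter (Matrix (Fin 2) (Fin 2) ℂ)), y ≠ x :=
    (hUF.trans inf_le_left) self_mem_nhdsWithin
  have hU3 : ∀ᶠ y in (U : Filter (Matrix (Fin 2) (Fin 2) ℂ)), y ∈ S :=
    (hUF.trans inf_le_right) (mem_principal_self S)
  obtain ⟨X, hX⟩ : ∃ X : Matrix (Fin 2) (Fin 2) ℂ → Matrix (Fin 2) (Fin 2) ℂ,
      ∀ y, X y = star x * y - 1 := ⟨fun y => star x * y - 1, fun _ => rfl⟩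
  have hXc : Continuous X := by
    have : X = fun y => star x * y - 1 := funext hX
    rw [this]
    fun_prop
  have hr0 : Tendsto (fun y => nm (X y)) U (𝓝 0) := by
    have h1 : Tendsto (fun y => nm (X y)) (𝓝 x) (𝓝 (nm (X x))) :=
      (cont_nm.comp hXc).tendsto x
    rw [hX x, hx1, sub_self, nm_zero] at h1
    exact h1.mono_left hU1
  have hpos : ∀ y, y ≠ x → 0 < nm (X y) := by
    intro y hy
    apply nm_pos
    intro h0
    apply hy
    rw [hX, sub_eq_zero] at h0
    have h2 := congrArg (fun z => x * z) h0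
    simp only [mul_one] at h2
    rw [← h2, ← mul_assoc, hx2, one_mul]
  obtain ⟨Y, hY⟩ : ∃ Y : Matrix (Fin 2) (Fin 2) ℂ → Matrix (Fin 2) (Fin 2) ℂ,
      ∀ y, Y y = (((nm (X y))⁻¹ : ℝ) : ℂ) • X y := ⟨fun y => _, fun _ => rfl⟩
  have hY1 : ∀ y, y ≠ x → nm (Y y) = 1 := by
    intro y hy
    rw [hY, nm_smul, abs_of_pos (inv_pos.2 (hpos y hy)), inv_mul_cancel₀ (hpos y hy).ne']
  have hXY : ∀ y, y ≠ x → X y = ((nm (X y) : ℝ) : ℂ) • Y y := by
    intro y hy
    rw [hY, smul_smul, ← Complex.ofReal_mul, mul_inv_cancel₀ (hpos y hy).ne', Complex.ofReal_one,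
      one_smul]
  obtain ⟨Y0, hY0, hlim⟩ := comp_sph.ultrafilter_le_nhds (U.map Y) (by
    rw [le_principal_iff]
    show ∀ᶠ y in (U : Filter (Matrix (Fin 2) (Fin 2) ℂ)), nm (Y y) = 1
    filter_upwards [hU2] with y hy
    exact hY1 y hy)
  have hlim' : Tendsto Y U (𝓝 Y0) := hlim
  have hrc : Tendsto (fun y => ((nm (X y) : ℝ) : ℂ)) U (𝓝 0) := by
    have := (Complex.continuous_ofReal.tendsto 0).comp hr0
    rw [Complex.ofReal_zero] at this
    exact this
  -- the two identities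
  have hi : ∀ᶠ y in (U : Filter (Matrix (Fin 2) (Fin 2) ℂ)),
      Y y + star (Y y) + ((nm (X y) : ℝ) : ℂ) • (star (Y y) * Y y) = 0 := by
    filter_upwards [hU2, hU3] with y hy hyS
    rw [hS] at hyS
    obtain ⟨⟨hy1, hy2⟩, hy3⟩ := hyS
    have e1 : star (1 + X y) * (1 + X y) = 1 := by
      have : 1 + X y = star x * y := by rw [hX]; abel
      rw [this, star_mul, star_star, mul_assoc, ← mul_assoc x, hx2, one_mul, hy1]
    have e2 : X y + star (X y) + star (X y) * X y = 0 := by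
      rw [star_add, star_one, add_mul, one_mul, mul_add, mul_one] at e1
      have := sub_eq_zero.2 e1
      rw [← this]
      abel
    have hr : ((nm (X y) : ℝ) : ℂ) ≠ 0 := by
      exact_mod_cast (hpos y hy).ne'
    have e3 : ((nm (X y) : ℝ) : ℂ) • (Y y + star (Y y) +
        ((nm (X y) : ℝ) : ℂ) • (star (Y y) * Y y)) = 0 := by
      rw [← e2]
      conv_rhs => rw [hXY y hy]
      rw [star_smul, Complex.star_def, Complex.conj_ofReal, smul_add, smul_add, smul_mul_smul_comm,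
        smul_smul]
    exact (smul_eq_zero.1 e3).resolve_left hr
  have hii : ∀ᶠ y in (U : Filter (Matrix (Fin 2) (Fin 2) ℂ)), ∀ i j k,
      inf (Y y) t i j k + ((nm (X y) : ℝ) : ℂ) * Q2 (Y y) t i j k +
        ((nm (X y) : ℝ) : ℂ) ^ 2 * act (Y y) t i j k = 0 := by
    filter_upwards [hU2, hU3] with y hy hyS i j k
    rw [hS] at hyS
    obtain ⟨⟨hy1, hy2⟩, hy3⟩ := hyS
    have hr : ((nm (X y) : ℝ) : ℂ) ≠ 0 := by
      exact_mod_cast (hpos y hy).ne'
    have e1 : act (1 + ((nm (X y) : ℝ) : ℂ) • Y y) t = t := by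
      rw [← hXY y hy]
      have : 1 + X y = star x * y := by rw [hX]; abel
      rw [this, act_mul, hy3]
      conv_lhs => rw [← hx3]
      rw [← act_mul, hx1, act_one]
    have e2 := congrFun (congrFun (congrFun e1 i) j) k
    rw [poly] at e2
    have e3 : ((nm (X y) : ℝ) : ℂ) * (inf (Y y) t i j k +
        ((nm (X y) : ℝ) : ℂ) * Q2 (Y y) t i j k +
        ((nm (X y) : ℝ) : ℂ) ^ 2 * act (Y y) t i j k) = 0 := by
      linear_combination e2
    exact (mul_eq_zero.1 e3).resolve_left hr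
  -- the limits
  have hskew : Y0 + star Y0 = 0 := by
    have h1 : Tendsto (fun y => Y y + star (Y y) + ((nm (X y) : ℝ) : ℂ) • (star (Y y) * Y y)) U
        (𝓝 (Y0 + star Y0 + (0 : ℂ) • (star Y0 * Y0))) :=
      (hlim'.add hlim'.star).add (hrc.smul (hlim'.star.mul hlim'))
    rw [zero_smul, add_zero] at h1
    exact tendsto_nhds_unique (h1.congr' hi) tendsto_const_nhds
  have hinf0 : inf Y0 t = 0 := by
    funext i j k
    have h1 : Tendsto (fun y => inf (Y y) t i j k + ((nm (X y) : ℝ) : ℂ) * Q2 (Y y) t i j k +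
        ((nm (X y) : ℝ) : ℂ) ^ 2 * act (Y y) t i j k) U
        (𝓝 (inf Y0 t i j k + 0 * Q2 Y0 t i j k + 0 ^ 2 * act Y0 t i j k)) :=
      ((((cont_inf t i j k).tendsto Y0).comp hlim').add
        (hrc.mul (((cont_Q2 t i j k).tendsto Y0).comp hlim'))).add
        ((hrc.pow 2).mul (((cont_act t i j k).tendsto Y0).comp hlim'))
    have h2 : inf Y0 t i j k + 0 * Q2 Y0 t i j k + 0 ^ 2 * act Y0 t i j k = inf Y0 t i j k := by
      ring
    rw [h2] at h1
    refine tendsto_nhds_unique (h1.congr' (hii.mono fun y hy => hy i j k)) tendsto_const_nhds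
  refine ⟨⟨Y0, ?_⟩, ?_, hinf0⟩
  · rw [skewAdjoint.mem_iff]
    exact (eq_neg_of_add_eq_zero_right hskew)
  · intro h0
    have h1 : Y0 = 0 := congrArg Subtype.val h0
    rw [h1] at hY0
    have h2 : nm 0 = 1 := hY0
    rw [nm_zero] at h2
    exact zero_ne_one h2

end Pool.Agent.N312.KK
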