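import Pool.Agent.N312.KK.Stm

/-! TRV for MP_c41d74_gt: an equivariant map to the circle makes a multiple of the transgression a
coboundary. Author helper3. -/

set_option autoImplicit false

namespace Pool.Agent.N312.KK

noncomputable section

namespace Trv

theorem vr_one {vr : Sing Circle 1 → ℝ} (h : IsVar vr) : vr 1 = 0 := by
  have h1 := h.mul 1 1
  rw [mul_one] at h1
  linarith

theorem vr_pow {vr : Sing Circle 1 → ℝ} (h : IsVar vr) (f : Sing Circle 1) (k : ℕ) :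
    vr (f ^ k) = k * vr f := by
  induction k with
  | zero => rw [pow_zero, vr_one h, Nat.cast_zero, zero_mul]
  | succ k ih =>
    rw [pow_succ, h.mul, ih]
    push_cast
    ring

end Trv

theorem trv : DIF → TRV := by
  intro hD G _ _ _ E X _ _ _ π χ vr b c hP hvr ht E' X' _ _ π' jE jX d k hL hcomm hfib hd
  have hlift : ∀ ε : Sing X' 1, ∃ l : Sing E' 1, ∀ s, π' (l s) = ε s := fun ε => hL 1 ε
  choose L hLs using hlift
  obtain ⟨ψ, hψ⟩ : ∃ ψ : Sing X' 1 → ℝ,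
      ∀ ε, ψ ε = (k : ℝ) * b (jE.comp (L ε)) - vr (d.comp (L ε)) := ⟨_, fun _ => rfl⟩
  have key : ∀ x : Sing E' 1, ψ (π'.comp x) = (k : ℝ) * b (jE.comp x) - vr (d.comp x) := by
    intro x
    obtain ⟨l, hl⟩ : ∃ l, l = L (π'.comp x) := ⟨_, rfl⟩
    have hls : ∀ s, π' (l s) = π' (x s) := by
      intro s
      rw [hl]
      exact hLs (π'.comp x) s
    obtain ⟨g, hg, hgs⟩ := hD G E hP (stdSimplex ℝ (Fin (1 + 1))) (fun s => jE (x s))
      (fun s => jE (l s)) Set.univ (jE.comp x).continuous.continuousOn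
      (jE.comp l).continuous.continuousOn (fun s _ => hfib _ _ (hls s))
    obtain ⟨g0, hg0⟩ : ∃ g0 : Sing G 1, ∀ s, g0 s = g s :=
      ⟨⟨g, continuousOn_univ.1 hg⟩, fun _ => rfl⟩
    have h1 : b (jE.comp x) = vr (χ.comp g0) + b (jE.comp l) := by
      refine ht.mul g0 (jE.comp l) (jE.comp x) fun s => ?_
      rw [hg0]
      exact (hgs s (Set.mem_univ s)).symm
    have h2 : d.comp x = (χ.comp g0) ^ k * d.comp l := by
      refine ContinuousMap.ext fun s => ?_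
      show d (x s) = (χ (g0 s)) ^ k * d (l s)
      rw [hg0]
      exact hd (g s) (l s) (x s) (hgs s (Set.mem_univ s))
    rw [hψ, ← hl, h1, h2, hvr.mul, Trv.vr_pow hvr]
    ring
  refine ⟨ψ, fun σ => ?_⟩
  obtain ⟨l, hl⟩ := hL 2 σ
  have h1 : π'.comp l = σ := ContinuousMap.ext hl
  have h2 : jX.comp σ = π.comp (jE.comp l) := by
    refine ContinuousMap.ext fun s => ?_
    show jX (σ s) = π (jE (l s))
    rw [hcomm, hl]
  rw [h2, ht.lft, ← h1]
  have h3 : cob ℝ Circle 1 vr (d.comp l) = 0 := by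
    rw [hvr.cob]
    rfl
  have h3' : ∑ i : Fin (1 + 2), (-1 : ℝ) ^ (i : ℕ) * vr (face 1 i (d.comp l)) = 0 := h3
  have h4 : ∀ i : Fin (1 + 2), ψ (face 1 i (π'.comp l)) =
      (k : ℝ) * b (face 1 i (jE.comp l)) - vr (face 1 i (d.comp l)) := fun i => key (face 1 i l)
  show (k : ℝ) * ∑ i : Fin (1 + 2), (-1 : ℝ) ^ (i : ℕ) * b (face 1 i (jE.comp l)) =
    ∑ i : Fin (1 + 2), (-1 : ℝ) ^ (i : ℕ) * ψ (face 1 i (π'.comp l))
  have h5 : ∑ i : Fin (1 + 2), (-1 : ℝ) ^ (i : ℕ) * ψ (face 1 i (π'.comp l)) =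
      ∑ i : Fin (1 + 2), (k : ℝ) * ((-1 : ℝ) ^ (i : ℕ) * b (face 1 i (jE.comp l))) -
        ∑ i : Fin (1 + 2), (-1 : ℝ) ^ (i : ℕ) * vr (face 1 i (d.comp l)) := by
    rw [← Finset.sum_sub_distrib]
    refine Finset.sum_congr rfl fun i _ => ?_
    rw [h4]
    ring
  rw [h5, h3', sub_zero, Finset.mul_sum]

end

end Pool.Agent.N312.KK
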