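import Pool.Agent.N312.KK.Stm

/-! The variation of the angle of paths in the circle. Lean proof: helper768. -/

set_option autoImplicit false

namespace Pool.Agent.N312.KK

noncomputable section

namespace Vrr

variable {n : ℕ}

instance : LocallyPathConnectedSpace (stdSimplex ℝ (Fin (n + 1))) :=
  (convex_stdSimplex ℝ (Fin (n + 1))).locallyPathConnectedSpace

instance : ContractibleSpace (stdSimplex ℝ (Fin (n + 1))) :=
  (convex_stdSimplex ℝ (Fin (n + 1))).contractibleSpace ⟨_, (vtx n 0).2⟩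

theorem cexp_apply (x : ℝ) : cexp x = Circle.exp (2 * Real.pi * x) := rfl

theorem exists_lift (h : Sing Circle n) : ∃ θ : Sing ℝ n, cexp.comp θ = h := by
  obtain ⟨F, ⟨-, hF⟩, -⟩ := Circle.isCoveringMap_exp.existsUnique_continuousMap_lifts h (vtx n 0)
    (Complex.arg (h (vtx n 0))) (Circle.exp_arg _)
  refine ⟨⟨fun s => F s / (2 * Real.pi), by fun_prop⟩, ?_⟩
  ext1 s
  show Circle.exp (2 * Real.pi * (F s / (2 * Real.pi))) = h s
  rw [mul_div_cancel₀ _ (by positivity)]
  exact congrFun hF s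

theorem uniq (θ θ' : Sing ℝ n) (h : cexp.comp θ = cexp.comp θ')
    (a b : stdSimplex ℝ (Fin (n + 1))) : θ a - θ b = θ' a - θ' b := by
  have h1 : ∀ s, Circle.exp (2 * Real.pi * θ s) = Circle.exp (2 * Real.pi * θ' s) := fun s =>
    DFunLike.congr_fun h s
  obtain ⟨m, hm⟩ := Circle.exp_eq_exp.1 (h1 b)
  have h2 : (fun s => 2 * Real.pi * θ s) = fun s => 2 * Real.pi * θ' s + m * (2 * Real.pi) := by
    refine Circle.isCoveringMap_exp.eq_of_comp_eq (by fun_prop) (by fun_prop) ?_ b hm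
    funext s
    show Circle.exp (2 * Real.pi * θ s) = Circle.exp (2 * Real.pi * θ' s + m * (2 * Real.pi))
    rw [h1 s]
    exact (Circle.exp_eq_exp.2 ⟨m, rfl⟩).symm
  have h3 := congrFun h2 a
  have h4 := congrFun h2 b
  have h5 : 2 * Real.pi * (θ a - θ b) = 2 * Real.pi * (θ' a - θ' b) := by linarith
  exact mul_left_cancel₀ (by positivity) h5

/-- the variation of the angle -/
def var (h : Sing Circle 1) : ℝ :=
  (exists_lift h).choose (vtx 1 1) - (exists_lift h).choose (vtx 1 0)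

theorem var_eq (θ : Sing ℝ 1) : var (cexp.comp θ) = θ (vtx 1 1) - θ (vtx 1 0) :=
  uniq _ _ (exists_lift (cexp.comp θ)).choose_spec _ _

theorem map_vtx (i : Fin 3) (j : Fin 2) :
    stdSimplex.map (S := ℝ) i.succAbove (vtx 1 j) = vtx 2 (i.succAbove j) :=
  stdSimplex.map_vertex (S := ℝ) i.succAbove j

end Vrr

open Vrr in
theorem vrr : VAR := by
  refine ⟨var, var_eq, fun h k => ?_, ?_⟩
  · obtain ⟨θ, rfl⟩ := exists_lift h
    obtain ⟨θ', rfl⟩ := exists_lift k
    have h1 : cexp.comp θ * cexp.comp θ' = cexp.comp (θ + θ') := by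
      ext1 s
      show Circle.exp (2 * Real.pi * θ s) * Circle.exp (2 * Real.pi * θ' s) =
        Circle.exp (2 * Real.pi * (θ s + θ' s))
      rw [← Circle.exp_add, mul_add]
    rw [h1, var_eq, var_eq, var_eq]
    show (θ (vtx 1 1) + θ' (vtx 1 1)) - (θ (vtx 1 0) + θ' (vtx 1 0)) = _
    ring
  · funext h
    obtain ⟨θ, rfl⟩ := exists_lift h
    show ∑ i : Fin 3, (-1 : ℝ) ^ (i : ℕ) * var (face 1 i (cexp.comp θ)) = 0
    have h1 : ∀ i : Fin 3, var (face 1 i (cexp.comp θ)) =
        θ (vtx 2 (i.succAbove 1)) - θ (vtx 2 (i.succAbove 0)) := by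
      intro i
      have h2 : face 1 i (cexp.comp θ) = cexp.comp (face 1 i θ) := rfl
      rw [h2, var_eq]
      show θ (stdSimplex.map i.succAbove (vtx 1 1)) - θ (stdSimplex.map i.succAbove (vtx 1 0)) = _
      rw [map_vtx, map_vtx]
    simp only [h1]
    rw [Fin.sum_univ_three]
    have e1 : (0 : Fin 3).succAbove (1 : Fin 2) = 2 := rfl
    have e2 : (0 : Fin 3).succAbove (0 : Fin 2) = 1 := rfl
    have e3 : (1 : Fin 3).succAbove (1 : Fin 2) = 2 := rfl
    have e4 : (1 : Fin 3).succAbove (0 : Fin 2) = 0 := rfl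
    have e5 : (2 : Fin 3).succAbove (1 : Fin 2) = 1 := rfl
    have e6 : (2 : Fin 3).succAbove (0 : Fin 2) = 0 := rfl
    rw [e1, e2, e3, e4, e5, e6]
    simp

end

end Pool.Agent.N312.KK
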