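import Pool.Agent.N312.KK.Stm

/-! The transgression of a character exists. -/

set_option autoImplicit false

namespace Pool.Agent.N312.KK

noncomputable section

namespace Wnd

variable {G : Type} [Group G] [TopologicalSpace G] [IsTopologicalGroup G]
  {E X : Type} [TopologicalSpace E] [TopologicalSpace X] [MulAction G E]

omit [IsTopologicalGroup G] in
theorem free (hP : IsPrin G E) {g h : G} {x : E} (e : g • x = h • x) : g = h := by
  obtain ⟨O, -, hx, -, τ, -, hτ⟩ := hP.loc x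
  have h1 := hτ g x hx
  rw [e, hτ h x hx] at h1
  exact (mul_right_cancel h1).symm

theorem diff (hD : DIF) (hP : IsPrin G E) {π : C(E, X)} (hO : IsOrb G π) {n : ℕ} (l m : Sing E n)
    (h : ∀ s, π (l s) = π (m s)) : ∃ g : Sing G n, ∀ s, l s = g s • m s := by
  obtain ⟨g, hg, hg2⟩ := hD G E hP (stdSimplex ℝ (Fin (n + 1))) l m Set.univ
    l.continuous.continuousOn m.continuous.continuousOn
    (fun x _ => (hO.fib (m x) (l x)).1 (h x).symm)
  exact ⟨⟨g, continuousOn_univ.1 hg⟩, fun s => (hg2 s (Set.mem_univ s)).symm⟩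

end Wnd

theorem wnd : DIF → CC → WND := by
  intro hD hC G _ _ _ E X _ _ _ π χ vr hP hO hL hχ hv
  choose L hLs using hL
  have hdf : ∀ (n : ℕ) (τ : Sing E n), ∃ g : Sing G n, ∀ s, τ s = g s • L n (π.comp τ) s :=
    fun n τ => Wnd.diff hD hP hO τ _ fun s => (hLs n (π.comp τ) s).symm
  choose D hDs using hdf
  let b : Sing E 1 → ℝ := fun x => vr (χ.comp (D 1 x))
  let c : Sing X 2 → ℝ := fun σ => cob ℝ E 1 b (L 2 σ)
  have hmul : ∀ (g : Sing G 1) (x y : Sing E 1), (∀ s, y s = g s • x s) →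
      b y = vr (χ.comp g) + b x := by
    intro g x y hxy
    have h1 : π.comp y = π.comp x := by
      ext s
      show π (y s) = π (x s)
      rw [hxy s]
      exact ((hO.fib (x s) (g s • x s)).2 ⟨g s, rfl⟩).symm
    have h2 : ∀ s, D 1 y s = g s * D 1 x s := by
      intro s
      have h3 := hDs 1 y s
      have h4 := hDs 1 x s
      rw [h1] at h3
      refine Wnd.free hP (x := L 1 (π.comp x) s) ?_
      rw [← h3, mul_smul, ← h4, hxy s]
    have h5 : χ.comp (D 1 y) = χ.comp g * χ.comp (D 1 x) := by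
      apply ContinuousMap.ext
      intro s
      show χ (D 1 y s) = χ (g s) * χ (D 1 x s)
      rw [h2, hχ]
    show vr (χ.comp (D 1 y)) = vr (χ.comp g) + vr (χ.comp (D 1 x))
    rw [h5, hv.mul]
  have hlft : ∀ σ : Sing E 2, c (π.comp σ) = cob ℝ E 1 b σ := by
    intro τ
    have h1 : ∀ i : Fin 3, b (face 1 i τ) =
        vr (face 1 i (χ.comp (D 2 τ))) + b (face 1 i (L 2 (π.comp τ))) := fun i =>
      hmul (face 1 i (D 2 τ)) (face 1 i (L 2 (π.comp τ))) (face 1 i τ) fun s => hDs 2 τ _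
    have h2 : cob ℝ Circle 1 vr (χ.comp (D 2 τ)) = 0 := by
      rw [hv.cob]
      rfl
    show cob ℝ E 1 b (L 2 (π.comp τ)) = cob ℝ E 1 b τ
    have h3 : cob ℝ E 1 b τ = cob ℝ Circle 1 vr (χ.comp (D 2 τ)) +
        cob ℝ E 1 b (L 2 (π.comp τ)) := by
      show (∑ i : Fin 3, (-1 : ℝ) ^ (i : ℕ) * b (face 1 i τ)) =
        (∑ i : Fin 3, (-1 : ℝ) ^ (i : ℕ) * vr (face 1 i (χ.comp (D 2 τ)))) +
          ∑ i : Fin 3, (-1 : ℝ) ^ (i : ℕ) * b (face 1 i (L 2 (π.comp τ)))
      rw [← Finset.sum_add_distrib]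
      refine Finset.sum_congr rfl fun i _ => ?_
      rw [h1 i, mul_add]
    rw [h3, h2, zero_add]
  refine ⟨b, c, ?_, hlft, hmul⟩
  funext y
  have h1 : π.comp (L 3 y) = y := by
    ext s
    exact hLs 3 y s
  have h2 := congrFun (hC ℝ E 1 b) (L 3 y)
  have h3 : cob ℝ X 2 c y = cob ℝ E 2 (cob ℝ E 1 b) (L 3 y) := by
    conv_lhs => rw [← h1]
    show (∑ j : Fin 4, (-1 : ℝ) ^ (j : ℕ) * c (π.comp (face 2 j (L 3 y)))) =
      ∑ j : Fin 4, (-1 : ℝ) ^ (j : ℕ) * cob ℝ E 1 b (face 2 j (L 3 y))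
    exact Finset.sum_congr rfl fun j _ => by rw [hlft]
  rw [h3, h2]
  rfl

end

end Pool.Agent.N312.KK
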