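import Pool.Agent.N312.KK.Asm
import Pool.Agent.N312.KK.Lft
import Pool.Agent.N312.KK.Bas
import Pool.Agent.N312.KK.Dif
import Pool.Agent.N312.KK.Mrg
import Pool.Agent.N312.KK.Grd
import Pool.Agent.N312.KK.Loc
import Pool.Agent.N312.KK.Ret
import Pool.Agent.N312.KK.CCl
import Pool.Agent.N312.KK.Vrr
import Pool.Agent.N312.KK.Wnd
import Pool.Agent.N312.KK.Trv
import Pool.Agent.N312.KK.Eqv
import Pool.Agent.N312.KK.Stb
import Pool.Agent.N312.KK.Pen
import Pool.Agent.N312.KK.Nvd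
import Pool.Agent.N312.KK.Cen
import Pool.Agent.N312.KK.NulDisc
import Pool.Agent.N312.KK.Reg
import Pool.Agent.N312.KK.Inv
import Pool.Agent.N312.KK.Prp
import Pool.Agent.N312.KK.Euu
import Pool.Agent.N312.KK.Spx
import Pool.Agent.N312.KK.Sh

/-! The final statement in the short definitions. -/

set_option autoImplicit false
set_option synthInstance.maxHeartbeats 400000

namespace Pool.Agent.N312.KK

theorem whole (P : Type) [TopologicalSpace P] [MulAction U2 P] (hP : IsUniversal U2 P) :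
    ∃ φ : Sing (Borel U2 P (Set.univ : Set Cub)) 2 → ℚ,
      (∀ σ, cob ℚ _ 2 φ σ = 0) ∧
      (∀ α : u2dual, IsCentral α → IsRegular α → ∃ ψ : Sing (Borel U2 P (level α)) 1 → ℚ,
        ∀ σ, cob ℚ _ 1 ψ σ =
          φ ((Borel.incl U2 P (Set.subset_univ (level α))).comp σ)) ∧
      ¬ ∃ ψ : Sing (Borel U2 P freeLocus) 1 → ℚ, ∀ σ, cob ℚ _ 1 ψ σ =
          φ ((Borel.incl U2 P (Set.subset_univ freeLocus)).comp σ) := by
  obtain ⟨x, h1, h2⟩ := asm (lft (mrg dif) grd loc ret) vrr (wnd dif ccl) (trv dif) eqv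
    (nvd cen nul) inv pre (spx stb pen) P hP
  obtain ⟨⟨φ, hφ⟩, rfl⟩ := Submodule.Quotient.mk_surjective _ x
  refine ⟨φ, fun σ => congrFun (f := cob ℚ _ 2 φ) (g := 0) hφ σ, ?_, ?_⟩
  · intro α ha hr
    exact (map_cls_eq_zero _ 1 φ hφ).1 (h1 α ha hr)
  · intro h
    exact h2 ((map_cls_eq_zero _ 1 φ hφ).2 h)

end Pool.Agent.N312.KK

namespace Pool.Agent.N312.KS

theorem isCentral_iff (α : Module.Dual ℝ (skewAdjoint (Matrix (Fin 2) (Fin 2) ℂ))) :
    IsCentral α ↔ KK.IsCentral α := Iff.rfl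

theorem isRegular_iff (α : Module.Dual ℝ (skewAdjoint (Matrix (Fin 2) (Fin 2) ℂ))) :
    IsRegular α ↔ KK.IsRegular α := Iff.rfl

theorem universal {P : Type} [TopologicalSpace P] [MulAction (Matrix.unitaryGroup (Fin 2) ℂ) P]
    (h : IsUniversal (Matrix.unitaryGroup (Fin 2) ℂ) P) : KK.IsUniversal KK.U2 P :=
  ⟨h.1, h.2, h.3⟩

theorem universal' {P : Type} [TopologicalSpace P] [MulAction (Matrix.unitaryGroup (Fin 2) ℂ) P]
    (h : KK.IsUniversal KK.U2 P) : IsUniversal (Matrix.unitaryGroup (Fin 2) ℂ) P :=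
  ⟨h.1, h.2, h.3⟩

theorem kernelsDiffer (P : Type) [TopologicalSpace P]
    [MulAction (Matrix.unitaryGroup (Fin 2) ℂ) P]
    (hP : IsUniversal (Matrix.unitaryGroup (Fin 2) ℂ) P) :
    KernelsDiffer (Matrix.unitaryGroup (Fin 2) ℂ) P 1 centralRegularLevels freeLocus := by
  obtain ⟨φ, h1, h2, h3⟩ := KK.whole P (universal hP)
  refine ⟨φ, h1, ?_, h3⟩
  rintro A ⟨α, ha, hr, rfl⟩
  exact h2 α ha hr

end Pool.Agent.N312.KS
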