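import Mathlib

/-! Definitions for MP_c41d74_gt: singular cohomology with rational coefficients, universal
`G`-spaces and Borel constructions, the action of `U(2)` on the symmetric tensors of degree `3`
on `ℂ²` (binary cubic forms), its moment map, central and regular values, the locally free
locus. -/

set_option autoImplicit false

namespace Pool.Agent.N312.KK

noncomputable section

/-! ### Singular cohomology -/

section Cohomology

/-- Singular `n`-simplices of a space `X`: continuous maps from the standard `n`-simplex. -/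
abbrev Sing (X : Type) [TopologicalSpace X] (n : ℕ) : Type :=
  C(stdSimplex ℝ (Fin (n + 1)), X)

/-- The `i`-th face of a singular `(n+1)`-simplex: precomposition with the affine inclusion of the
standard `n`-simplex as the face opposite to the `i`-th vertex. -/
def face {X : Type} [TopologicalSpace X] (n : ℕ) (i : Fin (n + 2)) (σ : Sing X (n + 1)) :
    Sing X n :=
  σ.comp ⟨stdSimplex.map i.succAbove, stdSimplex.continuous_map _⟩

theorem cob_aux_add (R : Type) [Field R] (X : Type) [TopologicalSpace X] (n : ℕ)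
    (φ ψ : Sing X n → R) :
    (fun σ : Sing X (n + 1) => ∑ i : Fin (n + 2), (-1 : R) ^ (i : ℕ) * (φ + ψ) (face n i σ)) =
      (fun σ => ∑ i : Fin (n + 2), (-1 : R) ^ (i : ℕ) * φ (face n i σ)) +
        fun σ => ∑ i : Fin (n + 2), (-1 : R) ^ (i : ℕ) * ψ (face n i σ) := by
  funext σ
  simp [mul_add, Finset.sum_add_distrib]

theorem cob_aux_smul (R : Type) [Field R] (X : Type) [TopologicalSpace X] (n : ℕ)
    (c : R) (φ : Sing X n → R) :
    (fun σ : Sing X (n + 1) => ∑ i : Fin (n + 2), (-1 : R) ^ (i : ℕ) * (c • φ) (face n i σ)) =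
      c • fun σ => ∑ i : Fin (n + 2), (-1 : R) ^ (i : ℕ) * φ (face n i σ) := by
  funext σ
  simp only [Pi.smul_apply, smul_eq_mul, Finset.mul_sum]
  refine Finset.sum_congr rfl fun i _ => ?_
  ring

/-- The coboundary of a singular cochain with coefficients in a field `R`,
`(δφ)(σ) = ∑ i, (-1)^i φ(i-th face of σ)`. -/
def cob (R : Type) [Field R] (X : Type) [TopologicalSpace X] (n : ℕ) :
    (Sing X n → R) →ₗ[R] (Sing X (n + 1) → R) where
  toFun φ := fun σ => ∑ i : Fin (n + 2), (-1 : R) ^ (i : ℕ) * φ (face n i σ)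
  map_add' := cob_aux_add R X n
  map_smul' := cob_aux_smul R X n

/-- Rational singular cocycles. -/
def Coc (X : Type) [TopologicalSpace X] (n : ℕ) : Submodule ℚ (Sing X n → ℚ) :=
  LinearMap.ker (cob ℚ X n)

/-- Rational singular coboundaries. -/
def Cbd (X : Type) [TopologicalSpace X] : ∀ n : ℕ, Submodule ℚ (Sing X n → ℚ)
  | 0 => ⊥
  | (n + 1) => LinearMap.range (cob ℚ X n)

/-- The singular cohomology `H^n(X; ℚ)`: cocycles modulo coboundaries. -/
abbrev Coh (X : Type) [TopologicalSpace X] (n : ℕ) : Type :=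
  Coc X n ⧸ (Cbd X n).submoduleOf (Coc X n)

variable {X Y : Type} [TopologicalSpace X] [TopologicalSpace Y]

/-- Pull-back of cochains along a continuous map. -/
def pull (R : Type) [Field R] (f : C(X, Y)) (n : ℕ) : (Sing Y n → R) →ₗ[R] (Sing X n → R) where
  toFun φ := fun σ => φ (f.comp σ)
  map_add' _ _ := rfl
  map_smul' _ _ := rfl

theorem cob_pull (R : Type) [Field R] (f : C(X, Y)) (n : ℕ) (φ : Sing Y n → R) :
    cob R X n (pull R f n φ) = pull R f (n + 1) (cob R Y n φ) := rfl

theorem pull_mem_Coc (f : C(X, Y)) (n : ℕ) (φ : Sing Y n → ℚ) (h : φ ∈ Coc Y n) :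
    pull ℚ f n φ ∈ Coc X n := by
  have h1 : cob ℚ Y n φ = 0 := h
  change cob ℚ X n (pull ℚ f n φ) = 0
  rw [cob_pull, h1, map_zero]

theorem pull_mem_Cbd (f : C(X, Y)) (n : ℕ) (φ : Sing Y n → ℚ) (h : φ ∈ Cbd Y n) :
    pull ℚ f n φ ∈ Cbd X n := by
  cases n with
  | zero =>
    have h1 : φ = 0 := h
    rw [h1, map_zero]
    exact Submodule.zero_mem _
  | succ n =>
    obtain ⟨ψ, rfl⟩ := h
    exact ⟨pull ℚ f n ψ, cob_pull ℚ f n ψ⟩

/-- The map `f^* : H^n(Y; ℚ) → H^n(X; ℚ)` induced by a continuous map `f : X → Y`. -/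
def Coh.map (f : C(X, Y)) (n : ℕ) : Coh Y n →ₗ[ℚ] Coh X n :=
  Submodule.mapQ _ _ ((pull ℚ f n).restrict (pull_mem_Coc f n)) (by
    intro z hz
    exact pull_mem_Cbd f n z.1 hz)

end Cohomology

/-! ### Universal spaces and Borel constructions -/

section Borel

/-- `P` is a universal `G`-space (a model of `EG`): a contractible space with a continuous action
of `G` which is a locally trivial principal bundle over `P/G`, that is, every point has an
invariant open neighbourhood `O` with a continuous equivariant map `τ : O → G` (so that `O` is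
`G × τ⁻¹(1)`). -/
structure IsUniversal (G : Type) [Group G] [TopologicalSpace G] (P : Type) [TopologicalSpace P]
    [MulAction G P] : Prop where
  continuous_action : Continuous fun x : G × P => x.1 • x.2
  contractible : ContractibleSpace P
  locally_trivial : ∀ p : P, ∃ O : Set P, IsOpen O ∧ p ∈ O ∧ (∀ g : G, ∀ q ∈ O, g • q ∈ O) ∧
    ∃ τ : P → G, ContinuousOn τ O ∧ ∀ g : G, ∀ q ∈ O, τ (g • q) = g * τ q

variable (G : Type) [Group G] (P : Type) [TopologicalSpace P] [MulAction G P]
  {V : Type} [TopologicalSpace V] [MulAction G V]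

/-- The equivalence relation on `P × A`, `A ⊆ V`, given by the diagonal action of `G`. -/
def borelSetoid (A : Set V) : Setoid {x : P × V // x.2 ∈ A} where
  r x y := ∃ g : G, g • x.1.1 = y.1.1 ∧ g • x.1.2 = y.1.2
  iseqv :=
    { refl := fun x => ⟨1, one_smul _ _, one_smul _ _⟩
      symm := by
        rintro x y ⟨g, h1, h2⟩
        exact ⟨g⁻¹, by rw [← h1, inv_smul_smul], by rw [← h2, inv_smul_smul]⟩
      trans := by
        rintro x y z ⟨g, h1, h2⟩ ⟨g', h3, h4⟩
        exact ⟨g' * g, by rw [mul_smul, h1, h3], by rw [mul_smul, h2, h4]⟩ }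

/-- The Borel construction `P ×_G A` of a `G`-invariant subset `A` of `V`, with the quotient
topology. For a universal `G`-space `P` its cohomology is the equivariant cohomology of `A`. -/
def Borel (A : Set V) : Type := Quotient (borelSetoid G P A)

instance (A : Set V) : TopologicalSpace (Borel G P A) :=
  inferInstanceAs (TopologicalSpace (Quotient (borelSetoid G P A)))

/-- The class `[p, v]` of a point of `P × A`. -/
def Borel.mk (A : Set V) (x : {x : P × V // x.2 ∈ A}) : Borel G P A :=
  Quotient.mk (borelSetoid G P A) x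

/-- The map `P ×_G A → P ×_G B` induced by an inclusion `A ⊆ B`. -/
def Borel.incl {A B : Set V} (h : A ⊆ B) : C(Borel G P A, Borel G P B) where
  toFun := Quotient.map' (fun x => ⟨x.1, h x.2⟩) (fun _ _ hxy => hxy)
  continuous_toFun := by
    refine Continuous.quotient_map' ?_ _
    exact Continuous.subtype_mk continuous_subtype_val _

/-- The restriction `H^n_G(V) → H^n_G(A)` in equivariant cohomology, computed with the universal
`G`-space `P`. -/
def restr (A : Set V) (n : ℕ) : Coh (Borel G P (Set.univ : Set V)) n →ₗ[ℚ] Coh (Borel G P A) n :=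
  Coh.map (Borel.incl G P (Set.subset_univ A)) n

end Borel

/-! ### Binary cubic forms -/

section Cubic

/-- The unitary group `U(2)`. -/
abbrev U2 : Type := Matrix.unitaryGroup (Fin 2) ℂ

/-- The Lie algebra of `U(2)`: the skew-Hermitian matrices, a real vector space. -/
abbrev u2 : Type := skewAdjoint (Matrix (Fin 2) (Fin 2) ℂ)

/-- Its dual space. -/
abbrev u2dual : Type := Module.Dual ℝ u2

/-- Tensors of degree `3` on `ℂ²`. -/
abbrev Ten : Type := Fin 2 → Fin 2 → Fin 2 → ℂ

/-- A tensor is symmetric. -/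
def IsSymTen (t : Ten) : Prop := (∀ i j k, t i j k = t j i k) ∧ ∀ i j k, t i j k = t i k j

theorem isSymTen_add {s t : Ten} (hs : IsSymTen s) (ht : IsSymTen t) : IsSymTen (s + t) :=
  ⟨fun i j k => by simp only [Pi.add_apply]; rw [hs.1 i j k, ht.1 i j k],
    fun i j k => by simp only [Pi.add_apply]; rw [hs.2 i j k, ht.2 i j k]⟩

theorem isSymTen_smul (c : ℂ) {t : Ten} (ht : IsSymTen t) : IsSymTen (c • t) :=
  ⟨fun i j k => by simp only [Pi.smul_apply]; rw [ht.1 i j k],
    fun i j k => by simp only [Pi.smul_apply]; rw [ht.2 i j k]⟩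

/-- The symmetric tensors, `Sym³(ℂ²)` (a complex vector space of dimension `4`, isometric to `ℂ⁴`
by the coordinates `t 0 0 0, √3 t 0 0 1, √3 t 0 1 1, t 1 1 1`). -/
def Cub : Submodule ℂ Ten where
  carrier := {t | IsSymTen t}
  add_mem' := isSymTen_add
  zero_mem' := ⟨fun _ _ _ => rfl, fun _ _ _ => rfl⟩
  smul_mem' := fun c _ ht => isSymTen_smul c ht

/-- The action of a matrix on a tensor, `(g ⊗ g ⊗ g) t`. -/
def act (g : Matrix (Fin 2) (Fin 2) ℂ) (t : Ten) : Ten := fun i j k =>
  ∑ a, ∑ b, ∑ c, g i a * g j b * g k c * t a b c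

/-- The infinitesimal action of a matrix on a tensor, the derivative of `act` at the identity. -/
def inf (ξ : Matrix (Fin 2) (Fin 2) ℂ) (t : Ten) : Ten := fun i j k =>
  ∑ l, (ξ i l * t l j k + ξ j l * t i l k + ξ k l * t i j l)

/-- The standard Hermitian form on tensors, `⟨s, t⟩ = ∑ s_{ijk} conj(t_{ijk})`. -/
def herm (s t : Ten) : ℂ := ∑ i, ∑ j, ∑ k, s i j k * (starRingEnd ℂ) (t i j k)

theorem act_mem (g : Matrix (Fin 2) (Fin 2) ℂ) (t : Cub) : act g t ∈ Cub := by
  obtain ⟨h1, h2⟩ := t.2
  constructor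
  · intro i j k
    simp only [act]
    rw [Finset.sum_comm]
    refine Finset.sum_congr rfl fun a _ => Finset.sum_congr rfl fun b _ =>
      Finset.sum_congr rfl fun c _ => ?_
    rw [h1 b a c]; ring
  · intro i j k
    simp only [act]
    refine Finset.sum_congr rfl fun a _ => ?_
    rw [Finset.sum_comm]
    refine Finset.sum_congr rfl fun b _ =>
      Finset.sum_congr rfl fun c _ => ?_
    rw [h2 a c b]; ring

theorem one_act (t : Cub) : (⟨act ((1 : U2) : Matrix (Fin 2) (Fin 2) ℂ) t, act_mem _ t⟩ : Cub) = t := by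
  apply Subtype.ext
  funext i j k
  change act ((1 : U2) : Matrix (Fin 2) (Fin 2) ℂ) t i j k = (t : Ten) i j k
  simp [act, Matrix.one_apply]

theorem mul_act (g h : U2) (t : Cub) :
    (⟨act ((g * h : U2) : Matrix (Fin 2) (Fin 2) ℂ) t, act_mem _ t⟩ : Cub) =
      ⟨act g (⟨act h t, act_mem _ t⟩ : Cub), act_mem _ _⟩ := by
  apply Subtype.ext
  funext i j k
  change act ((g * h : U2) : Matrix (Fin 2) (Fin 2) ℂ) t i j k = act g (act h t) i j k
  simp only [act, Submonoid.coe_mul, Matrix.mul_apply, Fin.sum_univ_two]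
  ring

/-- The action of `U(2)` on the symmetric tensors. -/
instance : MulAction U2 Cub where
  smul g t := ⟨act g t, act_mem _ t⟩
  one_smul := one_act
  mul_smul := mul_act

/-- The homogeneous moment map of the action of `U(2)` on the symmetric tensors with the symplectic
form `ω = Im ⟨ , ⟩`: `μ(t)(ξ) = ½ ω(ξ t, t)`. -/
def mom (t : Cub) (ξ : u2) : ℝ := (1 / 2) * (herm (inf (ξ : Matrix (Fin 2) (Fin 2) ℂ) t) t).im

/-- The level set `μ⁻¹(α)`. -/
def level (α : u2dual) : Set Cub := {t | ∀ ξ : u2, mom t ξ = α ξ}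

/-- `α` is central: fixed by the coadjoint action. -/
def IsCentral (α : u2dual) : Prop :=
  ∀ (g : U2) (ξ η : u2), (η : Matrix (Fin 2) (Fin 2) ℂ) =
    (g : Matrix (Fin 2) (Fin 2) ℂ) * ξ * ((g⁻¹ : U2) : Matrix (Fin 2) (Fin 2) ℂ) → α η = α ξ

/-- `α` is a regular value of the moment map: the derivative of `μ` at every point of `μ⁻¹(α)` is
surjective. -/
def IsRegular (α : u2dual) : Prop :=
  ∀ t ∈ level α, ∀ β : u2dual, ∃ s : Cub, ∀ ξ : u2,
    HasDerivAt (fun r : ℝ => mom (t + (r : ℂ) • s) ξ) (β ξ) 0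

/-- The locally free locus: the points with finite stabiliser in `U(2)`. -/
def freeLocus : Set Cub := {t | {g : U2 | g • t = t}.Finite}

end Cubic

end

end Pool.Agent.N312.KK
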