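import Pool.Agent.N312.KK.Stm

/-! Project KK, Nvd (helper413): the discriminant does not vanish on level sets of central regular
values. -/

set_option autoImplicit false

namespace Pool.Agent.N312.KK

namespace Nvd

theorem mom_smul (s : Cub) (ξ : u2) (r : ℝ) : mom (0 + (r : ℂ) • s) ξ = r ^ 2 * mom s ξ := by
  have h1 : ((0 + (r : ℂ) • s : Cub) : Ten) = (r : ℂ) • (s : Ten) := by
    rw [zero_add]
    rfl
  have h2 : inf (ξ : Matrix (Fin 2) (Fin 2) ℂ) ((r : ℂ) • (s : Ten)) =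
      (r : ℂ) • inf (ξ : Matrix (Fin 2) (Fin 2) ℂ) (s : Ten) := by
    funext i j k
    simp only [inf, Pi.smul_apply, smul_eq_mul, Fin.sum_univ_two]
    ring
  have h3 : ∀ x y : Ten, herm ((r : ℂ) • x) ((r : ℂ) • y) = ((r ^ 2 : ℝ) : ℂ) * herm x y := by
    intro x y
    simp only [herm, Pi.smul_apply, smul_eq_mul, Fin.sum_univ_two, map_mul, Complex.conj_ofReal]
    push_cast
    ring
  unfold mom
  rw [h1, h2, h3, Complex.im_ofReal_mul]
  ring

/-- the imaginary part of the upper left entry -/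
noncomputable def bet : u2dual where
  toFun η := ((η : Matrix (Fin 2) (Fin 2) ℂ) 0 0).im
  map_add' x y := by
    simp
  map_smul' r x := by
    simp

/-- the matrix `i` -/
noncomputable def xi : u2 := ⟨Complex.I • (1 : Matrix (Fin 2) (Fin 2) ℂ), by
  rw [skewAdjoint.mem_iff, star_smul, star_one]
  simp⟩

theorem bet_xi : bet xi = 1 := by
  show ((Complex.I • (1 : Matrix (Fin 2) (Fin 2) ℂ)) 0 0).im = 1
  simp

end Nvd

theorem nvd : CEN → NUL → NVD := by
  intro hC hN α hα hreg t ht hd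
  obtain ⟨h1, h2⟩ := hC α hα t ht
  have h0 : t = 0 := hN t hd h1 h2
  subst h0
  obtain ⟨s, hs⟩ := hreg 0 ht Nvd.bet
  have h3 := hs Nvd.xi
  rw [Nvd.bet_xi] at h3
  have h4 : HasDerivAt (fun r : ℝ => mom (0 + (r : ℂ) • s) Nvd.xi) 0 0 := by
    have h5 : (fun r : ℝ => mom (0 + (r : ℂ) • s) Nvd.xi) = fun r : ℝ => r ^ 2 * mom s Nvd.xi := by
      funext r
      exact Nvd.mom_smul s Nvd.xi r
    rw [h5]
    have h6 := ((hasDerivAt_pow 2 (0 : ℝ)).mul_const (mom s Nvd.xi))
    simpa using h6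
  exact one_ne_zero (h3.unique h4)

end Pool.Agent.N312.KK
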